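import Pool.Agent.FNC.StB

/-!
# MP_fa3f7f_ag: the solution of the affine system (module AFB)
-/

set_option autoImplicit false

namespace FNC

open MvPolynomial NCC MldX MMCI MMCX RMX

noncomputable section

namespace AFB_aux

section Ev

variable {F K : Type} [Field F] [Field K] [Algebra F K] {n : ℕ}

theorem evR_zero (x : Fin n → K) : evR x (0 : LaurentR F n) = 0 := by
  unfold evR
  exact Finsupp.sum_zero_index

theorem evR_add (x : Fin n → K) (f g : LaurentR F n) : evR x (f + g) = evR x f + evR x g := by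
  unfold evR
  exact Finsupp.sum_add_index' (by simp) fun m a b => by rw [map_add]; ring

theorem evR_sub (x : Fin n → K) (f g : LaurentR F n) : evR x (f - g) = evR x f - evR x g := by
  have h := evR_add x (f - g) g
  rw [sub_add_cancel] at h
  rw [h, add_sub_cancel_right]

theorem evR_single (x : Fin n → K) (m : Fin n → ℤ) (c : F) :
    evR x (AddMonoidAlgebra.single m c : LaurentR F n) = algebraMap F K c * mon x m := by
  unfold evR
  exact Finsupp.sum_single_index (by simp)

theorem evR_sum (x : Fin n → K) {α : Type*} (s : Finset α) (f : α → LaurentR F n) :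
    evR x (∑ a ∈ s, f a) = ∑ a ∈ s, evR x (f a) := by
  classical
  induction s using Finset.induction_on with
  | empty => simp [evR_zero]
  | insert a s ha ih => rw [Finset.sum_insert ha, Finset.sum_insert ha, evR_add, ih]

end Ev

variable {F K : Type} [Field F] [Field K] [Algebra F K] {k q r : ℕ} {N : Fin k → ℕ}

theorem mon_affExp (x : Coord N → K) (hx : ∀ s, x s ≠ 0) (z : Fin q → K) (a : Coord N →₀ ℕ)
    (d : Fin k → ℕ) (ha : ∀ l, ∑ i, a ⟨l, i⟩ = d l) :
    mon (xx x z) (fun i => affExp q a ((en N q).symm i)) =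
      (∏ s, x s ^ a s) / ∏ l, x ⟨l, 0⟩ ^ d l := by
  classical
  unfold mon xx
  rw [Equiv.prod_comp (en N q).symm (fun j : Aff N q =>
    Sum.elim (fun s : (l : Fin k) × Fin (N l) => x ⟨s.1, s.2.succ⟩ / x ⟨s.1, 0⟩) z j ^
      affExp q a j)]
  unfold affExp
  rw [Fintype.prod_sum_type]
  simp only [Sum.elim_inl, Sum.elim_inr, Pi.zero_apply, zpow_zero, Finset.prod_const_one, mul_one,
    zpow_natCast]
  rw [Fintype.prod_sigma, Fintype.prod_sigma, ← Finset.prod_div_distrib]
  refine Finset.prod_congr rfl fun l _ => ?_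
  rw [Fin.prod_univ_succ, ← ha l, Fin.sum_univ_succ, pow_add]
  have h0 : x ⟨l, 0⟩ ^ a ⟨l, 0⟩ ≠ 0 := pow_ne_zero _ (hx _)
  rw [mul_div_mul_left _ _ h0, ← Finset.prod_pow_eq_pow_sum, ← Finset.prod_div_distrib]
  exact Finset.prod_congr rfl fun i _ => by rw [div_pow]

theorem evR_aff (x : Coord N → K) (hx : ∀ s, x s ≠ 0) (z : Fin q → K)
    (f : MvPolynomial (Coord N) F) (d : Fin k → ℕ) (hf : IsMulti f d) :
    evR (xx x z) (affR q f) = aeval x f / ∏ l, x ⟨l, 0⟩ ^ d l := by
  unfold affR
  rw [evR_sum, aeval_def, eval₂_eq', Finset.sum_div]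
  refine Finset.sum_congr rfl fun a ha => ?_
  rw [evR_single, mon_affExp x hx z a d (hf a ha)]
  rw [mul_div_assoc]

theorem mon_z (x : Coord N → K) (z : Fin q → K) (j : Fin q) :
    mon (xx x z) (Pi.single (en N q (Sum.inr j)) 1) = z j := by
  classical
  unfold mon xx
  rw [Finset.prod_eq_single (en N q (Sum.inr j))]
  · rw [Pi.single_eq_same, zpow_one, Equiv.symm_apply_apply, Sum.elim_inr]
  · intro b _ hb
    rw [Pi.single_eq_of_ne hb, zpow_zero]
  · intro hne
    exact absurd (Finset.mem_univ _) hne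

end AFB_aux

open AFB_aux in
/-- AFB -/
theorem t_AFB : S_AFB := by
  intro F K _ _ _ k q r N g h e d hg hh x hx hz i
  unfold sysR
  refine Fin.addCases (fun i => ?_) (fun j => ?_) i
  · rw [Fin.append_left, evR_aff x hx _ (g i) (e i) (hg i), hz i, zero_div]
  · rw [Fin.append_right, evR_sub, evR_aff x hx _ (h j) (d j) (hh j), evR_single, mon_z,
      map_one, one_mul, sub_self]

end

end FNC
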