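import Pool.Agent.FNC.StB

/-!
# The coefficients of the dehomogenized polynomials (MP_fa3f7f_ag, FNC): module AFC

Proof of `S_AFC`.
-/

set_option autoImplicit false

namespace FNC

open MvPolynomial NCC MldX MMCI MMCX RMX

noncomputable section

namespace AFC_aux

variable {k q : ℕ} {N : Fin k → ℕ} {R : Type} [CommRing R]

theorem aexp_en (a : Coord N →₀ ℕ) (s : Aff N q) : aexp q a (en N q s) = affExp q a s := by
  unfold aexp
  rw [Equiv.symm_apply_apply]

theorem aexp_inj (f : MvPolynomial (Coord N) R) (d : Fin k → ℕ) (hf : IsMulti f d)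
    {a b : Coord N →₀ ℕ} (ha : a ∈ f.support) (hb : b ∈ f.support) (h : aexp q a = aexp q b) :
    a = b := by
  have h1 : ∀ (l : Fin k) (i : Fin (N l)), a ⟨l, i.succ⟩ = b ⟨l, i.succ⟩ := by
    intro l i
    have := congrFun h (en N q (Sum.inl ⟨l, i⟩))
    rw [aexp_en, aexp_en] at this
    simpa [affExp] using this
  have h2 : ∀ l : Fin k, a ⟨l, 0⟩ = b ⟨l, 0⟩ := by
    intro l
    have e1 := hf a ha l
    have e2 := hf b hb l
    rw [Fin.sum_univ_succ] at e1 e2
    have e3 : ∑ i : Fin (N l), a ⟨l, i.succ⟩ = ∑ i : Fin (N l), b ⟨l, i.succ⟩ :=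
      Finset.sum_congr rfl fun i _ => h1 l i
    omega
  ext ⟨l, i⟩
  exact Fin.cases (motive := fun i => a ⟨l, i⟩ = b ⟨l, i⟩) (h2 l) (fun i => h1 l i) i

theorem affR_coeff (f : MvPolynomial (Coord N) R) : (affR q f).coeff =
    ∑ a ∈ f.support, Finsupp.single (aexp q a) (f.coeff a) := by
  rw [affR, AddMonoidAlgebra.coeff_sum]
  rfl

theorem coeff_apply (f : MvPolynomial (Coord N) R) (d : Fin k → ℕ) (hf : IsMulti f d)
    {a : Coord N →₀ ℕ} (ha : a ∈ f.support) : (affR q f).coeff (aexp q a) = f.coeff a := by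
  classical
  rw [affR_coeff, Finsupp.finsetSum_apply, Finset.sum_eq_single a]
  · rw [Finsupp.single_eq_same]
  · intro b hb hne
    rw [Finsupp.single_apply, if_neg]
    intro h
    exact hne (aexp_inj f d hf hb ha h)
  · intro h
    exact absurd ha h

theorem supp (f : MvPolynomial (Coord N) R) {m : Fin (MM N q) → ℤ}
    (hm : m ∈ (affR q f).coeff.support) : ∃ a ∈ f.support, m = aexp q a := by
  classical
  rw [Finsupp.mem_support_iff, affR_coeff, Finsupp.finsetSum_apply] at hm
  obtain ⟨a, ha, h⟩ := Finset.exists_ne_zero_of_sum_ne_zero hm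
  refine ⟨a, ha, ?_⟩
  by_contra hne
  apply h
  rw [Finsupp.single_apply, if_neg fun h' => hne h'.symm]

theorem mon_tb {F : Type} [Field F] (σ : Fin q → F) (b : Fin (MM N q) → ℤ) :
    mon (tb N σ) b = ∏ j : Fin q, (σ j)⁻¹ ^ b (en N q (Sum.inr j)) := by
  unfold mon
  rw [← (en N q).prod_comp, Fintype.prod_sum_type]
  have h1 : ∏ s : (l : Fin k) × Fin (N l),
      tb N σ (en N q (Sum.inl s)) ^ b (en N q (Sum.inl s)) = 1 := by
    apply Finset.prod_eq_one
    intro s _
    unfold tb
    rw [Equiv.symm_apply_apply, Sum.elim_inl, one_zpow]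
  rw [h1, one_mul]
  apply Finset.prod_congr rfl
  intro j _
  unfold tb
  rw [Equiv.symm_apply_apply, Sum.elim_inr]

end AFC_aux

open AFC_aux in
theorem t_AFC : S_AFC := by
  intro R _ k q N f
  refine ⟨fun d hf a ha => coeff_apply f d hf ha, fun b hb => supp f hb, fun a j => ?_, ?_⟩
  · rw [aexp_en]
    simp [affExp]
  · intro F _ σ
    refine ⟨fun a => ?_, fun j => ?_, fun κ => ?_⟩
    · rw [mon_tb]
      apply Finset.prod_eq_one
      intro j _
      rw [aexp_en]
      simp [affExp]
    · rw [mon_tb, Finset.prod_eq_single j]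
      · rw [Pi.single_eq_same, zpow_one]
      · intro i _ hi
        rw [Pi.single_eq_of_ne, zpow_zero]
        intro h
        exact hi (Sum.inr.inj ((en N q).injective h))
      · intro h
        exact absurd (Finset.mem_univ j) h
    · rw [mon_tb, ← Finset.prod_inv_distrib]
      apply Finset.prod_congr rfl
      intro j _
      unfold zexp
      rw [Equiv.symm_apply_apply, Sum.elim_inr, inv_zpow]

end

end FNC
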