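import Pool.Agent.FNC.StA
import Pool.Agent.KUM.CFN

/-!
# Families with normal crossings (MP_fa3f7f_ag): the divisors of the coefficients of the system
`g`, `z_a - h_a` (module CNB)
-/

set_option autoImplicit false

namespace FNC

open MvPolynomial NCC MldX MMCI MMCX RMX

noncomputable section

namespace CNB

/-! ### the exponents and the coefficients -/

section Coeff

variable {k q : ℕ} {N : Fin k → ℕ}

/-- the exponent of the dehomogenized monomial -/
def EE (q : ℕ) (c : Coord N →₀ ℕ) : Fin (MM N q) → ℤ := fun z => affExp q c ((en N q).symm z)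

theorem EE_inr (c : Coord N →₀ ℕ) (a : Fin q) : EE q c (en N q (Sum.inr a)) = 0 := by
  unfold EE affExp
  rw [Equiv.symm_apply_apply, Sum.elim_inr, Pi.zero_apply]

theorem EE_inl (c : Coord N →₀ ℕ) (s : (l : Fin k) × Fin (N l)) :
    EE q c (en N q (Sum.inl s)) = c ⟨s.1, s.2.succ⟩ := by
  unfold EE affExp
  rw [Equiv.symm_apply_apply, Sum.elim_inl]

theorem EE_inj {d : Fin k → ℕ} {c c' : Coord N →₀ ℕ} (hc : ∀ l, ∑ i, c ⟨l, i⟩ = d l)
    (hc' : ∀ l, ∑ i, c' ⟨l, i⟩ = d l) (h : EE q c = EE q c') : c = c' := by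
  have h1 : ∀ (l : Fin k) (i : Fin (N l)), c ⟨l, i.succ⟩ = c' ⟨l, i.succ⟩ := by
    intro l i
    have h2 := congrFun h (en N q (Sum.inl ⟨l, i⟩))
    rw [EE_inl, EE_inl] at h2
    exact_mod_cast h2
  ext s
  obtain ⟨l, i⟩ := s
  refine Fin.cases ?_ (fun i => h1 l i) i
  have h2 := (hc l).trans (hc' l).symm
  rw [Fin.sum_univ_succ, Fin.sum_univ_succ, Finset.sum_congr rfl (fun i _ => h1 l i)] at h2
  exact Nat.add_right_cancel h2

variable {R : Type} [CommRing R]

theorem coeff_affR (f : MvPolynomial (Coord N) R) (p : Fin (MM N q) → ℤ) :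
    (affR q f).coeff p = ∑ c ∈ f.support, if EE q c = p then f.coeff c else 0 := by
  unfold affR
  rw [AddMonoidAlgebra.coeff_sum, Finsupp.finsetSum_apply]
  refine Finset.sum_congr rfl fun c _ => ?_
  rw [AddMonoidAlgebra.coeff_single, Finsupp.single_apply]
  rfl

theorem coeff_affR_EE {f : MvPolynomial (Coord N) R} {d : Fin k → ℕ} (hf : IsMulti f d)
    {c : Coord N →₀ ℕ} (hc : c ∈ f.support) : (affR q f).coeff (EE q c) = f.coeff c := by
  rw [coeff_affR, Finset.sum_eq_single_of_mem c hc, if_pos rfl]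
  intro c' hc' hne
  exact if_neg fun h => hne (EE_inj (hf c' hc') (hf c hc) h)

theorem exists_affR {f : MvPolynomial (Coord N) R} {d : Fin k → ℕ} (hf : IsMulti f d)
    {p : Fin (MM N q) → ℤ} (hp : (affR q f).coeff p ≠ 0) :
    ∃ c ∈ f.support, EE q c = p ∧ (affR q f).coeff p = f.coeff c := by
  have h := hp
  rw [coeff_affR] at h
  obtain ⟨c, hc, hne⟩ := Finset.exists_ne_zero_of_sum_ne_zero h
  have h1 : EE q c = p := by
    by_contra h1
    exact hne (if_neg h1)
  refine ⟨c, hc, h1, ?_⟩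
  rw [← h1]
  exact coeff_affR_EE hf hc

end Coeff

/-! ### the trivializations -/

section Triv

variable {F : Type} [Field F] [Algebra ℂ F] {k q : ℕ} {N : Fin k → ℕ} (B : ProjModel F)
  (σ : Fin (B.N + 1) → Fin q → F)

theorem tB_inr (j : Fin (B.N + 1)) (a : Fin q) :
    tB N B σ j (en N q (Sum.inr a)) = (σ j a)⁻¹ := by
  unfold tB
  rw [Equiv.symm_apply_apply, Sum.elim_inr]

theorem tB_inl (j : Fin (B.N + 1)) (s : (l : Fin k) × Fin (N l)) :
    tB N B σ j (en N q (Sum.inl s)) = 1 := by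
  unfold tB
  rw [Equiv.symm_apply_apply, Sum.elim_inl]

theorem tB_ne (hσ : ∀ j a, σ j a ≠ 0) (j : Fin (B.N + 1)) (z : Fin (MM N q)) :
    tB N B σ j z ≠ 0 := by
  obtain ⟨y, rfl⟩ := (en N q).surjective z
  rcases y with s | a
  · rw [tB_inl]
    exact one_ne_zero
  · rw [tB_inr]
    exact inv_ne_zero (hσ j a)

theorem mon_EE (j : Fin (B.N + 1)) (c : Coord N →₀ ℕ) : mon (tB N B σ j) (EE q c) = 1 := by
  unfold mon
  refine Finset.prod_eq_one fun z _ => ?_
  obtain ⟨y, rfl⟩ := (en N q).surjective z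
  rcases y with s | a
  · rw [tB_inl, one_zpow]
  · rw [EE_inr, zpow_zero]

theorem mon_ea (j : Fin (B.N + 1)) (a : Fin q) :
    mon (tB N B σ j) (Pi.single (en N q (Sum.inr a)) 1) = (σ j a)⁻¹ := by
  rw [KUM.CFN.mon_single, zpow_one, tB_inr]

end Triv

/-! ### the equations `g_i` -/

section Main

variable {F : Type} [Field F] [Algebra ℂ F] {b k q r : ℕ} {N : Fin k → ℕ} (B : ProjModel F)
  (g : Fin r → MvPolynomial (Coord N) F) (h : Fin q → MvPolynomial (Coord N) F)
  (σ : Fin (B.N + 1) → Fin q → F)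

theorem ord_of_not_mem {j : Fin (B.N + 1)} {v : DivVal b F} {P m : Ideal (B.ring j)}
    (hP : IsPrimeDivisor (B.ring j) v P) (hle : P ≤ m) {z : B.ring j} (hz : z ∉ m) :
    v.ord (z : F) = 0 := by
  have h1 : z ∉ P := fun h => hz (hle h)
  rw [hP.1.2.2 z] at h1
  push Not at h1
  exact le_antisymm h1.2 (hP.1.2.1 z)

theorem ft (j : Fin (B.N + 1)) : Algebra.FiniteType ℂ (B.ring j) := by
  rw [← Subalgebra.fg_iff_finiteType]
  exact ⟨(Set.finite_range _).toFinset, by rw [Set.Finite.coe_toFinset]; rfl⟩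

theorem semiG (hPTX : S_PTX) (hσ : ∀ j a, σ j a ≠ 0)
    (G : (j : Fin (B.N + 1)) → Fin r → MvPolynomial (Coord N) (B.ring j))
    (hG : ∀ j i, ∃ u : F, u ≠ 0 ∧ ∀ a, (((G j i).coeff a : B.ring j) : F) = u * (g i).coeff a)
    (hGχ : ∀ (j : Fin (B.N + 1)) (i : Fin r) (χ : B.ring j →ₐ[ℂ] ℂ), fib χ (G j i) ≠ 0)
    (i : Fin r) (hg : ∃ d, IsMulti (g i) d) (p : Fin (MM N q) → ℤ)
    (hp : p ∈ (sysR g h (Fin.castAdd q i)).coeff.support) :
    SemiampleT b B (tB N B σ) (sysR g h) 0 (Pi.single (Fin.castAdd q i) 1) p := by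
  classical
  obtain ⟨d, hd⟩ := hg
  have hf : sysR g h (Fin.castAdd q i) = affR q (g i) := by
    unfold sysR
    rw [Fin.append_left]
  rw [hf] at hp
  have hp0 := Finsupp.mem_support_iff.1 hp
  obtain ⟨c1, hc1, hE1, -⟩ := exists_affR hd hp0
  -- the values
  have hval : ∀ (v : DivVal b F) (j : Fin (B.N + 1)) (p' : Fin (MM N q) → ℤ),
      p' ∈ (affR q (g i)).coeff.support → ∃ c ∈ (g i).support,
      v.ord ((affR q (g i)).coeff p' * mon (tB N B σ j) p') = v.ord ((g i).coeff c) := by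
    intro v j p' hp'
    obtain ⟨c, hc, hE, h1⟩ := exists_affR hd (Finsupp.mem_support_iff.1 hp')
    refine ⟨c, hc, ?_⟩
    rw [h1, ← hE, mon_EE, mul_one]
  have hval' : ∀ (v : DivVal b F) (j : Fin (B.N + 1)), ∀ c ∈ (g i).support,
      EE q c ∈ (affR q (g i)).coeff.support ∧
      v.ord ((affR q (g i)).coeff (EE q c) * mon (tB N B σ j) (EE q c)) =
        v.ord ((g i).coeff c) := by
    intro v j c hc
    rw [Finsupp.mem_support_iff, coeff_affR_EE hd hc, mon_EE, mul_one]
    exact ⟨MvPolynomial.mem_support_iff.1 hc, rfl⟩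
  -- the divisor
  have hdiv : ∀ (ω : Forms b F) (v : DivVal b F) (j : Fin (B.N + 1)), ∀ c0 ∈ (g i).support,
      (∀ c ∈ (g i).support, v.ord ((g i).coeff c0) ≤ v.ord ((g i).coeff c)) →
      divOrdT ω (tB N B σ j) (sysR g h) 0 (Pi.single (Fin.castAdd q i) 1) p v =
        - v.ord ((g i).coeff c0) := by
    intro ω v j c0 hc0 hmin
    rw [KUM.CFN.divOrd_eq ω (tB_ne B σ hσ j) _ _ p v (v.ord ((g i).coeff c0))]
    · rw [← hE1, mon_EE, KUM.CFN.ord_one, add_zero]
    · rw [hf]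
      refine ⟨⟨EE q c0, (hval' v j c0 hc0).1, (hval' v j c0 hc0).2⟩, ?_⟩
      rintro _ ⟨p', hp', rfl⟩
      obtain ⟨c, hc, h1⟩ := hval v j p' hp'
      simp only
      rw [h1]
      exact hmin c hc
  let e := (g i).support.equivFin
  intro ω _
  refine ⟨1, (g i).support.card, fun y => (g i).coeff (e.symm y).1, Nat.one_pos,
    fun y => MvPolynomial.mem_support_iff.1 (e.symm y).2, ?_, ?_⟩
  · intro y j v P hP
    obtain ⟨c0, hc0, hmin⟩ := Finset.exists_min_image (g i).support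
      (fun c => v.ord ((g i).coeff c)) ⟨c1, hc1⟩
    rw [hdiv ω v j c0 hc0 hmin]
    have h1 := hmin (e.symm y).1 (e.symm y).2
    push_cast
    linarith
  · intro j m hm
    obtain ⟨χ, rfl⟩ := hPTX (ft B j) m hm
    obtain ⟨u, hu, hGu⟩ := hG j i
    have h1 := hGχ j i χ
    rw [MvPolynomial.ne_zero_iff] at h1
    obtain ⟨c0, h1⟩ := h1
    unfold fib at h1
    rw [MvPolynomial.coeff_map] at h1
    have hm0 : (G j i).coeff c0 ∉ idl χ := fun h2 => h1 (RingHom.mem_ker.1 h2)
    have hne : ((G j i).coeff c0 : B.ring j) ≠ 0 := fun h2 => hm0 (by rw [h2]; exact Ideal.zero_mem _)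
    have hc0 : (g i).coeff c0 ≠ 0 := by
      intro h2
      apply hne
      apply Subtype.ext
      rw [hGu c0, h2, mul_zero]
      rfl
    have hc0' : c0 ∈ (g i).support := MvPolynomial.mem_support_iff.2 hc0
    refine ⟨e ⟨c0, hc0'⟩, fun v P hP hle => ?_⟩
    simp only
    rw [Equiv.symm_apply_apply]
    have h2 : v.ord u + v.ord ((g i).coeff c0) = 0 := by
      rw [← v.ord_mul _ _ hu hc0, ← hGu c0]
      exact ord_of_not_mem B hP hle hm0
    have hmin : ∀ c ∈ (g i).support, v.ord ((g i).coeff c0) ≤ v.ord ((g i).coeff c) := by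
      intro c hc
      have h3 : 0 ≤ v.ord u + v.ord ((g i).coeff c) := by
        rw [← v.ord_mul _ _ hu (MvPolynomial.mem_support_iff.1 hc), ← hGu c]
        exact hP.1.2.1 _
      linarith
    rw [hdiv ω v j c0 hc0' hmin]
    push_cast
    ring

/-! ### the equations `z_a - h_a` -/

theorem divH (hσ : ∀ j a, σ j a ≠ 0)
    (H : (j : Fin (B.N + 1)) → Fin q → MvPolynomial (Coord N) (B.ring j))
    (hH : ∀ j a c, (((H j a).coeff c : B.ring j) : F) = σ j a * (h a).coeff c) (a : Fin q)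
    (hh : ∃ d, IsMulti (h a) d) (p : Fin (MM N q) → ℤ)
    (hp : p ∈ (sysR g h (Fin.natAdd r a)).coeff.support) :
    (∀ (ω : Forms b F) (j : Fin (B.N + 1)) (v : DivVal b F) (P : Ideal (B.ring j)),
      IsPrimeDivisor (B.ring j) v P →
      divOrdT ω (tB N B σ j) (sysR g h) 0 (Pi.single (Fin.natAdd r a) 1) p v = v.ord (1 : F)) ∨
    ∀ (ω : Forms b F) (j : Fin (B.N + 1)) (v : DivVal b F) (P : Ideal (B.ring j)),
      IsPrimeDivisor (B.ring j) v P →
      divOrdT ω (tB N B σ j) (sysR g h) 0 (Pi.single (Fin.natAdd r a) 1) p v =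
        divOrdT ω (σ j) (fun i : Fin 0 => i.elim0) 0 (fun i => i.elim0) (Pi.single a 1) v := by
  classical
  obtain ⟨d, hd⟩ := hh
  have hf : sysR g h (Fin.natAdd r a) =
      AddMonoidAlgebra.single (Pi.single (en N q (Sum.inr a)) 1) 1 - affR q (h a) := by
    unfold sysR
    rw [Fin.append_right]
  have hz : ∀ c : Coord N →₀ ℕ, EE q c ≠ Pi.single (en N q (Sum.inr a)) 1 := by
    intro c hc
    have h1 := congrFun hc (en N q (Sum.inr a))
    rw [EE_inr, Pi.single_eq_same] at h1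
    exact zero_ne_one h1
  have hco : ∀ p' : Fin (MM N q) → ℤ, (sysR g h (Fin.natAdd r a)).coeff p' =
      (if Pi.single (en N q (Sum.inr a)) 1 = p' then 1 else 0) - (affR q (h a)).coeff p' := by
    intro p'
    rw [hf, AddMonoidAlgebra.coeff_sub, Finsupp.sub_apply, AddMonoidAlgebra.coeff_single,
      Finsupp.single_apply]
  have hco1 : (sysR g h (Fin.natAdd r a)).coeff (Pi.single (en N q (Sum.inr a)) 1) = 1 := by
    rw [hco, if_pos rfl]
    have h1 : (affR q (h a)).coeff (Pi.single (en N q (Sum.inr a)) 1) = 0 := by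
      by_contra h1
      obtain ⟨c, -, hE, -⟩ := exists_affR hd h1
      exact hz c hE
    rw [h1, sub_zero]
  have hcase : ∀ p' ∈ (sysR g h (Fin.natAdd r a)).coeff.support,
      p' = Pi.single (en N q (Sum.inr a)) 1 ∨ ∃ c ∈ (h a).support, EE q c = p' ∧
        (sysR g h (Fin.natAdd r a)).coeff p' = - (h a).coeff c := by
    intro p' hp'
    by_cases h1 : Pi.single (en N q (Sum.inr a)) 1 = p'
    · exact Or.inl h1.symm
    · right
      have h2 := Finsupp.mem_support_iff.1 hp'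
      rw [hco, if_neg h1, zero_sub] at h2
      obtain ⟨c, hc, hE, h3⟩ := exists_affR hd (neg_ne_zero.1 h2)
      refine ⟨c, hc, hE, ?_⟩
      rw [hco, if_neg h1, zero_sub, h3]
  have hdiv : ∀ (ω : Forms b F) (j : Fin (B.N + 1)) (v : DivVal b F) (P : Ideal (B.ring j)),
      IsPrimeDivisor (B.ring j) v P →
      divOrdT ω (tB N B σ j) (sysR g h) 0 (Pi.single (Fin.natAdd r a) 1) p v =
        v.ord (σ j a) + v.ord (mon (tB N B σ j) p) := by
    intro ω j v P hP
    rw [KUM.CFN.divOrd_eq ω (tB_ne B σ hσ j) _ _ p v (- v.ord (σ j a)), neg_neg]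
    refine ⟨⟨Pi.single (en N q (Sum.inr a)) 1, ?_, ?_⟩, ?_⟩
    · rw [Finset.mem_coe, Finsupp.mem_support_iff, hco1]
      exact one_ne_zero
    · simp only
      rw [hco1, mon_ea, one_mul, KUM.CFN.ord_inv v (hσ j a)]
    · rintro _ ⟨p', hp', rfl⟩
      simp only
      rcases hcase p' hp' with rfl | ⟨c, hc, hE, h1⟩
      · rw [hco1, mon_ea, one_mul, KUM.CFN.ord_inv v (hσ j a)]
      · rw [h1, ← hE, mon_EE, mul_one, KUM.CFN.ord_neg]
        have h2 : 0 ≤ v.ord (σ j a) + v.ord ((h a).coeff c) := by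
          rw [← v.ord_mul _ _ (hσ j a) (MvPolynomial.mem_support_iff.1 hc), ← hH j a c]
          exact hP.1.2.1 _
        linarith
  rcases hcase p hp with rfl | ⟨c, hc, hE, h1⟩
  · left
    intro ω j v P hP
    rw [hdiv ω j v P hP, mon_ea, KUM.CFN.ord_inv v (hσ j a), KUM.CFN.ord_one]
    ring
  · right
    intro ω j v P hP
    rw [hdiv ω j v P hP, ← hE, mon_EE, KUM.CFN.ord_one]
    unfold divOrdT
    rw [Finset.univ_eq_empty, Finset.sum_empty, KUM.CFN.mon_single, zpow_one]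
    push_cast
    ring

end Main

end CNB

open CNB in
theorem t_CNB (hPTX : S_PTX) (hSNF : S_SNF) (hPRN : KUM.S_PRN) (hCNG : KUM.S_CNG) : S_CNB := by
  intro F _ _ b k q r N B g h σ G H hdim hnorm hg hh hG hGχ hσ hH
  constructor
  · intro hN i p hp
    revert hp
    refine Fin.addCases (fun i => ?_) (fun a => ?_) i
    · intro hp
      exact hSNF B _ _ _ _ hdim hnorm (semiG B g h σ hPTX hσ G hG hGχ i (hg i) p hp)
    · intro hp
      rcases divH (b := b) B g h σ hσ H hH a (hh a) p hp with h1 | h1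
      · exact (hPRN B (tB N B σ) (sysR g h) (Pi.single (Fin.natAdd r a) 1) p 1 hdim hnorm
          one_ne_zero h1).1
      · exact (hCNG B (tB N B σ) (sysR g h) (Pi.single (Fin.natAdd r a) 1) p σ
          (fun i : Fin 0 => i.elim0) (fun i => i.elim0) (Pi.single a 1) h1).1 (hN a)
  · intro hN i p hp
    revert hp
    refine Fin.addCases (fun i => ?_) (fun a => ?_) i
    · intro hp
      exact semiG B g h σ hPTX hσ G hG hGχ i (hg i) p hp
    · intro hp
      rcases divH (b := b) B g h σ hσ H hH a (hh a) p hp with h1 | h1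
      · exact (hPRN B (tB N B σ) (sysR g h) (Pi.single (Fin.natAdd r a) 1) p 1 hdim hnorm
          one_ne_zero h1).2
      · exact (hCNG B (tB N B σ) (sysR g h) (Pi.single (Fin.natAdd r a) 1) p σ
          (fun i : Fin 0 => i.elim0) (fun i => i.elim0) (Pi.single a 1) h1).2 (hN a)

end

end FNC
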