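import Pool.Agent.FNC.StC

/-!
# Coordinates for a crossing family (MP_fa3f7f_ag, FNC): module COO

Proof of `S_COO` from `S_CRB`, `S_SBR`, `S_PTX`.
-/

set_option autoImplicit false

namespace FNC

open MvPolynomial NCC MldX MMCI MMCX RMX

noncomputable section

namespace COO

/-- The family of rings `ℂ`, `R 0`, `R 1`, ... -/
def RR {J : ℕ} (R : Fin J → Type) : Fin (J + 1) → Type := Fin.cases ℂ R

instance instC {J : ℕ} (R : Fin J → Type) [∀ j, CommRing (R j)] (j : Fin (J + 1)) :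
    CommRing (RR R j) :=
  Fin.cases (motive := fun j => CommRing (RR R j)) (inferInstanceAs (CommRing ℂ))
    (fun j => inferInstanceAs (CommRing (R j))) j

instance instA {J : ℕ} (R : Fin J → Type) [∀ j, CommRing (R j)] [∀ j, Algebra ℂ (R j)]
    (j : Fin (J + 1)) : Algebra ℂ (RR R j) :=
  Fin.cases (motive := fun j => Algebra ℂ (RR R j)) (inferInstanceAs (Algebra ℂ ℂ))
    (fun j => inferInstanceAs (Algebra ℂ (R j))) j

/-- `S_CRB` for a family of rings together with the ring `ℂ`. -/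
theorem CRB_plus (hCRB : S_CRB) {k q r J : ℕ} {N : Fin k → ℕ} (R : Fin J → Type)
    [∀ j, CommRing (R j)] [∀ j, Algebra ℂ (R j)] (hfin : ∀ j, Algebra.FiniteType ℂ (R j))
    (G : (j : Fin J) → Fin r → MvPolynomial (Coord N) (R j))
    (H : (j : Fin J) → Fin q → MvPolynomial (Coord N) (R j))
    (G0 : Fin r → Poly N) (H0 : Fin q → Poly N) (e : Fin r → Fin k → ℕ)
    (d : Fin q → Fin k → ℕ) (hG : ∀ j i, IsMulti (G j i) (e i)) (hH : ∀ j a, IsMulti (H j a) (d a))
    (hG0 : ∀ i, IsMulti (G0 i) (e i)) (hH0 : ∀ a, IsMulti (H0 a) (d a))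
    (hGn : ∀ j i, G j i ≠ 0) (hHn : ∀ j a, H j a ≠ 0) (hG0n : ∀ i, G0 i ≠ 0) (hH0n : ∀ a, H0 a ≠ 0)
    (hT : ∀ (j : Fin J) (χ : R j →ₐ[ℂ] ℂ) (p : Coord N → ℂ), IsPoint p →
      (∀ i, eval p (fib χ (G j i)) = 0) → Transversal χ p (G j) (H j))
    (hT0 : ∀ (χ : ℂ →ₐ[ℂ] ℂ) (p : Coord N → ℂ), IsPoint p →
      (∀ i, eval p (fib χ (G0 i)) = 0) → Transversal χ p G0 H0)
    {K : Type} [Field K] [Algebra ℂ K] (x : Coord N → K) (hx : IsPoint x) :
    ∃ A Λ : Matrix (Coord N) (Coord N) ℂ, IsBlock A ∧ IsBlock Λ ∧ A * Λ = 1 ∧ Λ * A = 1 ∧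
      (∀ (j : Fin J) (χ : R j →ₐ[ℂ] ℂ) (p : Coord N → ℂ), IsPoint p →
        (∀ i, eval p (fib χ (subR A (G j i))) = 0) →
        TransX χ p (fun i => subR A (G j i)) fun a => subR A (H j a)) ∧
      (∀ (χ : ℂ →ₐ[ℂ] ℂ) (p : Coord N → ℂ), IsPoint p →
        (∀ i, eval p (fib χ (subR A (G0 i))) = 0) →
        TransX χ p (fun i => subR A (G0 i)) fun a => subR A (H0 a)) ∧
      (∀ j i (v : (l : Fin k) → Fin (N l + 1)), val (vert v) (subR A (G j i)) ≠ 0) ∧
      (∀ j a (v : (l : Fin k) → Fin (N l + 1)), val (vert v) (subR A (H j a)) ≠ 0) ∧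
      ∀ s, act Λ x s ≠ 0 := by
  let GG : (j : Fin (J + 1)) → Fin r → MvPolynomial (Coord N) (RR R j) :=
    Fin.cases (motive := fun j => Fin r → MvPolynomial (Coord N) (RR R j)) G0 G
  let HH : (j : Fin (J + 1)) → Fin q → MvPolynomial (Coord N) (RR R j) :=
    Fin.cases (motive := fun j => Fin q → MvPolynomial (Coord N) (RR R j)) H0 H
  obtain ⟨A, Λ, hA, hΛ, h1, h2, h3, h4, h5, h6⟩ := hCRB (J := J + 1) (RR R)
    (Fin.cases (motive := fun j => Algebra.FiniteType ℂ (RR R j))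
      (inferInstanceAs (Algebra.FiniteType ℂ ℂ)) hfin) GG HH e d
    (fun j => by refine Fin.cases ?_ (fun j => ?_) j; exacts [hG0, hG j])
    (fun j => by refine Fin.cases ?_ (fun j => ?_) j; exacts [hH0, hH j])
    (fun j => by refine Fin.cases ?_ (fun j => ?_) j; exacts [hG0n, hGn j])
    (fun j => by refine Fin.cases ?_ (fun j => ?_) j; exacts [hH0n, hHn j])
    (fun j => by refine Fin.cases ?_ (fun j => ?_) j; exacts [hT0, hT j]) x hx
  exact ⟨A, Λ, hA, hΛ, h1, h2, fun j => h3 j.succ, h3 0, fun j => h4 j.succ, fun j => h5 j.succ, h6⟩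

section

variable {k q r : ℕ} {N : Fin k → ℕ}

theorem fib_id (χ : ℂ →ₐ[ℂ] ℂ) (f : Poly N) : fib χ f = f := by
  have h : (χ : ℂ →+* ℂ) = RingHom.id ℂ := by
    ext z
    exact χ.commutes z
  unfold fib
  rw [h, MvPolynomial.map_id]

theorem subR_eq_sub (hSBR : S_SBR) (A : Matrix (Coord N) (Coord N) ℂ) (f : Poly N) :
    subR A f = sub A f := by
  have := (hSBR A f).2.2.1 (AlgHom.id ℂ ℂ)
  rw [fib_id, fib_id] at this
  exact this

theorem fib_subR (hSBR : S_SBR) {R : Type} [CommRing R] [Algebra ℂ R]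
    (A : Matrix (Coord N) (Coord N) ℂ) (χ : R →ₐ[ℂ] ℂ) (f : MvPolynomial (Coord N) R)
    (f0 : Poly N) (c : ℂ) (h : fib χ f = C c * f0) :
    fib χ (subR A f) = C c * subR A f0 := by
  rw [(hSBR A f).2.2.1 χ, h, ← subR_eq_sub hSBR]
  exact (hSBR A f0).2.2.2.2.2.2.2.1 c

theorem grd_C_mul (c : ℂ) (f : Poly N) (p : Coord N → ℂ) (s : Coord N) :
    grd (C c * f) p s = c * grd f p s := by
  unfold grd
  rw [pderiv_C_mul, map_mul, eval_C]

theorem eval_subR (hSBR : S_SBR) (A : Matrix (Coord N) (Coord N) ℂ) (f : Poly N)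
    (p : Coord N → ℂ) : eval p (subR A f) = eval (act A p) f :=
  (hSBR A f).2.1 p

theorem act_eq (A : Matrix (Coord N) (Coord N) ℂ) (p : Coord N → ℂ) : act A p = A.mulVec p := by
  funext s
  rfl

theorem isPoint_act (A Λ : Matrix (Coord N) (Coord N) ℂ) (hΛ : IsBlock Λ) (hΛA : Λ * A = 1)
    (p : Coord N → ℂ) (hp : IsPoint p) : IsPoint (act A p) := by
  classical
  intro l
  by_contra hcon
  push Not at hcon
  obtain ⟨i, hi⟩ := hp l
  apply hi
  have hinv : Λ.mulVec (act A p) = p := by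
    rw [act_eq, Matrix.mulVec_mulVec, hΛA, Matrix.one_mulVec]
  rw [← congrFun hinv ⟨l, i⟩]
  change ∑ t, Λ ⟨l, i⟩ t * act A p t = 0
  refine Finset.sum_eq_zero fun t _ => ?_
  by_cases ht : l = t.1
  · obtain ⟨l', i'⟩ := t
    subst ht
    rw [hcon i', mul_zero]
  · rw [hΛ ⟨l, i⟩ t ht, zero_mul]

theorem nc_indep (G0 : Fin r → Poly N) (H0 : Fin q → Poly N) (hNC : NormalCrossings G0 H0)
    (p : Coord N → ℂ) (hp : IsPoint p) (h0 : ∀ i, eval p (G0 i) = 0) (t : Fin r → ℂ)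
    (t' : Fin q → ℂ) (ht' : ∀ a, eval p (H0 a) ≠ 0 → t' a = 0)
    (hs : ∀ s, ∑ i, t i * grd (G0 i) p s + ∑ a, t' a * grd (H0 a) p s = 0) :
    (∀ i, t i = 0) ∧ ∀ a, t' a = 0 := by
  classical
  have hli := Fintype.linearIndependent_iff.1 (hNC p hp h0)
    (Sum.elim t fun a => t' a.1) (by
      rw [Fintype.sum_sum_type]
      funext s
      simp only [Sum.elim_inl, Sum.elim_inr, Pi.add_apply, Finset.sum_apply, Pi.smul_apply,
        smul_eq_mul, Pi.zero_apply]
      refine Eq.trans ?_ (hs s)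
      congr 1
      rw [← Fintype.sum_subtype_add_sum_subtype (fun a => eval p (H0 a) = 0)
        (fun a => t' a * grd (H0 a) p s)]
      have hz : ∑ a : {a // ¬ eval p (H0 a) = 0}, t' a.1 * grd (H0 a.1) p s = 0 :=
        Finset.sum_eq_zero fun a _ => by rw [ht' a.1 a.2, zero_mul]
      rw [hz, add_zero])
  refine ⟨fun i => hli (Sum.inl i), fun a => ?_⟩
  by_cases ha : eval p (H0 a) = 0
  · exact hli (Sum.inr ⟨a, ha⟩)
  · exact ht' a ha

variable {R : Type} [CommRing R] [Algebra ℂ R]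

/-- The points of the second kind: `Transversal`. -/
theorem transversal_of (G0 : Fin r → Poly N) (H0 : Fin q → Poly N) (hNC : NormalCrossings G0 H0)
    (χ : R →ₐ[ℂ] ℂ) (G : Fin r → MvPolynomial (Coord N) R) (H : Fin q → MvPolynomial (Coord N) R)
    (c : Fin r → ℂ) (c' : Fin q → ℂ) (hc : ∀ i, c i ≠ 0) (hc' : ∀ a, c' a ≠ 0)
    (hG : ∀ i, fib χ (G i) = C (c i) * G0 i) (hH : ∀ a, fib χ (H a) = C (c' a) * H0 a)
    (p : Coord N → ℂ) (hp : IsPoint p) (h0 : ∀ i, eval p (fib χ (G i)) = 0) :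
    Transversal χ p G H := by
  intro t t' ht' _ hs
  have h1 : ∀ i, eval p (G0 i) = 0 := fun i => by
    have := h0 i
    rw [hG, map_mul, eval_C, mul_eq_zero] at this
    exact this.resolve_left (hc i)
  obtain ⟨e1, e2⟩ := nc_indep G0 H0 hNC p hp h1 (fun i => t i * c i) (fun a => t' a * c' a)
    (fun a ha => by
      rw [ht' a, zero_mul]
      rw [hH, map_mul, eval_C]
      exact mul_ne_zero (hc' a) ha)
    (fun s => by
      rw [← hs s]
      congr 1
      · exact Finset.sum_congr rfl fun i _ => by rw [hG, grd_C_mul, mul_assoc]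
      · exact Finset.sum_congr rfl fun a _ => by rw [hH, grd_C_mul, mul_assoc])
  exact ⟨funext fun i => (mul_eq_zero.1 (e1 i)).resolve_right (hc i),
    funext fun a => (mul_eq_zero.1 (e2 a)).resolve_right (hc' a)⟩

/-- The points of the second kind: `TransF`. -/
theorem transF_of (hSBR : S_SBR) (A : Matrix (Coord N) (Coord N) ℂ) (G0 : Fin r → Poly N)
    (H0 : Fin q → Poly N) (χ : R →ₐ[ℂ] ℂ) (G : Fin r → MvPolynomial (Coord N) R)
    (H : Fin q → MvPolynomial (Coord N) R)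
    (c : Fin r → ℂ) (c' : Fin q → ℂ) (hc : ∀ i, c i ≠ 0) (hc' : ∀ a, c' a ≠ 0)
    (hG : ∀ i, fib χ (G i) = C (c i) * G0 i) (hH : ∀ a, fib χ (H a) = C (c' a) * H0 a)
    (p : Coord N → ℂ)
    (hTX : (∀ i, eval p (fib (AlgHom.id ℂ ℂ) (subR A (G0 i))) = 0) →
      TransX (AlgHom.id ℂ ℂ) p (fun i => subR A (G0 i)) fun a => subR A (H0 a))
    (h0 : ∀ i, eval p (fib χ (subR A (G i))) = 0) :
    TransF χ p (fun i => subR A (G i)) fun a => subR A (H a) := by
  intro t t' ht' hs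
  have kG : ∀ i, fib χ (subR A (G i)) = C (c i) * subR A (G0 i) := fun i =>
    fib_subR hSBR A χ (G i) (G0 i) (c i) (hG i)
  have kH : ∀ a, fib χ (subR A (H a)) = C (c' a) * subR A (H0 a) := fun a =>
    fib_subR hSBR A χ (H a) (H0 a) (c' a) (hH a)
  have h1 : ∀ i, eval p (subR A (G0 i)) = 0 := fun i => by
    have := h0 i
    rw [kG, map_mul, eval_C, mul_eq_zero] at this
    exact this.resolve_left (hc i)
  have h2 : ∀ a, eval p (subR A (H0 a)) ≠ 0 → t' a = 0 := fun a ha => by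
    apply ht' a
    change eval p (fib χ (subR A (H a))) ≠ 0
    rw [kH, map_mul, eval_C]
    exact mul_ne_zero (hc' a) ha
  obtain ⟨e1, e2⟩ := hTX (fun i => by rw [fib_id]; exact h1 i) (fun i => t i * c i)
    (fun a => t' a * c' a)
    (fun a ha => by
      have ha' : eval p (subR A (H0 a)) ≠ 0 := by
        rw [fib_id] at ha
        exact ha
      change t' a * c' a = 0
      rw [h2 a ha', zero_mul])
    (by
      have z1 : ∑ i, (t i * c i) • val p (subR A (G0 i)) = 0 :=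
        Finset.sum_eq_zero fun i _ => by
          have : val p (subR A (G0 i)) = 0 := h1 i
          rw [this, smul_zero]
      have z2 : ∑ a, (t' a * c' a) • val p (subR A (H0 a)) = 0 :=
        Finset.sum_eq_zero fun a _ => by
          by_cases ha : eval p (subR A (H0 a)) = 0
          · have : val p (subR A (H0 a)) = 0 := ha
            rw [this, smul_zero]
          · rw [h2 a ha, zero_mul, zero_smul]
      have z3 : (∑ i, (t i * c i) • val p (subR A (G0 i)) +
          ∑ a, (t' a * c' a) • val p (subR A (H0 a))) ∈ idl (AlgHom.id ℂ ℂ) ^ 2 := by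
        rw [z1, z2, add_zero]
        exact Ideal.zero_mem _
      exact z3)
    (fun s hps => by
      rw [← hs s hps]
      congr 1
      · exact Finset.sum_congr rfl fun i _ => by
          change t i * c i * grd (fib (AlgHom.id ℂ ℂ) (subR A (G0 i))) p s =
            t i * grd (fib χ (subR A (G i))) p s
          rw [fib_id, kG, grd_C_mul, mul_assoc]
      · exact Finset.sum_congr rfl fun a _ => by
          change t' a * c' a * grd (fib (AlgHom.id ℂ ℂ) (subR A (H0 a))) p s =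
            t' a * grd (fib χ (subR A (H a))) p s
          rw [fib_id, kH, grd_C_mul, mul_assoc])
  exact ⟨funext fun i => (mul_eq_zero.1 (congrFun e1 i)).resolve_right (hc i),
    funext fun a => (mul_eq_zero.1 (congrFun e2 a)).resolve_right (hc' a)⟩

theorem isMulti_of_fib (f : MvPolynomial (Coord N) R) (d : Fin k → ℕ) (hf : IsMulti f d)
    (χ : R →ₐ[ℂ] ℂ) (c : ℂ) (hc : c ≠ 0) (f0 : Poly N) (h : fib χ f = C c * f0) :
    IsMulti f0 d := by
  intro a ha
  apply hf a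
  rw [mem_support_iff] at ha ⊢
  intro h1
  have h2 : (fib χ f).coeff a = 0 := by
    unfold fib
    rw [coeff_map, h1, map_zero]
  rw [h, coeff_C_mul, mul_eq_zero] at h2
  exact ha (h2.resolve_left hc)

theorem isMulti_of_coeff {F : Type} [Field F] [Algebra ℂ F] (S : Subalgebra ℂ F)
    (f : MvPolynomial (Coord N) S) (g : MvPolynomial (Coord N) F) (d : Fin k → ℕ)
    (hg : IsMulti g d) (u : F) (h : ∀ a, ((f.coeff a : S) : F) = u * g.coeff a) :
    IsMulti f d := by
  intro a ha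
  apply hg a
  rw [mem_support_iff] at ha ⊢
  intro h1
  apply ha
  apply Subtype.ext
  rw [h, h1, mul_zero]
  rfl

end

end COO

open COO in
theorem t_COO (hCRB : S_CRB) (hSBR : S_SBR) (hPTX : S_PTX) : S_COO := by
  classical
  intro F K _ _ _ _ _ _ b k q r N B g h σ G H G0 H0 e d hg hh hhn hX x hx
  have hft : ∀ j, Algebra.FiniteType ℂ (B.ring j) := fun j => by
    rw [← Subalgebra.fg_iff_finiteType]
    refine ⟨(Set.finite_range fun k => B.s k / B.s j).toFinset, ?_⟩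
    rw [Set.Finite.coe_toFinset]
    rfl
  have hGm : ∀ j i, IsMulti (G j i) (e i) := fun j i => by
    obtain ⟨u, -, hu⟩ := hX.chart j i
    exact isMulti_of_coeff (B.ring j) (G j i) (g i) (e i) (hg i) u hu
  have hHm : ∀ j a, IsMulti (H j a) (d a) := fun j a =>
    isMulti_of_coeff (B.ring j) (H j a) (h a) (d a) (hh a) (σ j a) (hX.divisor j a)
  have hpt : ∀ j, Nonempty (B.ring j →ₐ[ℂ] ℂ) := fun j => by
    obtain ⟨m, hm⟩ := Ideal.exists_maximal (B.ring j)
    obtain ⟨χ, -⟩ := hPTX (hft j) m hm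
    exact ⟨χ⟩
  have hGn : ∀ j i, G j i ≠ 0 := fun j i h0 => by
    obtain ⟨χ⟩ := hpt j
    apply hX.coprime j i χ
    rw [h0]
    exact map_zero _
  have hHn : ∀ j a, H j a ≠ 0 := fun j a h0 => by
    apply hhn a
    ext c
    have h1 := hX.divisor j a c
    rw [h0, coeff_zero] at h1
    have h2 : σ j a ≠ 0 := (hX.bundle j j a).1
    rw [coeff_zero]
    exact (mul_eq_zero.1 (h1.symm.trans rfl)).resolve_left h2
  have hT : ∀ (j : Fin (B.N + 1)) (χ : B.ring j →ₐ[ℂ] ℂ) (p : Coord N → ℂ), IsPoint p →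
      (∀ i, eval p (fib χ (G j i)) = 0) → Transversal χ p (G j) (H j) := by
    intro j χ p hp h0
    rcases hX.crossing j χ with ⟨-, h1⟩ | ⟨hNC, hGc, hHc⟩
    · exact h1 p hp h0
    · choose c hc hG using hGc
      choose c' hc' hH using hHc
      exact transversal_of G0 H0 hNC χ (G j) (H j) c c' hc hc' hG hH p hp h0
  by_cases hcase : (∃ (j : Fin (B.N + 1)) (χ : B.ring j →ₐ[ℂ] ℂ), NormalCrossings G0 H0 ∧
      (∀ i, ∃ c : ℂ, c ≠ 0 ∧ fib χ (G j i) = C c * G0 i) ∧
      ∀ a, ∃ c : ℂ, c ≠ 0 ∧ fib χ (H j a) = C c * H0 a) ∧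
      ∃ p : Coord N → ℂ, IsPoint p ∧ ∀ i, eval p (G0 i) = 0
  · obtain ⟨⟨j1, χ1, hNC, hGc, hHc⟩, p1, hp1, h01⟩ := hcase
    have hG0m : ∀ i, IsMulti (G0 i) (e i) := fun i => by
      obtain ⟨c, hc, h1⟩ := hGc i
      exact isMulti_of_fib (G j1 i) (e i) (hGm j1 i) χ1 c hc (G0 i) h1
    have hH0m : ∀ a, IsMulti (H0 a) (d a) := fun a => by
      obtain ⟨c, hc, h1⟩ := hHc a
      exact isMulti_of_fib (H j1 a) (d a) (hHm j1 a) χ1 c hc (H0 a) h1
    have hG0n : ∀ i, G0 i ≠ 0 := fun i h0 => by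
      obtain ⟨c, hc, h1⟩ := hGc i
      apply hX.coprime j1 i χ1
      rw [h1, h0, mul_zero]
    have hH0n : ∀ a, H0 a ≠ 0 := fun a h0 => by
      have h1 := nc_indep G0 H0 hNC p1 hp1 h01 0 (Pi.single a 1)
        (fun a' ha' => by
          by_cases haa : a' = a
          · rw [haa, h0, map_zero] at ha'
            exact absurd rfl ha'
          · rw [Pi.single_eq_of_ne haa])
        (fun s => by
          rw [Finset.sum_eq_zero fun i _ => by rw [Pi.zero_apply, zero_mul], zero_add]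
          refine Finset.sum_eq_zero fun a' _ => ?_
          by_cases haa : a' = a
          · rw [haa, h0]
            unfold grd
            rw [map_zero, map_zero, mul_zero]
          · rw [Pi.single_eq_of_ne haa, zero_mul])
      have h2 := h1.2 a
      rw [Pi.single_eq_same] at h2
      exact one_ne_zero h2
    have hT0 : ∀ (χ : ℂ →ₐ[ℂ] ℂ) (p : Coord N → ℂ), IsPoint p →
        (∀ i, eval p (fib χ (G0 i)) = 0) → Transversal χ p G0 H0 := by
      intro χ p hp h0
      exact transversal_of G0 H0 hNC χ G0 H0 (fun _ => 1) (fun _ => 1) (fun _ => one_ne_zero)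
        (fun _ => one_ne_zero) (fun i => by rw [fib_id, C_1, one_mul])
        (fun a => by rw [fib_id, C_1, one_mul]) p hp h0
    obtain ⟨A, Λ, hA, hΛ, h1, h2, h3, h4, h5, h6, h7⟩ := CRB_plus hCRB (fun j => B.ring j) hft G H
      G0 H0 e d hGm hHm hG0m hH0m hGn hHn hG0n hH0n hT hT0 x hx
    refine ⟨A, Λ, hA, hΛ, h1, h2, fun j χ => ?_, h5, h6, h7⟩
    rcases hX.crossing j χ with ⟨hs, -⟩ | ⟨-, hGc, hHc⟩
    · exact Or.inl ⟨hs, fun p hp h0 => h3 j χ p hp h0⟩
    · refine Or.inr fun p hp h0 => ?_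
      choose c hc hG using hGc
      choose c' hc' hH using hHc
      exact transF_of hSBR A G0 H0 χ (G j) (H j) c c' hc hc' hG hH p
        (fun h0' => h4 (AlgHom.id ℂ ℂ) p hp h0') h0
  · obtain ⟨A, Λ, hA, hΛ, h1, h2, h3, h5, h6, h7⟩ := hCRB (fun j => B.ring j) hft G H e d hGm hHm
      hGn hHn hT x hx
    refine ⟨A, Λ, hA, hΛ, h1, h2, fun j χ => ?_, h5, h6, h7⟩
    rcases hX.crossing j χ with ⟨hs, -⟩ | ⟨hNC, hGc, hHc⟩
    · exact Or.inl ⟨hs, fun p hp h0 => h3 j χ p hp h0⟩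
    · refine Or.inr fun p hp h0 => ?_
      exfalso
      apply hcase
      refine ⟨⟨j, χ, hNC, hGc, hHc⟩, act A p, isPoint_act A Λ hΛ h2 p hp, fun i => ?_⟩
      obtain ⟨c, hc, h8⟩ := hGc i
      have h9 := h0 i
      rw [fib_subR hSBR A χ (G j i) (G0 i) c h8, map_mul, eval_C, mul_eq_zero] at h9
      rw [← eval_subR hSBR]
      exact h9.resolve_left hc

end

end FNC
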