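import Pool.Agent.FNC.StA

/-!
# Families with normal crossings (MP_fa3f7f_ag): module CRB, general coordinates
-/

set_option autoImplicit false

namespace FNC

open MvPolynomial NCC MldX MMCI MMCX RMX

namespace CRB

/-- The block matrix with the given entries. -/
noncomputable def mk {k : ℕ} {N : Fin k → ℕ} (a : {z : Coord N × Coord N // z.1.1 = z.2.1} → ℂ) :
    Matrix (Coord N) (Coord N) ℂ :=
  fun s t => if h : s.1 = t.1 then a ⟨(s, t), h⟩ else 0

theorem mk_block {k : ℕ} {N : Fin k → ℕ} (a : {z : Coord N × Coord N // z.1.1 = z.2.1} → ℂ) :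
    IsBlock (mk a) := by
  intro s t h
  simp [mk, h]

theorem ent_mk {k : ℕ} {N : Fin k → ℕ} (a : {z : Coord N × Coord N // z.1.1 = z.2.1} → ℂ) :
    ent (mk a) = a := by
  funext z
  obtain ⟨⟨s, t⟩, h⟩ := z
  simp only at h
  simp [mk, ent, h]

/-- A linear relation with coefficients in `F` between the entries of a row of a block. -/
theorem row_ne {k : ℕ} {N : Fin k → ℕ} (F : Subfield ℂ) (Λ : Matrix (Coord N) (Coord N) ℂ)
    (hΛ : AlgebraicIndependent F (ent Λ)) (s : Coord N) (μ : Fin (N s.1 + 1) → ℂ)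
    (hμ : ∀ i, μ i ∈ F) (h : ∑ i, μ i * Λ s ⟨s.1, i⟩ = 0) : ∀ i, μ i = 0 := by
  have hl := hΛ.linearIndependent
  have hinj : Function.Injective (fun i : Fin (N s.1 + 1) =>
      (⟨(s, ⟨s.1, i⟩), rfl⟩ : {z : Coord N × Coord N // z.1.1 = z.2.1})) := by
    intro i j hij
    simp only [Subtype.mk.injEq, Prod.mk.injEq, true_and] at hij
    exact eq_of_heq (Sigma.mk.inj hij).2
  have hl2 := hl.comp _ hinj
  rw [Fintype.linearIndependent_iff] at hl2
  intro i
  have := hl2 (fun i => (⟨μ i, hμ i⟩ : F)) (by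
    rw [← h]
    refine Finset.sum_congr rfl fun i _ => ?_
    rfl) i
  exact congrArg Subtype.val this

theorem act_eq {k : ℕ} {N : Fin k → ℕ} (A : Matrix (Coord N) (Coord N) ℂ) (p : Coord N → ℂ) :
    act A p = A.mulVec p := rfl

/-- The image of a point is a point. -/
theorem point_act {k : ℕ} {N : Fin k → ℕ} {A Λ : Matrix (Coord N) (Coord N) ℂ} (hΛ : IsBlock Λ)
    (h : Λ * A = 1) {p : Coord N → ℂ} (hp : IsPoint p) : IsPoint (act A p) := by
  intro l
  by_contra hcon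
  push Not at hcon
  obtain ⟨i, hi⟩ := hp l
  apply hi
  have h1 : Λ.mulVec (A.mulVec p) = p := by
    rw [Matrix.mulVec_mulVec, h, Matrix.one_mulVec]
  rw [← h1]
  show ∑ t, Λ ⟨l, i⟩ t * (A.mulVec p) t = 0
  refine Finset.sum_eq_zero fun t _ => ?_
  obtain ⟨l', t⟩ := t
  by_cases hl : l = l'
  · subst hl
    have h2 := hcon t
    rw [act_eq] at h2
    rw [h2, mul_zero]
  · rw [hΛ ⟨l, i⟩ ⟨l', t⟩ hl, zero_mul]

/-- The coefficients of finitely many polynomials. -/
theorem coeffs {σ R ι ι' : Type} [CommRing R] [Finite ι] [Finite ι'] (G : ι → MvPolynomial σ R)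
    (H : ι' → MvPolynomial σ R) : ∃ S : Finset R, (∀ i c, (G i).coeff c ∈ S) ∧
      ∀ i c, (H i).coeff c ∈ S := by
  classical
  have hfin : ∀ f : MvPolynomial σ R, (Set.range fun c => f.coeff c).Finite := by
    intro f
    refine Set.Finite.subset ((insert 0 (f.support.image fun c => f.coeff c)).finite_toSet) ?_
    rintro _ ⟨c, rfl⟩
    rw [Finset.mem_coe, Finset.mem_insert]
    by_cases h : f.coeff c = 0
    · exact Or.inl h
    · exact Or.inr (Finset.mem_image_of_mem _ (MvPolynomial.mem_support_iff.mpr h))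
  have h1 : (⋃ i, Set.range fun c => (G i).coeff c).Finite :=
    Set.finite_iUnion fun i => hfin (G i)
  have h2 : (⋃ i, Set.range fun c => (H i).coeff c).Finite :=
    Set.finite_iUnion fun i => hfin (H i)
  refine ⟨(h1.union h2).toFinset, fun i c => ?_, fun i c => ?_⟩
  · rw [Set.Finite.mem_toFinset]
    exact Or.inl (Set.mem_iUnion.mpr ⟨i, c, rfl⟩)
  · rw [Set.Finite.mem_toFinset]
    exact Or.inr (Set.mem_iUnion.mpr ⟨i, c, rfl⟩)

end CRB

open CRB in
theorem t_CRB (hDEF : S_DEF) (hTCB : S_TCB) (hSCB : S_SCB) (hTRB : S_TRB) (hVXB : S_VXB)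
    (hSBR : S_SBR) (hIND : NCC.S_IND) (hINV : NCC.S_INV) (hVTX : NCC.S_VTX)
    (hHYP : NCC.S_HYP) : S_CRB := by
  intro k q r J N R _ _ hft G H e d hG hH hG0 hH0 htr K _ _ x hx
  choose μ hμ0 hμ using fun l : Fin k =>
    hHYP (fun i : Fin (N l + 1) => x ⟨l, i⟩) (hx l)
  choose G0 hG00 hG0v using fun (j : Fin J) (i : Fin r) => hVXB (G j i) (hG0 j i)
  choose H0 hH00 hH0v using fun (j : Fin J) (a : Fin q) => hVXB (H j a) (hH0 j a)
  choose T hTG hTH using fun j : Fin J => coeffs (G j) (H j)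
  choose CC hCC hδ using fun j : Fin J => hDEF (hft j) (T j)
  let S : Set ℂ := (((⋃ j, CC j) ∪ (⋃ j, ⋃ i, Set.range fun a => (G0 j i).coeff a)) ∪
    ⋃ j, ⋃ a, Set.range fun c => (H0 j a).coeff c) ∪ ⋃ l, Set.range (μ l)
  have hS : S.Countable := by
    refine Set.Countable.union (Set.Countable.union (Set.Countable.union ?_ ?_) ?_) ?_
    · exact Set.countable_iUnion fun j => hCC j
    · exact Set.countable_iUnion fun j => Set.countable_iUnion fun i => Set.countable_range _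
    · exact Set.countable_iUnion fun j => Set.countable_iUnion fun i => Set.countable_range _
    · exact Set.countable_iUnion fun i => Set.countable_range _
  obtain ⟨F, a, hSF, ha⟩ := hIND S hS {z : Coord N × Coord N // z.1.1 = z.2.1}
  have hCF : ∀ j, CC j ⊆ F := fun j z hz =>
    hSF (Or.inl (Or.inl (Or.inl (Set.mem_iUnion.2 ⟨j, hz⟩))))
  have hgF : ∀ j i c, (G0 j i).coeff c ∈ F := fun j i c =>
    hSF (Or.inl (Or.inl (Or.inr (Set.mem_iUnion.2 ⟨j, Set.mem_iUnion.2 ⟨i, c, rfl⟩⟩))))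
  have hhF : ∀ j i c, (H0 j i).coeff c ∈ F := fun j i c =>
    hSF (Or.inl (Or.inr (Set.mem_iUnion.2 ⟨j, Set.mem_iUnion.2 ⟨i, c, rfl⟩⟩)))
  have hμF : ∀ l i, μ l i ∈ F := fun l i => hSF (Or.inr (Set.mem_iUnion.2 ⟨l, i, rfl⟩))
  have hA : IsBlock (mk a) := mk_block a
  have hAi : AlgebraicIndependent F (ent (mk a)) := by
    rw [ent_mk]
    exact ha
  obtain ⟨Λ, hΛ, h1, h2, hΛi⟩ := hINV F (mk a) hA hAi
  refine ⟨mk a, Λ, hA, hΛ, h1, h2, ?_, ?_, ?_, ?_⟩
  · intro j χ p hp hz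
    have hz' : ∀ i, eval (act (mk a) p) (fib χ (G j i)) = 0 := by
      intro i
      have e1 := (hSBR (mk a) (G j i)).2.1 p
      have e2 := (hSBR (mk a) (G j i)).2.2.2.2.1 χ (act (mk a) p)
      have e3 := (hSBR (mk a) (subR (mk a) (G j i))).2.2.2.2.1 χ p
      rw [← e2, ← e1, e3]
      exact hz i
    refine hTRB (G j) (H j) χ (mk a) Λ h1 h2 p ?_
    refine hSCB (G j) (H j) e d (hG j) (hH j) χ Λ hΛ ?_ (act (mk a) p) (point_act hΛ h2 hp) hz'
    intro p' hp' hz''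
    refine hTCB F (G j) (H j) χ ?_ Λ hΛ hΛi p' hp' hz'' ?_
    · intro D
      obtain ⟨δ, hδ1, hδ2⟩ := hδ j F (hCF j) χ D
      exact ⟨δ, hδ1, fun i c => hδ2 _ (hTG j i c), fun i c => hδ2 _ (hTH j i c)⟩
    · refine htr j χ p' ?_ hz''
      intro l
      obtain ⟨i, hi⟩ := hp' l
      exact ⟨i, by rw [hi]; exact one_ne_zero⟩
  · exact fun j i v => hG0v j i (mk a) v (hVTX F (mk a) hA hAi (G0 j i) (hG00 j i) (hgF j i) v)
  · exact fun j i v => hH0v j i (mk a) v (hVTX F (mk a) hA hAi (H0 j i) (hH00 j i) (hhF j i) v)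
  · intro s hs
    have h3 : ∑ i, algebraMap ℂ K (Λ s ⟨s.1, i⟩) * x ⟨s.1, i⟩ = 0 := by
      have h4 : act Λ x s = ∑ l, ∑ i, algebraMap ℂ K (Λ s ⟨l, i⟩) * x ⟨l, i⟩ := by
        rw [act, Fintype.sum_sigma]
      rw [Finset.sum_eq_single s.1] at h4
      · rw [← h4, hs]
      · intro l _ hl
        refine Finset.sum_eq_zero fun i _ => ?_
        rw [hΛ s ⟨l, i⟩ (Ne.symm hl), map_zero, zero_mul]
      · exact fun h => absurd (Finset.mem_univ _) h
    obtain ⟨i, hi⟩ := hμ0 s.1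
    exact hi (row_ne F Λ hΛi s (μ s.1) (hμF s.1) (hμ s.1 _ h3) i)

end FNC
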