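import Pool.Agent.FNC.StA

/-!
# FNC: module DEF, extension of a derivation to a finitely generated algebra
-/

set_option autoImplicit false

namespace FNC

open MvPolynomial NCC MldX MMCI MMCX RMX

namespace DEF

noncomputable section

variable {n : ℕ}

/-- `∑_l (∂f/∂Y_l)(y) v_l` -/
def dl (y v : Fin n → ℂ) (f : MvPolynomial (Fin n) ℂ) : ℂ := ∑ l, eval y (pderiv l f) * v l

theorem dl_add (y v : Fin n → ℂ) (f g : MvPolynomial (Fin n) ℂ) :
    dl y v (f + g) = dl y v f + dl y v g := by
  simp only [dl, map_add, add_mul, Finset.sum_add_distrib]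

theorem dl_smul (y v : Fin n → ℂ) (c : ℂ) (f : MvPolynomial (Fin n) ℂ) :
    dl y v (c • f) = c * dl y v f := by
  simp only [dl, Finset.mul_sum]
  refine Finset.sum_congr rfl fun l _ => ?_
  rw [Derivation.map_smul, smul_eval]
  ring

theorem dl_mul (y v : Fin n → ℂ) (f g : MvPolynomial (Fin n) ℂ) :
    dl y v (f * g) = eval y f * dl y v g + eval y g * dl y v f := by
  simp only [dl, Finset.mul_sum]
  rw [← Finset.sum_add_distrib]
  refine Finset.sum_congr rfl fun l _ => ?_
  rw [Derivation.leibniz]
  simp only [smul_eq_mul, map_add, map_mul]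
  ring

theorem dl_C (y v : Fin n → ℂ) (a : ℂ) : dl y v (C a) = 0 := by
  simp [dl]

theorem dl_X (y v : Fin n → ℂ) (i : Fin n) : dl y v (X i) = v i := by
  classical
  unfold dl
  rw [Finset.sum_eq_single i]
  · simp
  · intro j _ hj
    rw [pderiv_X_of_ne (Ne.symm hj)]
    simp
  · intro h
    exact absurd (Finset.mem_univ i) h

/-- on polynomials with coefficients in `F0` this is the derivation of the value -/
theorem dl_eq (F0 : Subfield ℂ) (D : Derivation F0 ℂ ℂ) (y : Fin n → ℂ)
    (f : MvPolynomial (Fin n) F0) :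
    dl y (fun l => D (y l)) (map (algebraMap F0 ℂ) f) = D (aeval y f) := by
  induction f using MvPolynomial.induction_on with
  | C a =>
    rw [map_C, dl_C, aeval_C]
    exact (D.map_algebraMap a).symm
  | add f g hf hg => rw [map_add, dl_add, hf, hg, map_add, map_add]
  | mul_X f i hf =>
    rw [map_mul, dl_mul, hf, map_X, dl_X, map_mul, aeval_X, Derivation.leibniz, eval_X, eval_map]
    rfl

theorem dl_eq' (F0 : Subfield ℂ) (D : Derivation F0 ℂ ℂ) (y : Fin n → ℂ)
    (f : MvPolynomial (Fin n) ℂ) (hf : (f.coeffs : Set ℂ) ⊆ F0) :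
    dl y (fun l => D (y l)) f = D (eval y f) := by
  have h1 : f ∈ Set.range (MvPolynomial.map (σ := Fin n) (algebraMap F0 ℂ)) := by
    rw [mem_range_map_iff_coeffs_subset]
    intro a ha
    exact ⟨⟨a, hf ha⟩, rfl⟩
  obtain ⟨g, rfl⟩ := h1
  rw [dl_eq]
  congr 1
  rw [eval_map]
  rfl

end

end DEF

open DEF in
theorem t_DEF : S_DEF := by
  classical
  intro R _ _ hR S
  obtain ⟨n, π, hπ⟩ := Algebra.FiniteType.iff_quotient_mvPolynomial''.1 hR
  obtain ⟨P, hP⟩ : (RingHom.ker π).FG := (isNoetherianRing_iff_ideal_fg _).1 inferInstance _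
  choose s hs using hπ
  refine ⟨(⋃ p ∈ P, (p.coeffs : Set ℂ)) ∪ ⋃ c ∈ S, ((s c).coeffs : Set ℂ), ?_, ?_⟩
  · refine Set.Countable.union ?_ ?_
    · exact P.countable_toSet.biUnion fun p _ => Finset.countable_toSet _
    · exact S.countable_toSet.biUnion fun p _ => Finset.countable_toSet _
  · intro F0 hF0 χ D
    set y : Fin n → ℂ := fun l => χ (π (X l)) with hy
    set v : Fin n → ℂ := fun l => D (y l) with hv
    have hev : ∀ f : MvPolynomial (Fin n) ℂ, eval y f = χ (π f) := by
      intro f
      have h1 : (aeval y : MvPolynomial (Fin n) ℂ →ₐ[ℂ] ℂ) = χ.comp π := by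
        apply MvPolynomial.algHom_ext
        intro l
        simp [hy]
      have h2 := DFunLike.congr_fun h1 f
      simpa [MvPolynomial.coe_aeval_eq_eval] using h2
    have hker : ∀ f, π f = 0 → dl y v f = 0 := by
      intro f hf
      have hf' : f ∈ Ideal.span (P : Set (MvPolynomial (Fin n) ℂ)) := by
        rw [hP]
        exact hf
      induction hf' using Submodule.span_induction with
      | mem p hp =>
        rw [dl_eq' F0 D y p fun a ha => hF0 (Or.inl (Set.mem_biUnion hp ha)), hev]
        have : π p = 0 := by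
          have h3 : p ∈ RingHom.ker π := by
            rw [← hP]
            exact Ideal.subset_span hp
          exact h3
        rw [this, map_zero, map_zero]
      | zero => simp [dl]
      | add a b ha hb h1 h2 =>
        have ka : π a = 0 := by
          have : a ∈ RingHom.ker π := by rw [← hP]; exact ha
          exact this
        have kb : π b = 0 := by
          have : b ∈ RingHom.ker π := by rw [← hP]; exact hb
          exact this
        rw [dl_add, h1 ka, h2 kb, add_zero]
      | smul g a ha h1 =>
        have ka : π a = 0 := by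
          have : a ∈ RingHom.ker π := by rw [← hP]; exact ha
          exact this
        rw [smul_eq_mul, dl_mul, h1 ka, hev a, ka, map_zero, zero_mul, mul_zero, add_zero]
    have hsub : ∀ f g, π f = π g → dl y v f = dl y v g := by
      intro f g h
      have h1 := hker (f + (-1 : ℂ) • g) (by rw [map_add, map_smul, h]; simp)
      rw [dl_add, dl_smul] at h1
      linear_combination h1
    refine ⟨{ toFun := fun r => dl y v (s r), map_add' := ?_, map_smul' := ?_ }, ?_, ?_⟩
    · intro a b
      rw [← dl_add]
      exact hsub _ _ (by rw [map_add, hs, hs, hs])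
    · intro c a
      rw [RingHom.id_apply, smul_eq_mul, ← dl_smul]
      exact hsub _ _ (by rw [map_smul, hs, hs])
    · intro a b
      change dl y v (s (a * b)) = χ a * dl y v (s b) + χ b * dl y v (s a)
      rw [hsub (s (a * b)) (s a * s b) (by rw [map_mul, hs, hs, hs]), dl_mul, hev, hev, hs, hs]
    · intro c hc
      change dl y v (s c) = D (χ c)
      rw [dl_eq' F0 D y (s c) fun a ha => hF0 (Or.inr (Set.mem_biUnion hc ha)), hev, hs]

end FNC
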