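import Pool.Agent.FNC.StB

/-!
# Families with normal crossings (MP_fa3f7f_ag), module FIB: restriction to the fibres
-/

set_option autoImplicit false

namespace FNC

open MvPolynomial NCC MldX MMCI MMCX RMX

noncomputable section

theorem t_FIB : S_FIB := by
  intro R _ _ k N χ f
  refine ⟨fun d hd a ha => hd a (support_map_subset _ _ ha), fun p => ?_⟩
  unfold fib val
  rw [eval_map]
  have h1 : χ ((eval fun s => algebraMap ℂ R (p s)) f) =
      (χ : R →+* ℂ) (eval₂ (RingHom.id R) (fun s => algebraMap ℂ R (p s)) f) := rfl
  rw [h1, hom_eval₂]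
  congr 1
  funext s
  exact (χ.commutes (p s)).symm

end

end FNC
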