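import Pool.Agent.FNC.StB

/-!
# INIR: the initial forms of dehomogenized multihomogeneous polynomials over a ring
-/

set_option autoImplicit false

namespace FNC

open MvPolynomial NCC MldX MMCI MMCX RMX

noncomputable section

namespace INIR_aux

variable {k q : ℕ} {N : Fin k → ℕ}

/-! ### exponents -/

theorem pair_aexp (ν : Fin (MM N q) → ℤ) (a : Coord N →₀ ℕ) :
    pair ν (aexp q a) =
      ∑ l, ∑ i : Fin (N l + 1), wt (fun i => ν (en N q i)) ⟨l, i⟩ * (a ⟨l, i⟩ : ℤ) := by
  have h0 : pair ν (aexp q a) = ∑ i : Aff N q, ν (en N q i) * affExp q a i := by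
    unfold pair aexp
    rw [← Equiv.sum_comp (en N q)]
    simp only [Equiv.symm_apply_apply]
  rw [h0, Fintype.sum_sum_type]
  have h2 : ∑ j : Fin q, ν (en N q (Sum.inr j)) * affExp q a (Sum.inr j) = 0 := by simp [affExp]
  rw [h2, add_zero, Fintype.sum_sigma]
  apply Finset.sum_congr rfl
  intro l _
  rw [Fin.sum_univ_succ]
  simp [NCC.wt, affExp]

theorem wmin_le (ν : Aff N q → ℤ) (l : Fin k) (i : Fin (N l + 1)) : wmin ν l ≤ wt ν ⟨l, i⟩ :=
  Finset.inf'_le _ (Finset.mem_univ i)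

theorem wmin_mem (ν : Aff N q → ℤ) (l : Fin k) : ∃ i : Fin (N l + 1), wt ν ⟨l, i⟩ = wmin ν l := by
  obtain ⟨i, -, hi⟩ := Finset.exists_mem_eq_inf' (s := (Finset.univ : Finset (Fin (N l + 1))))
    Finset.univ_nonempty fun i => wt ν ⟨l, i⟩
  exact ⟨i, hi.symm⟩

theorem pair_diff (d : Fin k → ℕ) (ν : Fin (MM N q) → ℤ) {a : Coord N →₀ ℕ}
    (ha : ∀ l, ∑ i, a ⟨l, i⟩ = d l) :
    pair ν (aexp q a) = ∑ l, (d l : ℤ) * wm ν l +
      ∑ l, ∑ i : Fin (N l + 1),
        (wt (fun i => ν (en N q i)) ⟨l, i⟩ - wm ν l) * (a ⟨l, i⟩ : ℤ) := by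
  rw [pair_aexp, ← Finset.sum_add_distrib]
  apply Finset.sum_congr rfl
  intro l _
  have h1 : (d l : ℤ) = ∑ i : Fin (N l + 1), (a ⟨l, i⟩ : ℤ) := by
    rw [← ha l]
    push_cast
    rfl
  rw [h1, Finset.sum_mul, ← Finset.sum_add_distrib]
  apply Finset.sum_congr rfl
  intro i _
  ring

theorem diff_nonneg (ν : Fin (MM N q) → ℤ) (a : Coord N →₀ ℕ) (l : Fin k) (i : Fin (N l + 1)) :
    0 ≤ (wt (fun i => ν (en N q i)) ⟨l, i⟩ - wm ν l) * (a ⟨l, i⟩ : ℤ) :=
  mul_nonneg (sub_nonneg.mpr (wmin_le _ l i)) (Nat.cast_nonneg _)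

theorem pair_ge (d : Fin k → ℕ) (ν : Fin (MM N q) → ℤ) {a : Coord N →₀ ℕ}
    (ha : ∀ l, ∑ i, a ⟨l, i⟩ = d l) :
    ∑ l, (d l : ℤ) * wm ν l ≤ pair ν (aexp q a) := by
  rw [pair_diff d ν ha]
  have : 0 ≤ ∑ l, ∑ i : Fin (N l + 1),
      (wt (fun i => ν (en N q i)) ⟨l, i⟩ - wm ν l) * (a ⟨l, i⟩ : ℤ) :=
    Finset.sum_nonneg fun l _ => Finset.sum_nonneg fun i _ => diff_nonneg ν a l i
  linarith

theorem pair_eq_iff (d : Fin k → ℕ) (ν : Fin (MM N q) → ℤ) {a : Coord N →₀ ℕ}
    (ha : ∀ l, ∑ i, a ⟨l, i⟩ = d l) :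
    pair ν (aexp q a) = ∑ l, (d l : ℤ) * wm ν l ↔
      ∀ s : Coord N, wt (fun i => ν (en N q i)) s ≠ wm ν s.1 → a s = 0 := by
  rw [pair_diff d ν ha, add_eq_left]
  constructor
  · intro h s hs
    rw [Finset.sum_eq_zero_iff_of_nonneg
      (fun l _ => Finset.sum_nonneg fun i _ => diff_nonneg ν a l i)] at h
    have h1 := h s.1 (Finset.mem_univ _)
    rw [Finset.sum_eq_zero_iff_of_nonneg (fun i _ => diff_nonneg ν a s.1 i)] at h1
    have h2 := h1 s.2 (Finset.mem_univ _)
    rcases mul_eq_zero.mp h2 with h3 | h3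
    · exact absurd (sub_eq_zero.mp h3) hs
    · exact_mod_cast h3
  · intro h
    apply Finset.sum_eq_zero
    intro l _
    apply Finset.sum_eq_zero
    intro i _
    by_cases hw : wt (fun i => ν (en N q i)) ⟨l, i⟩ = wm ν l
    · rw [hw, sub_self, zero_mul]
    · rw [h ⟨l, i⟩ hw]
      simp

/-- the coordinates of the point with the dehomogenization -/
def cc (ξ : Aff N q → ℂ) (s : Coord N) : ℂ :=
  Fin.cases (motive := fun _ => ℂ) 1 (fun i => ξ (Sum.inl ⟨s.1, i⟩)) s.2

theorem mon_aexp (c : Fin (MM N q) → ℂ) (a : Coord N →₀ ℕ) :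
    mon c (aexp q a) = ∏ s, cc (fun i => c (en N q i)) s ^ a s := by
  have h0 : mon c (aexp q a) = ∏ i : Aff N q, c (en N q i) ^ affExp q a i := by
    unfold mon aexp
    rw [← Equiv.prod_comp (en N q)]
    simp only [Equiv.symm_apply_apply]
  rw [h0, Fintype.prod_sum_type]
  have h2 : ∏ j : Fin q, c (en N q (Sum.inr j)) ^ affExp q a (Sum.inr j) = 1 := by simp [affExp]
  rw [h2, mul_one, Fintype.prod_sigma, Fintype.prod_sigma]
  apply Finset.prod_congr rfl
  intro l _
  rw [Fin.prod_univ_succ]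
  simp [cc, affExp]

theorem pp_eq (ν : Fin (MM N q) → ℤ) (c : Fin (MM N q) → ℂ) (s : Coord N) :
    pp ν c s = if wt (fun i => ν (en N q i)) s = wm ν s.1 then cc (fun i => c (en N q i)) s
      else 0 := rfl

theorem prod_pp (d : Fin k → ℕ) (ν : Fin (MM N q) → ℤ) (c : Fin (MM N q) → ℂ)
    {a : Coord N →₀ ℕ} (ha : ∀ l, ∑ i, a ⟨l, i⟩ = d l) :
    ∏ s, pp ν c s ^ a s =
      if pair ν (aexp q a) = ∑ l, (d l : ℤ) * wm ν l then mon c (aexp q a) else 0 := by
  by_cases h : pair ν (aexp q a) = ∑ l, (d l : ℤ) * wm ν l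
  · rw [if_pos h, mon_aexp]
    rw [pair_eq_iff d ν ha] at h
    apply Finset.prod_congr rfl
    intro s _
    rw [pp_eq]
    by_cases hs : wt (fun i => ν (en N q i)) s = wm ν s.1
    · rw [if_pos hs]
    · rw [if_neg hs, h s hs, pow_zero, pow_zero]
  · rw [if_neg h]
    rw [pair_eq_iff d ν ha] at h
    push Not at h
    obtain ⟨s, hs, has⟩ := h
    apply Finset.prod_eq_zero (Finset.mem_univ s)
    rw [pp_eq, if_neg hs, zero_pow has]

/-! ### polynomials over `R` -/

variable {R : Type} [CommRing R] [Algebra ℂ R]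

theorem vertex_exp (f : MvPolynomial (Coord N) R) (v : (l : Fin k) → Fin (N l + 1))
    (hv : val (vert v) f ≠ 0) : ∃ a ∈ f.support, ∀ s : Coord N, s.2 ≠ v s.1 → a s = 0 := by
  unfold val at hv
  rw [MvPolynomial.eval_eq'] at hv
  obtain ⟨a, ha, h⟩ := Finset.exists_ne_zero_of_sum_ne_zero hv
  refine ⟨a, ha, fun s hs => ?_⟩
  by_contra hne
  apply h
  have h1 : ∏ i, (algebraMap ℂ R (vert v i)) ^ a i = 0 := by
    apply Finset.prod_eq_zero (Finset.mem_univ s)
    rw [vert, if_neg hs, map_zero, zero_pow hne]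
  rw [h1, mul_zero]

theorem min_eq (hAFC : S_AFC) (f : MvPolynomial (Coord N) R) (d : Fin k → ℕ) (hf : IsMulti f d)
    (hv : ∀ v : (l : Fin k) → Fin (N l + 1), val (vert v) f ≠ 0) (ν : Fin (MM N q) → ℤ) :
    minOnR (affR q f) ν = ∑ l, (d l : ℤ) * wm ν l := by
  obtain ⟨hco, hsu, -, -⟩ := hAFC (q := q) f
  unfold minOnR
  apply IsLeast.csInf_eq
  constructor
  · choose v hvw using fun l => wmin_mem (fun i => ν (en N q i)) l
    obtain ⟨a, ha, ha0⟩ := vertex_exp f v (hv v)
    refine ⟨aexp q a, ?_, ?_⟩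
    · rw [Finset.mem_coe, Finsupp.mem_support_iff, hco d hf a ha]
      exact MvPolynomial.mem_support_iff.mp ha
    · show pair ν (aexp q a) = _
      rw [pair_eq_iff d ν (hf a ha)]
      intro s hs
      apply ha0
      intro h
      apply hs
      have : s = ⟨s.1, v s.1⟩ := by
        rw [← h]
      rw [this]
      exact hvw s.1
  · rintro _ ⟨m, hm, rfl⟩
    obtain ⟨a, ha, rfl⟩ := hsu m (Finset.mem_coe.mp hm)
    exact pair_ge d ν (hf a ha)

omit [Algebra ℂ R] in
theorem init_eq (f : MvPolynomial (Coord N) R) (ν : Fin (MM N q) → ℤ) :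
    initFormR (affR q f) ν = ∑ a ∈ f.support,
      if pair ν (aexp q a) = minOnR (affR q f) ν then
        (AddMonoidAlgebra.single (aexp q a) (f.coeff a) : LaurentR R (MM N q)) else 0 := by
  classical
  have h0 : (affR q f).coeff = ∑ a ∈ f.support, Finsupp.single (aexp q a) (f.coeff a) := by
    rw [affR, AddMonoidAlgebra.coeff_sum]
    rfl
  have h1 : (affR q f).coeff.filter (fun m => pair ν m = minOnR (affR q f) ν) =
      ∑ a ∈ f.support, (Finsupp.single (aexp q a) (f.coeff a)).filter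
        (fun m => pair ν m = minOnR (affR q f) ν) := by
    conv_lhs => rw [h0]
    exact map_sum (Finsupp.filterAddHom (M := R) fun m => pair ν m = minOnR (affR q f) ν) _ _
  apply AddMonoidAlgebra.coeff_injective
  unfold initFormR
  rw [AddMonoidAlgebra.coeff_ofCoeff, h1, AddMonoidAlgebra.coeff_sum]
  apply Finset.sum_congr rfl
  intro a _
  by_cases h : pair ν (aexp q a) = minOnR (affR q f) ν
  · rw [if_pos h, Finsupp.filter_single_of_pos (fun m => pair ν m = minOnR (affR q f) ν) h]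
    rfl
  · rw [if_neg h, Finsupp.filter_single_of_neg (fun m => pair ν m = minOnR (affR q f) ν) h]
    rfl

/-! ### additive homomorphisms -/

variable {n : ℕ}

/-- `evp` as an additive homomorphism. -/
def evpH (χ : R →ₐ[ℂ] ℂ) (c : Fin n → ℂ) : LaurentR R n →+ ℂ where
  toFun := KUM.evp χ c
  map_zero' := by
    simp [KUM.evp]
  map_add' h h' := by
    unfold KUM.evp
    rw [AddMonoidAlgebra.coeff_add]
    apply Finsupp.sum_add_index'
    · intro a
      rw [map_zero, zero_mul]
    · intro a z z'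
      rw [map_add, add_mul]

/-- `ret` as an additive homomorphism. -/
def retH (c : Fin n → ℂ) : LaurentR R n →+ R where
  toFun := KUM.ret c
  map_zero' := by
    simp [KUM.ret]
  map_add' h h' := by
    unfold KUM.ret
    rw [AddMonoidAlgebra.coeff_add]
    apply Finsupp.sum_add_index'
    · intro a
      rw [smul_zero]
    · intro a z z'
      rw [smul_add]

/-- `derR` as an additive homomorphism. -/
def derH (z : Fin n) : LaurentR R n →+ LaurentR R n where
  toFun := derR z
  map_zero' := by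
    simp [derR]
  map_add' h h' := by
    unfold derR
    rw [AddMonoidAlgebra.coeff_add]
    apply Finsupp.sum_add_index'
    · intro a
      rw [mul_zero, AddMonoidAlgebra.single_zero]
    · intro a z z'
      rw [mul_add, AddMonoidAlgebra.single_add]

theorem evp_single (χ : R →ₐ[ℂ] ℂ) (c : Fin n → ℂ) (a : Fin n → ℤ) (z : R) :
    KUM.evp χ c (AddMonoidAlgebra.single a z) = χ z * mon c a := by
  unfold KUM.evp
  rw [AddMonoidAlgebra.coeff_single, Finsupp.sum_single_index]
  rw [map_zero, zero_mul]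

theorem ret_single (c : Fin n → ℂ) (a : Fin n → ℤ) (z : R) :
    KUM.ret c (AddMonoidAlgebra.single a z) = mon c a • z := by
  unfold KUM.ret
  rw [AddMonoidAlgebra.coeff_single, Finsupp.sum_single_index]
  rw [smul_zero]

omit [Algebra ℂ R] in
theorem derR_single (z : Fin n) (a : Fin n → ℤ) (y : R) :
    derR z (AddMonoidAlgebra.single a y : LaurentR R n) =
      AddMonoidAlgebra.single a ((a z : R) * y) := by
  unfold derR
  rw [AddMonoidAlgebra.coeff_single, Finsupp.sum_single_index]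
  rw [mul_zero, AddMonoidAlgebra.single_zero]

omit [Algebra ℂ R] in
theorem sum_init {A : Type} [AddCommMonoid A] (T : LaurentR R (MM N q) →+ A)
    (f : MvPolynomial (Coord N) R) (ν : Fin (MM N q) → ℤ) :
    T (initFormR (affR q f) ν) = ∑ a ∈ f.support,
      if pair ν (aexp q a) = minOnR (affR q f) ν then
        T (AddMonoidAlgebra.single (aexp q a) (f.coeff a)) else 0 := by
  conv_lhs => rw [init_eq, map_sum]
  apply Finset.sum_congr rfl
  intro a _
  split_ifs
  · rfl
  · exact map_zero T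

/-! ### the fibre -/

theorem fib_eq (χ : R →ₐ[ℂ] ℂ) (f : MvPolynomial (Coord N) R) :
    fib χ f = ∑ a ∈ f.support, monomial a (χ (f.coeff a)) := by
  unfold fib
  conv_lhs => rw [MvPolynomial.as_sum f]
  rw [map_sum]
  apply Finset.sum_congr rfl
  intro a _
  rw [MvPolynomial.map_monomial]
  rfl

theorem eval_fib (χ : R →ₐ[ℂ] ℂ) (f : MvPolynomial (Coord N) R) (p : Coord N → ℂ) :
    eval p (fib χ f) = ∑ a ∈ f.support, χ (f.coeff a) * ∏ s, p s ^ a s := by
  rw [fib_eq, map_sum]
  apply Finset.sum_congr rfl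
  intro a _
  rw [MvPolynomial.eval_monomial, Finsupp.prod_fintype _ _ (fun i => pow_zero _)]

theorem val_eq (f : MvPolynomial (Coord N) R) (p : Coord N → ℂ) :
    val p f = ∑ a ∈ f.support, (∏ s, p s ^ a s) • f.coeff a := by
  unfold val
  rw [MvPolynomial.eval_eq']
  apply Finset.sum_congr rfl
  intro a _
  rw [Algebra.smul_def, map_prod, mul_comm]
  congr 1
  apply Finset.prod_congr rfl
  intro s _
  rw [map_pow]

theorem mul_grd (χ : R →ₐ[ℂ] ℂ) (f : MvPolynomial (Coord N) R) (p : Coord N → ℂ)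
    (s : Coord N) :
    p s * grd (fib χ f) p s =
      ∑ a ∈ f.support, χ (f.coeff a) * (a s : ℂ) * ∏ t, p t ^ a t := by
  have h1 : p s * grd (fib χ f) p s = eval p (X s * pderiv s (fib χ f)) := by
    rw [map_mul, eval_X]
    rfl
  rw [h1, fib_eq, map_sum, Finset.mul_sum, map_sum]
  apply Finset.sum_congr rfl
  intro a _
  rw [MvPolynomial.X_mul_pderiv_monomial, nsmul_eq_mul, map_mul, map_natCast,
    MvPolynomial.eval_monomial]
  rw [Finsupp.prod_fintype _ _ (fun i => pow_zero _)]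
  ring

end INIR_aux

open INIR_aux in
theorem t_INIR : S_AFC → S_INIR := by
  intro hAFC R _ _ k q N f d hf hv ν
  have hmin := min_eq hAFC f d hf hv ν
  refine ⟨hmin, fun j => ?_, fun χ c _ => ⟨?_, ?_, fun s => ?_⟩⟩
  · have h := sum_init (derH (en N q (Sum.inr j))) f ν
    refine Eq.trans h ?_
    apply Finset.sum_eq_zero
    intro a _
    split_ifs
    · show derR _ _ = _
      rw [derR_single]
      have h0 : aexp q a (en N q (Sum.inr j)) = 0 := (hAFC (q := q) f).2.2.1 a j
      rw [h0, Int.cast_zero, zero_mul, AddMonoidAlgebra.single_zero]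
    · rfl
  · have h := sum_init (evpH χ c) f ν
    refine Eq.trans h ?_
    rw [eval_fib]
    apply Finset.sum_congr rfl
    intro a ha
    rw [prod_pp d ν c (hf a ha), ← hmin]
    split_ifs
    · exact evp_single χ c _ _
    · rw [mul_zero]
  · have h := sum_init (retH c) f ν
    refine Eq.trans h ?_
    rw [val_eq]
    apply Finset.sum_congr rfl
    intro a ha
    rw [prod_pp d ν c (hf a ha), ← hmin]
    split_ifs
    · exact ret_single c _ _
    · rw [zero_smul]
  · have h := sum_init ((evpH χ c).comp (derH (en N q (Sum.inl s)))) f ν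
    refine Eq.trans h ?_
    rw [mul_grd]
    apply Finset.sum_congr rfl
    intro a ha
    rw [prod_pp d ν c (hf a ha), ← hmin]
    split_ifs
    · show KUM.evp χ c (derR _ _) = _
      rw [derR_single, evp_single, map_mul, map_intCast]
      have h0 : aexp q a (en N q (Sum.inl s)) = (a ⟨s.1, s.2.succ⟩ : ℤ) := by
        unfold aexp
        rw [Equiv.symm_apply_apply]
        rfl
      rw [h0, Int.cast_natCast]
      ring
    · rw [mul_zero]

end

end FNC
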