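import Pool.Agent.FNC.StB

/-!
# The initial forms of `x_z - f`
-/

set_option autoImplicit false

namespace FNC

open MvPolynomial NCC MldX MMCI MMCX RMX

noncomputable section

namespace INJR_aux

variable {R : Type} [CommRing R] {n : ℕ}

theorem coeff_g (f : LaurentR R n) (z : Fin n → ℤ) :
    (AddMonoidAlgebra.single z 1 - f).coeff = Finsupp.single z 1 - f.coeff := rfl

theorem support_g [Nontrivial R] (f : LaurentR R n) (z : Fin n → ℤ) (hz : z ∉ f.coeff.support) :
    ((Finsupp.single z (1 : R) - f.coeff).support : Set (Fin n → ℤ)) =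
      insert z (f.coeff.support : Set (Fin n → ℤ)) := by
  ext m
  simp only [Finset.mem_coe, Finsupp.mem_support_iff, Finsupp.sub_apply, Set.mem_insert_iff]
  have hz0 : f.coeff z = 0 := Finsupp.notMem_support_iff.1 hz
  by_cases h : m = z
  · subst h
    simp [hz0]
  · rw [Finsupp.single_apply, if_neg (Ne.symm h), zero_sub]
    simp [h]

theorem min_bdd (f : LaurentR R n) (ν : Fin n → ℤ) :
    BddBelow ((fun m => pair ν m) '' (f.coeff.support : Set (Fin n → ℤ))) :=
  (f.coeff.support.finite_toSet.image _).bddBelow

theorem min_le (f : LaurentR R n) (ν m : Fin n → ℤ) (hm : m ∈ f.coeff.support) :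
    minOnR f ν ≤ pair ν m :=
  csInf_le (min_bdd f ν) ⟨m, hm, rfl⟩

theorem min_g [Nontrivial R] (f : LaurentR R n) (hf : f ≠ 0) (ν z : Fin n → ℤ)
    (hz : z ∉ f.coeff.support) :
    minOnR (AddMonoidAlgebra.single z 1 - f) ν = min (pair ν z) (minOnR f ν) := by
  unfold minOnR
  rw [coeff_g, support_g f z hz, Set.image_insert_eq, csInf_insert (min_bdd f ν)]
  have : f.coeff.support.Nonempty := by
    rw [Finsupp.support_nonempty_iff]
    intro h
    apply hf
    have h2 : f = AddMonoidAlgebra.ofCoeff f.coeff := rfl
    rw [h2, h]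
    rfl
  exact ⟨_, this.choose, this.choose_spec, rfl⟩

/-- the three cases -/
theorem three [Nontrivial R] (f : LaurentR R n) (hf : f ≠ 0) (ν z : Fin n → ℤ)
    (hz : z ∉ f.coeff.support) :
    (pair ν z < minOnR f ν → initFormR (AddMonoidAlgebra.single z 1 - f) ν =
      AddMonoidAlgebra.single z 1) ∧
    (pair ν z = minOnR f ν → initFormR (AddMonoidAlgebra.single z 1 - f) ν =
      AddMonoidAlgebra.single z 1 - initFormR f ν) ∧
    (minOnR f ν < pair ν z → initFormR (AddMonoidAlgebra.single z 1 - f) ν =
      - initFormR f ν) := by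
  have hm := min_g f hf ν z hz
  have key : ∀ c d : (Fin n → ℤ) →₀ R, c = d →
      (AddMonoidAlgebra.ofCoeff c : LaurentR R n) = AddMonoidAlgebra.ofCoeff d :=
    fun c d h => by rw [h]
  refine ⟨fun h => ?_, fun h => ?_, fun h => ?_⟩
  · rw [min_eq_left h.le] at hm
    refine key ((AddMonoidAlgebra.single z 1 - f).coeff.filter fun m => pair ν m =
      minOnR (AddMonoidAlgebra.single z 1 - f) ν) (Finsupp.single z 1) ?_
    rw [hm, coeff_g, Finsupp.filter_sub,
      Finsupp.filter_single_of_pos (p := fun m => pair ν m = pair ν z) rfl]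
    have h0 : (f.coeff.filter fun m => pair ν m = pair ν z) = 0 := by
      rw [Finsupp.filter_eq_zero_iff]
      intro m hm1
      by_contra h2
      have := min_le f ν m (Finsupp.mem_support_iff.2 h2)
      omega
    rw [h0, sub_zero]
  · rw [h, min_self] at hm
    refine key ((AddMonoidAlgebra.single z 1 - f).coeff.filter fun m => pair ν m =
      minOnR (AddMonoidAlgebra.single z 1 - f) ν)
      (Finsupp.single z 1 - f.coeff.filter fun m => pair ν m = minOnR f ν) ?_
    rw [hm, coeff_g, Finsupp.filter_sub,
      Finsupp.filter_single_of_pos (p := fun m => pair ν m = minOnR f ν) h]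
  · rw [min_eq_right h.le] at hm
    refine key ((AddMonoidAlgebra.single z 1 - f).coeff.filter fun m => pair ν m =
      minOnR (AddMonoidAlgebra.single z 1 - f) ν)
      (- f.coeff.filter fun m => pair ν m = minOnR f ν) ?_
    rw [hm, coeff_g, Finsupp.filter_sub,
      Finsupp.filter_single_of_neg (p := fun m => pair ν m = minOnR f ν) h.ne', zero_sub]

theorem pair_single (ν : Fin n → ℤ) (e : Fin n) : pair ν (Pi.single e 1) = ν e := by
  unfold pair
  rw [Finset.sum_eq_single e]
  · simp
  · intro i _ hi
    simp [hi]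
  · intro h
    exact absurd (Finset.mem_univ e) h

end INJR_aux

open INJR_aux in
theorem t_INJR : S_INJR := by
  intro R _ n f hf z hz ν
  have hR : Nontrivial R := by
    by_contra h
    rw [not_nontrivial_iff_subsingleton] at h
    apply hf
    have h2 : f = AddMonoidAlgebra.ofCoeff f.coeff := rfl
    rw [h2, Subsingleton.elim f.coeff 0]
    rfl
  have hzn : (Pi.single z 1 : Fin n → ℤ) ∉ f.coeff.support := by
    intro h
    have := hz _ h
    simp at this
  have hp : pair ν (Pi.single z 1) = ν z := pair_single ν _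
  have t := three f hf ν _ hzn
  rw [hp] at t
  exact t

end

end FNC
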