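import Pool.Agent.FNC.StA

/-!
# Families with normal crossings (MP_fa3f7f_ag): the extended family (module KFM, helper63)
-/

set_option autoImplicit false
set_option maxHeartbeats 4000000

namespace FNC

open MvPolynomial NCC MldX MMCI MMCX RMX

noncomputable section

namespace KFM

variable {n0 v : ℕ}

lemma mon_append {K : Type} [Field K] (x : Fin n0 → K) (u : Fin v → K) (a : Fin n0 → ℤ)
    (μ : Fin v → ℤ) : mon (Fin.append x u) (Fin.append a μ) = mon x a * mon u μ := by
  unfold mon
  rw [Fin.prod_univ_add]
  congr 1
  · refine Finset.prod_congr rfl fun i _ => ?_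
    rw [Fin.append_left, Fin.append_left]
  · refine Finset.prod_congr rfl fun i _ => ?_
    rw [Fin.append_right, Fin.append_right]

lemma mon_zero {K : Type} [Field K] {n : ℕ} (x : Fin n → K) : mon x 0 = 1 := by
  unfold mon
  simp

lemma mon_single {K : Type} [Field K] {n : ℕ} (x : Fin n → K) (a : Fin n) (k : ℕ) :
    mon x (Pi.single a (k : ℤ)) = x a ^ k := by
  unfold mon
  rw [Finset.prod_eq_single a]
  · rw [Pi.single_eq_same, zpow_natCast]
  · intro b _ hb
    rw [Pi.single_eq_of_ne hb, zpow_zero]
  · intro h
    exact absurd (Finset.mem_univ a) h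

lemma append_inj {a a' : Fin n0 → ℤ} {μ μ' : Fin v → ℤ}
    (h : Fin.append a μ = Fin.append a' μ') : a = a' ∧ μ = μ' := by
  refine ⟨funext fun s => ?_, funext fun s => ?_⟩
  · have h1 := congrFun h (Fin.castAdd v s)
    rw [Fin.append_left, Fin.append_left] at h1
    exact h1
  · have h1 := congrFun h (Fin.natAdd n0 s)
    rw [Fin.append_right, Fin.append_right] at h1
    exact h1

section evr

variable {F K : Type} [Field F] [Field K] [Algebra F K] {n : ℕ}

lemma evR_single (x : Fin n → K) (a : Fin n → ℤ) (c : F) :
    evR x (AddMonoidAlgebra.single a c : LaurentR F n) = algebraMap F K c * mon x a := by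
  unfold evR
  rw [AddMonoidAlgebra.coeff_single, Finsupp.sum_single_index]
  rw [map_zero, zero_mul]

lemma evR_add (x : Fin n → K) (f g : LaurentR F n) : evR x (f + g) = evR x f + evR x g := by
  unfold evR
  rw [AddMonoidAlgebra.coeff_add, Finsupp.sum_add_index']
  · intro a
    rw [map_zero, zero_mul]
  · intro a b c
    rw [map_add, add_mul]

/-- additive form -/
def evH (x : Fin n → K) : LaurentR F n →+ K where
  toFun := evR x
  map_zero' := by
    unfold evR
    rw [AddMonoidAlgebra.coeff_zero, Finsupp.sum_zero_index]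
  map_add' := evR_add x

lemma evR_sub (x : Fin n → K) (f g : LaurentR F n) : evR x (f - g) = evR x f - evR x g :=
  map_sub (evH x) f g

lemma evR_sum (x : Fin n → K) {ι : Type} (f : ι →₀ F) (g : ι → F → LaurentR F n) :
    evR x (f.sum g) = f.sum fun i c => evR x (g i c) :=
  map_finsuppSum (evH x) f g

lemma evR_upR (x : Fin n0 → K) (u : Fin v → K) (f : LaurentR F n0) :
    evR (Fin.append x u) (upR v f) = evR x f := by
  unfold upR
  rw [evR_sum]
  unfold evR
  refine Finset.sum_congr rfl fun a _ => ?_
  show evR (Fin.append x u) (AddMonoidAlgebra.single (Fin.append a 0) (f.coeff a)) =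
    algebraMap F K (f.coeff a) * mon x a
  rw [evR_single, mon_append, mon_zero, mul_one]

end evr

lemma upR_ne {F : Type} [Field F] [Algebra ℂ F] (f : LaurentR F n0) (hf : f ≠ 0) :
    upR v f ≠ 0 := by
  intro h
  apply hf
  apply AddMonoidAlgebra.ext
  ext a : 1
  have h1 := congrArg (fun f => f.coeff (Fin.append a (0 : Fin v → ℤ))) h
  unfold upR at h1
  rw [AddMonoidAlgebra.coeff_finsuppSum, Finsupp.sum_apply, Finsupp.sum] at h1
  have h2 : ∑ a' ∈ f.coeff.support, (AddMonoidAlgebra.single (Fin.append a' (0 : Fin v → ℤ))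
      (f.coeff a') : LaurentR F (n0 + v)).coeff (Fin.append a 0) = f.coeff a := by
    rw [Finset.sum_eq_single a]
    · rw [AddMonoidAlgebra.coeff_single, Finsupp.single_eq_same]
    · intro b _ hb
      rw [AddMonoidAlgebra.coeff_single, Finsupp.single_eq_of_ne]
      intro h3
      exact hb (append_inj h3).1.symm
    · intro h3
      rw [Finsupp.notMem_support_iff.1 h3, AddMonoidAlgebra.coeff_single, Finsupp.single_zero]
      rfl
  exact h2.symm.trans h1

end KFM

open KFM in
theorem t_KFM (hKXR : S_KXR) (hKLQ : S_KLQ) : S_KFM := by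
  intro F K _ _ _ _ _ _ n0 v r0 b e B t0 E f0 x0 γ m lam w H hterm hdF hpos hdim hdK hE hm hγ
    hunit hroot hgen
  have ht0 : ∀ j l, t0 j l ≠ 0 := fun j l => (H.bundle j j l).1
  have hE0 : ∀ j c, E j c ≠ 0 := fun j c => (hE j j c).1
  have hw : ∀ c, w c ≠ 0 := by
    intro c h
    have h1 := hroot c
    rw [h, zero_pow (hm c).ne'] at h1
    have h2 : mon x0 (lam c) ≠ 0 := by
      unfold mon
      exact Finset.prod_ne_zero_iff.2 fun i _ => zpow_ne_zero _ (H.ne i)
    have h3 : algebraMap F K (γ c) ≠ 0 := by
      rw [Ne, map_eq_zero]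
      exact hγ c
    exact mul_ne_zero h3 h2 h1.symm
  have key : ∀ (ν : Fin (n0 + v) → ℤ) (j : Fin (B.N + 1)) (I : Ideal (B.ring j)),
      I.IsMaximal → ∃ G, IsLocEq (fun i => polyT (Fin.append (t0 j) (E j))
        (kum f0 γ m lam i)) I G ∧ RegularOver b (fun i => initFormR (G i) ν) I := by
    intro ν j I hI
    choose ε hε using fun c => hunit j c
    obtain ⟨G, hG1, hG2⟩ := H.nondeg (fun l => ν (Fin.castAdd v l)) j I hI
    have hft : Algebra.FiniteType ℂ (B.ring j) := by
      rw [← Subalgebra.fg_iff_finiteType]
      refine ⟨(Set.finite_range fun k => B.s k / B.s j).toFinset, ?_⟩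
      rw [Set.Finite.coe_toFinset]
      rfl
    exact ⟨kum G ε m lam, hKLQ B j (t0 j) (E j) f0 γ m lam G ε I hI (ht0 j) (hE0 j) hm
      (fun c => (hε c).2) hG1,
      hKXR G ε m lam hft (fun a => (hε a).1) hm I hI ν hG2⟩
  exact {
    bundle := by
      intro j j' k
      refine Fin.addCases (fun s => ?_) (fun s => ?_) k
      · simp only [Fin.append_left]
        exact H.bundle j j' s
      · simp only [Fin.append_right]
        exact hE j j' s
    dim_eq := by omega
    pos := hpos
    f_ne := by
      intro i
      unfold kum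
      refine Fin.addCases (fun s => ?_) (fun s => ?_) i
      · rw [Fin.append_left]
        exact upR_ne _ (H.f_ne s)
      · rw [Fin.append_right]
        intro h
        have h1 := congrArg (fun f => f.coeff (Fin.append (0 : Fin n0 → ℤ)
          (Pi.single s (m s : ℤ)))) (sub_eq_zero.1 h)
        simp only [AddMonoidAlgebra.coeff_single] at h1
        rw [Finsupp.single_eq_same, Finsupp.single_eq_of_ne] at h1
        · exact one_ne_zero h1
        · intro h2
          have h3 := congrFun (append_inj h2).2 s
          have h4 := hm s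
          simp at h3
          omega
    ne := by
      intro i
      refine Fin.addCases (fun s => ?_) (fun s => ?_) i
      · rw [Fin.append_left]; exact H.ne s
      · rw [Fin.append_right]; exact hw s
    gen := by
      rw [eq_top_iff, ← hgen]
      apply IntermediateField.adjoin.mono
      rintro _ (⟨k, rfl⟩ | ⟨a, rfl⟩)
      · exact ⟨Fin.castAdd v k, by rw [Fin.append_left]⟩
      · exact ⟨Fin.natAdd n0 a, by rw [Fin.append_right]⟩
    dim_base := hdF
    terminal := hterm
    dim := hdK
    zero := by
      intro i
      unfold kum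
      refine Fin.addCases (fun s => ?_) (fun s => ?_) i
      · rw [Fin.append_left, evR_upR]
        exact H.zero s
      · rw [Fin.append_right, evR_sub, evR_single, evR_single, mon_append, mon_append, mon_single,
          mon_zero, mon_zero, map_one, one_mul, one_mul, mul_one, hroot s, sub_self]
    loc := by
      intro j I hI
      obtain ⟨G, h1, -⟩ := key 0 j I hI
      exact ⟨G, h1⟩
    nondeg := fun ν _ j I hI => key ν j I hI
    inner := fun j => Or.inl fun I hI => key 0 j I hI }

end

end FNC
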