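import Pool.Agent.FNC.StA
import Pool.Agent.KUM.LEQ

/-!
# Abelian covers (MP_fa3f7f_ag), module KLQ: local equations for the extended system
-/

set_option autoImplicit false

namespace FNC

open MldX MMCI MMCX RMX

noncomputable section

namespace KLQ

open Classical in
theorem upR_coeff {R : Type} [CommRing R] {n0 v : ℕ} (f : LaurentR R n0) (a : Fin n0 → ℤ)
    (μ : Fin v → ℤ) :
    (upR v f).coeff (Fin.append a μ) = if μ = 0 then f.coeff a else 0 := by
  have h : (upR v f).coeff (Fin.append a μ) =
      ∑ a' ∈ f.coeff.support, if Fin.append a' (0 : Fin v → ℤ) = Fin.append a μ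
        then f.coeff a' else 0 := by
    unfold upR Finsupp.sum
    rw [AddMonoidAlgebra.coeff_sum, Finsupp.finsetSum_apply]
    simp only [AddMonoidAlgebra.coeff_single, Finsupp.single_apply]
  have hinj : ∀ a' : Fin n0 → ℤ, Fin.append a' (0 : Fin v → ℤ) = Fin.append a μ ↔
      a' = a ∧ μ = 0 := by
    intro a'
    constructor
    · intro h
      refine ⟨?_, ?_⟩
      · funext i
        have := congrFun h (Fin.castAdd v i)
        simpa using this
      · funext i
        have := congrFun h (Fin.natAdd n0 i)
        simpa using this.symm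
    · rintro ⟨rfl, rfl⟩
      rfl
  rw [h]
  by_cases hμ : μ = 0
  · rw [if_pos hμ]
    rw [Finset.sum_eq_single a]
    · rw [if_pos ((hinj a).2 ⟨rfl, hμ⟩)]
    · intro a' _ hne
      rw [if_neg]
      exact fun h => hne ((hinj a').1 h).1
    · intro h
      rw [Finsupp.notMem_support_iff.1 h, ite_self]
  · rw [if_neg hμ]
    refine Finset.sum_eq_zero fun a' _ => ?_
    rw [if_neg]
    exact fun h => hμ ((hinj a').1 h).2

theorem mon_append {F : Type} [Field F] {n0 v : ℕ} (t0 : Fin n0 → F) (E : Fin v → F)
    (a : Fin n0 → ℤ) (μ : Fin v → ℤ) :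
    mon (Fin.append t0 E) (Fin.append a μ) = mon t0 a * mon E μ := by
  unfold mon
  rw [Fin.prod_univ_add]
  simp only [Fin.append_left, Fin.append_right]

theorem append_surj {n0 v : ℕ} (b : Fin (n0 + v) → ℤ) :
    ∃ (a : Fin n0 → ℤ) (μ : Fin v → ℤ), b = Fin.append a μ :=
  ⟨fun i => b (Fin.castAdd v i), fun i => b (Fin.natAdd n0 i),
    (Fin.append_castAdd_natAdd (f := b)).symm⟩

end KLQ

open KLQ in
open Classical in
theorem t_KLQ : S_KLQ := by
  intro F _ _ n0 v r0 B j t0 E f0 γ m lam g0 ε I hI ht0 hE hm hγ hloc i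
  have h1m : (1 : B.ring j) ∉ I := fun h => hI.ne_top ((Ideal.eq_top_iff_one I).2 h)
  refine Fin.addCases (fun i => ?_) (fun c => ?_) i
  · obtain ⟨⟨u, hu, hcoef⟩, a, ha⟩ := hloc i
    constructor
    · refine ⟨u, hu, ?_⟩
      intro b
      obtain ⟨a, μ, rfl⟩ := append_surj b
      rw [KUM.LEQ.polyT_coeff]
      unfold kum
      simp only [Fin.append_left]
      rw [upR_coeff, upR_coeff, mon_append]
      have h2 := hcoef a
      rw [KUM.LEQ.polyT_coeff] at h2
      by_cases hμ : μ = 0
      · subst hμ
        rw [if_pos rfl, if_pos rfl, KUM.LEQ.mon_zero, mul_one]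
        exact h2
      · rw [if_neg hμ, if_neg hμ, map_zero, mul_zero, zero_mul]
    · refine ⟨Fin.append a 0, ?_⟩
      unfold kum
      simp only [Fin.append_left]
      rw [upR_coeff, if_pos rfl]
      exact ha
  · constructor
    · refine ⟨E c ^ m c, pow_ne_zero _ (hE c), ?_⟩
      intro b
      rw [KUM.LEQ.polyT_coeff]
      unfold kum
      simp only [Fin.append_right]
      rw [AddMonoidAlgebra.coeff_sub, AddMonoidAlgebra.coeff_sub]
      simp only [Finsupp.sub_apply, AddMonoidAlgebra.coeff_single, Finsupp.single_apply]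
      rw [sub_mul, map_sub, mul_sub]
      congr 1
      · split_ifs with h
        · subst h
          rw [mon_append, KUM.LEQ.mon_zero, KUM.LEQ.mon_single, map_one, zpow_natCast]
          ring
        · rw [map_zero, mul_zero, zero_mul]
      · split_ifs with h
        · subst h
          rw [mon_append, KUM.LEQ.mon_zero, mul_one]
          have h3 := hγ c
          show γ c * mon t0 (lam c) = E c ^ m c * (ε c : F)
          rw [← h3]
          ring
        · rw [map_zero, mul_zero, zero_mul]
    · refine ⟨Fin.append 0 (Pi.single c (m c : ℤ)), ?_⟩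
      unfold kum
      simp only [Fin.append_right]
      rw [AddMonoidAlgebra.coeff_sub]
      simp only [Finsupp.sub_apply, AddMonoidAlgebra.coeff_single, Finsupp.single_apply]
      have h0 : ¬ (Fin.append (lam c) 0 : Fin (n0 + v) → ℤ) =
          Fin.append 0 (Pi.single c (m c : ℤ)) := by
        intro h
        have h2 := congrFun h (Fin.natAdd n0 c)
        rw [Fin.append_right, Fin.append_right, Pi.single_eq_same] at h2
        have h3 := hm c
        have h4 : (0 : ℤ) = (m c : ℤ) := h2
        omega
      rw [if_pos trivial, if_neg h0, sub_zero]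
      exact h1m

end

end FNC
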