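import Pool.Agent.FNC.StC

/-!
# The theorem for roots over a nondegenerate family
-/

set_option autoImplicit false

namespace FNC

open MvPolynomial NCC MldX MMCI MMCX RMX

noncomputable section

theorem t_KMT (hKFM : S_KFM) (hKNF : S_KNF) (hFINU : S_FINU) : S_KMT := by
  intro F K _ _ _ _ _ _ n0 v r0 b e B t0 E f0 x0 γ m lam w hND hT hbF hpos hn hK hE hm hγ hε hw
    hgen hB hC
  have hfam := hKFM B t0 E f0 x0 γ m lam w hND hT hbF hpos hn hK hE hm hγ hε hw hgen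
  have ht0 : ∀ j l, t0 j l ≠ 0 := fun j l => (hND.bundle j j l).1
  have hE0 : ∀ j c, E j c ≠ 0 := fun j c => (hE j j c).1
  have hn : ∀ j (z : F), IsIntegral (B.ring j) z → z ∈ B.ring j := fun j z hz => (hT j).1 z hz
  obtain ⟨c1, c2⟩ := hKNF B t0 E f0 γ m lam hbF hn ht0 hE0 hm hγ hε
  obtain ⟨Y, hY, hY'⟩ := hFINU B _ _ _ hfam (Or.inl ⟨hB, Or.inr (Or.inr (c1 hC))⟩)
  refine ⟨Y, hY, ?_⟩
  rcases hY' with ⟨h1, h2⟩ | ⟨h1, -⟩
  · exact Or.inl ⟨h1, fun h3 h4 => h2 (Or.inl ⟨h3, Or.inr (Or.inr (c2 h4))⟩)⟩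
  · exact Or.inr h1

end

end FNC
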