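import Pool.Agent.FNC.StA
import Pool.Agent.KUM.CFN

/-!
# Families with normal crossings (MP_fa3f7f_ag): nef line bundles of the extended system
-/

set_option autoImplicit false

namespace FNC

open MldX MMCI MMCX RMX

noncomputable section

namespace KNF

open KUM.CFN

section Coeff

variable {F : Type} [Field F]

theorem mon_append {n0 v : ℕ} (x : Fin n0 → F) (y : Fin v → F) (a : Fin n0 → ℤ) (μ : Fin v → ℤ) :
    mon (Fin.append x y) (Fin.append a μ) = mon x a * mon y μ := by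
  unfold mon
  rw [Fin.prod_univ_add]
  simp only [Fin.append_left, Fin.append_right]

theorem append_inj {n0 v : ℕ} {a a' : Fin n0 → ℤ} {μ μ' : Fin v → ℤ}
    (h : Fin.append a μ = Fin.append a' μ') : a = a' ∧ μ = μ' := by
  refine ⟨funext fun s => ?_, funext fun k => ?_⟩
  · have := congrFun h (Fin.castAdd v s)
    rwa [Fin.append_left, Fin.append_left] at this
  · have := congrFun h (Fin.natAdd n0 k)
    rwa [Fin.append_right, Fin.append_right] at this

theorem append_ne {n0 v : ℕ} {x : Fin n0 → F} {y : Fin v → F} (hx : ∀ l, x l ≠ 0)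
    (hy : ∀ l, y l ≠ 0) (i : Fin (n0 + v)) : Fin.append x y i ≠ 0 := by
  refine Fin.addCases (fun s => ?_) (fun s => ?_) i
  · rw [Fin.append_left]; exact hx s
  · rw [Fin.append_right]; exact hy s

theorem coeff_upR {n0 : ℕ} (v : ℕ) (f : LaurentR F n0) (a : Fin n0 → ℤ) :
    (upR v f).coeff (Fin.append a 0) = f.coeff a := by
  unfold upR
  rw [AddMonoidAlgebra.coeff_finsuppSum, Finsupp.sum_apply, Finsupp.sum]
  by_cases ha : a ∈ f.coeff.support
  · rw [Finset.sum_eq_single_of_mem a ha]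
    · rw [AddMonoidAlgebra.coeff_single, Finsupp.single_eq_same]
    · intro b _ hb
      rw [AddMonoidAlgebra.coeff_single, Finsupp.single_apply, if_neg]
      exact fun h => hb (append_inj h).1
  · rw [Finset.sum_eq_zero, Finsupp.notMem_support_iff.1 ha]
    intro b hb
    have hba : b ≠ a := fun h => ha (h ▸ hb)
    rw [AddMonoidAlgebra.coeff_single, Finsupp.single_apply, if_neg]
    exact fun h => hba (append_inj h).1

theorem supp_upR {n0 : ℕ} (v : ℕ) (f : LaurentR F n0) (a' : Fin (n0 + v) → ℤ) :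
    a' ∈ (upR v f).coeff.support ↔ ∃ a ∈ f.coeff.support, a' = Fin.append a 0 := by
  constructor
  · intro h
    have hc : (upR v f).coeff a' =
        ∑ a ∈ f.coeff.support, if Fin.append a 0 = a' then f.coeff a else 0 := by
      unfold upR
      rw [AddMonoidAlgebra.coeff_finsuppSum, Finsupp.sum_apply, Finsupp.sum]
      refine Finset.sum_congr rfl fun a _ => ?_
      rw [AddMonoidAlgebra.coeff_single, Finsupp.single_apply]
    rw [Finsupp.mem_support_iff, hc] at h
    obtain ⟨a, ha, hne⟩ := Finset.exists_ne_zero_of_sum_ne_zero h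
    refine ⟨a, ha, ?_⟩
    by_contra h1
    exact hne (if_neg fun h => h1 h.symm)
  · rintro ⟨a, ha, rfl⟩
    rw [Finsupp.mem_support_iff, coeff_upR]
    exact Finsupp.mem_support_iff.1 ha

theorem divOrd_raw [Algebra ℂ F] {b n r : ℕ} (ω : Forms b F) {t : Fin n → F} (ht : ∀ k, t k ≠ 0)
    (f : Fin r → LaurentR F n) (i : Fin r) (a : Fin n → ℤ) (v : DivVal b F) :
    divOrdT ω t f 0 (Pi.single i 1) a v =
      -sInf ((fun a => v.ord ((f i).coeff a * mon t a)) '' ((f i).coeff.support :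
        Set (Fin n → ℤ))) + v.ord (mon t a) := by
  unfold divOrdT
  rw [Finset.sum_eq_single i]
  · rw [Pi.single_eq_same, supp_polyT ht]
    simp only [coeff_polyT]
    push_cast
    ring
  · intro i' _ hi'
    rw [Pi.single_eq_of_ne hi']
    push_cast
    ring
  · intro h
    exact absurd (Finset.mem_univ _) h

end Coeff

section Main

variable {F : Type} [Field F] [Algebra ℂ F] {n0 v r0 b : ℕ}

/-- the equations of `f0` -/
theorem old (B : ProjModel F) (t0 : Fin (B.N + 1) → Fin n0 → F) (E : Fin (B.N + 1) → Fin v → F)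
    (f0 : Fin r0 → LaurentR F n0) (γ : Fin v → F) (m : Fin v → ℕ) (lam : Fin v → Fin n0 → ℤ)
    (ht : ∀ j l, t0 j l ≠ 0) (hE : ∀ j c, E j c ≠ 0) (i0 : Fin r0) (a : Fin n0 → ℤ)
    (ω : Forms b F) (j : Fin (B.N + 1)) (w : DivVal b F) :
    divOrdT ω (Fin.append (t0 j) (E j)) (kum f0 γ m lam) 0 (Pi.single (Fin.castAdd v i0) 1)
      (Fin.append a 0) w = divOrdT ω (t0 j) f0 0 (Pi.single i0 1) a w := by
  have hf : kum f0 γ m lam (Fin.castAdd v i0) = upR v (f0 i0) := by
    unfold kum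
    rw [Fin.append_left]
  have hm : ∀ a : Fin n0 → ℤ, mon (Fin.append (t0 j) (E j)) (Fin.append a 0) = mon (t0 j) a := by
    intro a
    rw [mon_append, mon_zero, mul_one]
  rw [divOrd_raw ω (append_ne (ht j) (hE j)), divOrd_raw ω (ht j), hf, hm]
  congr 3
  ext z
  constructor
  · rintro ⟨a', ha', rfl⟩
    obtain ⟨a₁, h₁, rfl⟩ := (supp_upR v (f0 i0) a').1 ha'
    refine ⟨a₁, h₁, ?_⟩
    simp only [coeff_upR, hm]
  · rintro ⟨a₁, h₁, rfl⟩
    refine ⟨Fin.append a₁ 0, (supp_upR v (f0 i0) _).2 ⟨a₁, h₁, rfl⟩, ?_⟩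
    simp only [coeff_upR, hm]

/-- the new equations -/
theorem new (B : ProjModel F) (t0 : Fin (B.N + 1) → Fin n0 → F) (E : Fin (B.N + 1) → Fin v → F)
    (f0 : Fin r0 → LaurentR F n0) (γ : Fin v → F) (m : Fin v → ℕ) (lam : Fin v → Fin n0 → ℤ)
    (ht : ∀ j l, t0 j l ≠ 0) (hE : ∀ j c, E j c ≠ 0) (hmp : ∀ c, 0 < m c) (hγ : ∀ c, γ c ≠ 0)
    (hu : ∀ (j : Fin (B.N + 1)) (c : Fin v), ∃ ε : B.ring j, IsUnit ε ∧
      (ε : F) * E j c ^ m c = γ c * mon (t0 j) (lam c))
    (c : Fin v) (a : Fin (n0 + v) → ℤ)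
    (ha : a ∈ (kum f0 γ m lam (Fin.natAdd r0 c)).coeff.support) :
    ∃ h0 : F, h0 ≠ 0 ∧ ∀ (ω : Forms b F) (j : Fin (B.N + 1)) (w : DivVal b F)
      (P : Ideal (B.ring j)), IsPrimeDivisor (B.ring j) w P →
      divOrdT ω (Fin.append (t0 j) (E j)) (kum f0 γ m lam) 0 (Pi.single (Fin.natAdd r0 c) 1) a w =
        w.ord h0 := by
  have hf : kum f0 γ m lam (Fin.natAdd r0 c) =
      AddMonoidAlgebra.single (Fin.append 0 (Pi.single c (m c : ℤ))) 1 -
        AddMonoidAlgebra.single (Fin.append (lam c) 0) (γ c) := by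
    unfold kum
    rw [Fin.append_right]
  have hne : (Fin.append 0 (Pi.single c (m c : ℤ)) : Fin (n0 + v) → ℤ) ≠
      Fin.append (lam c) 0 := by
    intro h
    have h1 := congrFun (append_inj h).2 c
    rw [Pi.single_eq_same, Pi.zero_apply] at h1
    have := hmp c
    omega
  have hdiv : ∀ (ω : Forms b F) (j : Fin (B.N + 1)) (w : DivVal b F)
      (P : Ideal (B.ring j)), IsPrimeDivisor (B.ring j) w P →
      w.ord (E j c ^ m c) = w.ord (γ c) + w.ord (mon (t0 j) (lam c)) ∧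
      divOrdT ω (Fin.append (t0 j) (E j)) (kum f0 γ m lam) 0
        (Pi.single (Fin.natAdd r0 c) 1) a w =
        -w.ord (E j c ^ m c) + w.ord (mon (Fin.append (t0 j) (E j)) a) := by
    intro ω j w P hP
    obtain ⟨ε, hε, hεg⟩ := hu j c
    have hm0 : mon (t0 j) (lam c) ≠ 0 := mon_ne (ht j) _
    have hE0 : E j c ^ m c ≠ 0 := pow_ne_zero _ (hE j c)
    have hε0 : (ε : F) ≠ 0 := fun h => by
      rw [h, zero_mul] at hεg
      exact mul_ne_zero (hγ c) hm0 hεg.symm
    have h5 : w.ord (E j c ^ m c) = w.ord (γ c * mon (t0 j) (lam c)) := by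
      rw [← hεg, w.ord_mul _ _ hε0 hE0, ord_unit hP hε, zero_add]
    refine ⟨by rw [h5, w.ord_mul _ _ (hγ c) hm0], ?_⟩
    have e1 : w.ord (1 * mon (Fin.append (t0 j) (E j))
        (Fin.append 0 (Pi.single c (m c : ℤ)))) = w.ord (E j c ^ m c) := by
      rw [one_mul, mon_append, mon_zero, one_mul, mon_single, zpow_natCast]
    have e2 : w.ord (γ c * mon (Fin.append (t0 j) (E j)) (Fin.append (lam c) 0)) =
        w.ord (E j c ^ m c) := by
      rw [mon_append, mon_zero, mul_one, h5]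
    rw [divOrd_two ω (append_ne (ht j) (hE j)) _ _ a w hne one_ne_zero (hγ c) hf, e1, e2,
      min_self]
  rw [hf] at ha
  rcases ((two_terms hne one_ne_zero (hγ c)).2.2 a).1 ha with rfl | rfl
  · refine ⟨1, one_ne_zero, fun ω j w P hP => ?_⟩
    rw [(hdiv ω j w P hP).2, mon_append, mon_zero, one_mul, mon_single, zpow_natCast, ord_one]
    ring
  · refine ⟨(γ c)⁻¹, inv_ne_zero (hγ c), fun ω j w P hP => ?_⟩
    rw [(hdiv ω j w P hP).2, (hdiv ω j w P hP).1, mon_append, mon_zero, mul_one,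
      ord_inv w (hγ c)]
    ring

end Main

end KNF

open KNF in
theorem t_KNF (hPRN : KUM.S_PRN) (hCNG : KUM.S_CNG) : S_KNF := by
  intro F _ _ n0 v r0 b B t0 E f0 γ m lam hdim hnorm ht hE hm hγ hu
  have hold : ∀ (i0 : Fin r0) (a : Fin (n0 + v) → ℤ),
      a ∈ (kum f0 γ m lam (Fin.castAdd v i0)).coeff.support →
      ∃ a₁ ∈ (f0 i0).coeff.support, a = Fin.append a₁ 0 := by
    intro i0 a ha
    have hf : kum f0 γ m lam (Fin.castAdd v i0) = upR v (f0 i0) := by
      unfold kum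
      rw [Fin.append_left]
    rw [hf] at ha
    exact (supp_upR v (f0 i0) a).1 ha
  constructor
  · intro hN i a
    refine Fin.addCases (fun i0 => ?_) (fun c => ?_) i
    · intro ha
      obtain ⟨a₁, h₁, rfl⟩ := hold i0 a ha
      exact (hCNG B (fun j => Fin.append (t0 j) (E j)) (kum f0 γ m lam)
        (Pi.single (Fin.castAdd v i0) 1) (Fin.append a₁ 0) t0 f0 (Pi.single i0 1) a₁
        (fun ω j w P _ => old B t0 E f0 γ m lam ht hE i0 a₁ ω j w)).1 (hN i0 a₁ h₁)
    · intro ha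
      obtain ⟨h0, hh0, h⟩ := new (b := b) B t0 E f0 γ m lam ht hE hm hγ hu c a ha
      exact (hPRN B (fun j => Fin.append (t0 j) (E j)) (kum f0 γ m lam)
        (Pi.single (Fin.natAdd r0 c) 1) a h0 hdim hnorm hh0 h).1
  · intro hN i a
    refine Fin.addCases (fun i0 => ?_) (fun c => ?_) i
    · intro ha
      obtain ⟨a₁, h₁, rfl⟩ := hold i0 a ha
      exact (hCNG B (fun j => Fin.append (t0 j) (E j)) (kum f0 γ m lam)
        (Pi.single (Fin.castAdd v i0) 1) (Fin.append a₁ 0) t0 f0 (Pi.single i0 1) a₁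
        (fun ω j w P _ => old B t0 E f0 γ m lam ht hE i0 a₁ ω j w)).2 (hN i0 a₁ h₁)
    · intro ha
      obtain ⟨h0, hh0, h⟩ := new (b := b) B t0 E f0 γ m lam ht hE hm hγ hu c a ha
      exact (hPRN B (fun j => Fin.append (t0 j) (E j)) (kum f0 γ m lam)
        (Pi.single (Fin.natAdd r0 c) 1) a h0 hdim hnorm hh0 h).2

end

end FNC
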