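import Pool.Agent.FNC.StA
import Pool.Agent.KUM.INI

/-!
Module FNC_KXR (MP_fa3f7f_ag): adjoining roots preserves nondegeneracy.
-/

set_option autoImplicit false

namespace FNC

open MvPolynomial NCC MldX MMCI MMCX RMX

noncomputable section

namespace KXR

theorem mon_ne {n : ℕ} {c : Fin n → ℂ} (hc : ∀ k, c k ≠ 0) (a : Fin n → ℤ) : mon c a ≠ 0 :=
  Finset.prod_ne_zero_iff.2 fun i _ => zpow_ne_zero _ (hc i)

theorem mon_zero {n : ℕ} (c : Fin n → ℂ) : mon c 0 = 1 :=
  Finset.prod_eq_one fun _ _ => zpow_zero _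

variable {n0 v r0 : ℕ} {R : Type} [CommRing R] [Algebra ℂ R]

/-- The evaluation as a ring homomorphism. -/
def evH (hEVA : KUM.S_EVA) (χ : R →ₐ[ℂ] ℂ) (c : Fin n0 → ℂ) (hc : ∀ k, c k ≠ 0) :
    LaurentR R n0 →+* ℂ :=
  RingHom.mk' ⟨⟨KUM.evp χ c, by
    have h := (hEVA χ c hc).1 0 1
    rw [map_one, mon_zero, mul_one] at h
    exact h⟩, (hEVA χ c hc).2.2.2.1⟩ (hEVA χ c hc).2.2.1

theorem evH_apply (hEVA : KUM.S_EVA) (χ : R →ₐ[ℂ] ℂ) (c : Fin n0 → ℂ) (hc : ∀ k, c k ≠ 0)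
    (h : LaurentR R n0) : evH hEVA χ c hc h = KUM.evp χ c h := rfl

/-- The derivative of the binomial in the direction of a new variable. -/
theorem der_bin (hEVA : KUM.S_EVA) (χ : R →ₐ[ℂ] ℂ) (c : Fin (n0 + v) → ℂ) (hc : ∀ k, c k ≠ 0)
    (m : Fin v → ℕ) (lam : Fin v → Fin n0 → ℤ) (ε : Fin v → R) (a a' : Fin v) :
    KUM.evp χ c (derR (Fin.natAdd n0 a)
      (AddMonoidAlgebra.single (Fin.append 0 (Pi.single a' (m a' : ℤ))) 1 -
        AddMonoidAlgebra.single (Fin.append (lam a') 0) (ε a') : LaurentR R (n0 + v))) =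
      if a' = a then (m a' : ℂ) * mon c (Fin.append 0 (Pi.single a' (m a' : ℤ))) else 0 := by
  obtain ⟨e1, -, e3, -, -, -, -, -, e9, e10, -, -, -⟩ := hEVA χ c hc
  let E : LaurentR R (n0 + v) →+ ℂ := AddMonoidHom.mk' (KUM.evp χ c) e3
  let D : LaurentR R (n0 + v) →+ LaurentR R (n0 + v) :=
    AddMonoidHom.mk' (derR (Fin.natAdd n0 a)) (e10 _)
  have hE : ∀ h, KUM.evp χ c h = E h := fun _ => rfl
  have hD : ∀ h, derR (Fin.natAdd n0 a) h = D h := fun _ => rfl
  rw [hD, map_sub, ← hD, ← hD, e9, e9, hE, map_sub, ← hE, ← hE, e1, e1, Fin.append_right,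
    Fin.append_right]
  by_cases h : a' = a
  · subst h
    simp
  · rw [if_neg h, Pi.single_eq_of_ne (Ne.symm h)]
    simp

theorem core (hEVA : KUM.S_EVA) (hRHO : S_RHO) {b : ℕ} (g0 : Fin r0 → LaurentR R n0)
    (g : Fin (r0 + v) → LaurentR R (n0 + v)) (ε : Fin v → R) (m : Fin v → ℕ)
    (lam : Fin v → Fin n0 → ℤ) (hm : ∀ a, 0 < m a) (I : Ideal R)
    (M : Ideal (LaurentR R (n0 + v))) (χ : R →ₐ[ℂ] ℂ) (c : Fin (n0 + v) → ℂ)
    (hc : ∀ k, c k ≠ 0) (hχ : ∀ z, z ∈ I ↔ χ z = 0) (hev : ∀ h, h ∈ M ↔ KUM.evp χ c h = 0)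
    (hG : ∀ i, g i ∈ M) (hgl : ∀ i, g (Fin.castAdd v i) = upR v (g0 i))
    (hgr : ∀ a, g (Fin.natAdd r0 a) =
      AddMonoidAlgebra.single (Fin.append 0 (Pi.single a (m a : ℤ))) 1 -
        AddMonoidAlgebra.single (Fin.append (lam a) 0) (ε a))
    (hreg : RegularOver b g0 I) :
    ((∃ y : Fin b → R, I = Ideal.span (Set.range y) ⊔ I ^ 2) ∧
      ∀ t : Fin (r0 + v) → ℂ, ∑ i, t i • g i ∈ M ^ 2 → t = 0) ∨
    ∀ t : Fin (r0 + v) → ℂ, (∀ k, ∑ i, t i • derR k (g i) ∈ M) → t = 0 := by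
  obtain ⟨e1, -, e3, e4, -, -, -, e8, e9, e10, e11, -, e13⟩ := hEVA χ c hc
  have happ : Fin.append (fun l => c (Fin.castAdd v l)) (fun a => c (Fin.natAdd n0 a)) = c := by
    funext k
    refine Fin.addCases (fun l => ?_) (fun a => ?_) k
    · rw [Fin.append_left]
    · rw [Fin.append_right]
  have hc0 : ∀ l, (fun l => c (Fin.castAdd v l)) l ≠ 0 := fun l => hc _
  have hcu : ∀ a, (fun a => c (Fin.natAdd n0 a)) a ≠ 0 := fun a => hc _
  obtain ⟨r1, r2, r3, r4, r5, r6, r7, r8, r9, r10, -⟩ := hRHO χ _ _ hc0 hcu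
  simp only [happ] at r1 r7
  set c0 : Fin n0 → ℂ := fun l => c (Fin.castAdd v l) with hc0d
  set cu : Fin v → ℂ := fun a => c (Fin.natAdd n0 a) with hcud
  obtain ⟨f1, -, f3, -, -, -, -, f8, -, f10, f11, -, -⟩ := hEVA χ c0 hc0
  -- additive maps
  let E : LaurentR R (n0 + v) →+ ℂ := AddMonoidHom.mk' (KUM.evp χ c) e3
  let D : Fin (n0 + v) → (LaurentR R (n0 + v) →+ LaurentR R (n0 + v)) :=
    fun k => AddMonoidHom.mk' (derR k) (e10 k)
  let U : LaurentR R n0 →+ LaurentR R (n0 + v) := AddMonoidHom.mk' (upR v) r2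
  let P : LaurentR R (n0 + v) →+ LaurentR R n0 := AddMonoidHom.mk' (rho cu) r4
  have hE : ∀ h, KUM.evp χ c h = E h := fun _ => rfl
  have hD : ∀ k h, derR k h = D k h := fun _ _ => rfl
  have hU : ∀ h, upR v h = U h := fun _ => rfl
  have hP : ∀ h, rho cu h = P h := fun _ => rfl
  -- the coefficients of the new equations
  have key : ∀ t : Fin (r0 + v) → ℂ,
      (∀ a, KUM.evp χ c (∑ i, t i • derR (Fin.natAdd n0 a) (g i)) = 0) →
      ∀ a, t (Fin.natAdd r0 a) = 0 := by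
    intro t ht a
    have h := ht a
    rw [Fin.sum_univ_add, hE, map_add, map_sum, map_sum,
      Finset.sum_eq_zero (fun i _ => by rw [hgl, r10, smul_zero, map_zero]), zero_add,
      Finset.sum_eq_single a] at h
    · rw [← hE, (e8 _ _).1, hgr, der_bin hEVA χ c hc m lam ε a a, if_pos rfl] at h
      exact (mul_eq_zero.1 h).resolve_right
        (mul_ne_zero (by exact_mod_cast (hm a).ne') (mon_ne hc _))
    · intro a' _ ha'
      rw [← hE, (e8 _ _).1, hgr, der_bin hEVA χ c hc m lam ε a a', if_neg ha', mul_zero]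
    · exact fun h => absurd (Finset.mem_univ _) h
  -- the point below
  let φ : LaurentR R n0 →+* ℂ := evH hEVA χ c0 hc0
  have hφ : ∀ h, φ h = KUM.evp χ c0 h := fun _ => rfl
  have hsurj : Function.Surjective φ := by
    intro t
    refine ⟨AddMonoidAlgebra.single 0 (algebraMap ℂ R t), ?_⟩
    rw [hφ, f1, mon_zero, mul_one, AlgHom.commutes]
    rfl
  have hM0 : (RingHom.ker φ).IsMaximal := RingHom.ker_isMaximal_of_surjective φ hsurj
  have hM0I : (RingHom.ker φ).comap (algebraMap R (LaurentR R n0)) = I := by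
    ext z
    rw [Ideal.mem_comap, RingHom.mem_ker, hχ, hφ]
    have h : algebraMap R (LaurentR R n0) z = AddMonoidAlgebra.single 0 z := by
      rw [AddMonoidAlgebra.coe_algebraMap]
      rfl
    rw [h, f1, mon_zero, mul_one]
  have hmem : ∀ h, h ∈ RingHom.ker φ ↔ KUM.evp χ c0 h = 0 := fun h => RingHom.mem_ker
  have hg0 : ∀ i, g0 i ∈ RingHom.ker φ := by
    intro i
    rw [hmem, ← r1, ← hgl]
    exact (hev _).1 (hG _)
  -- the restriction
  have hrM : ∀ h ∈ M, rho cu h ∈ RingHom.ker φ := by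
    intro h hh
    rw [hmem, r7]
    exact (hev h).1 hh
  have hrM2 : ∀ h ∈ M ^ 2, rho cu h ∈ RingHom.ker φ ^ 2 := by
    intro h hh
    rw [pow_two] at hh ⊢
    refine Submodule.mul_induction_on hh (fun x hx y hy => ?_) fun x y hx hy => ?_
    · rw [r5]
      exact Submodule.mul_mem_mul (hrM x hx) (hrM y hy)
    · rw [r4]
      exact add_mem hx hy
  rcases hreg (RingHom.ker φ) hM0 hM0I hg0 with ⟨hy, hA⟩ | hB
  · left
    refine ⟨hy, fun t ht => ?_⟩
    have h1 := (e13 I M hχ hev _ ht).1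
    have ha : ∀ a, t (Fin.natAdd r0 a) = 0 := by
      refine key t fun a => ?_
      rw [← h1 (Fin.natAdd n0 a)]
      congr 1
      rw [hD, map_sum]
      refine Finset.sum_congr rfl fun i _ => ?_
      rw [← hD, e11]
    have h2 := hrM2 _ ht
    rw [Fin.sum_univ_add, Finset.sum_eq_zero (s := Finset.univ) (f := fun a : Fin v =>
      t (Fin.natAdd r0 a) • g (Fin.natAdd r0 a)) (fun a _ => by rw [ha, zero_smul]), add_zero,
      hP, map_sum, Finset.sum_congr rfl (fun i _ => by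
        rw [hgl, ← hP, r6, r8] : ∀ i ∈ Finset.univ, P (t (Fin.castAdd v i) •
          g (Fin.castAdd v i)) = t (Fin.castAdd v i) • g0 i)] at h2
    have h3 := hA (fun i => t (Fin.castAdd v i)) h2
    funext i
    exact Fin.addCases (fun i => congrFun h3 i) (fun a => ha a) i
  · right
    intro t ht
    have ha : ∀ a, t (Fin.natAdd r0 a) = 0 := key t fun a => (hev _).1 (ht _)
    have h3 := hB (fun i => t (Fin.castAdd v i)) fun l => by
      have h2 := (hev _).1 (ht (Fin.castAdd v l))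
      rw [Fin.sum_univ_add, Finset.sum_eq_zero (s := Finset.univ) (f := fun a : Fin v =>
        t (Fin.natAdd r0 a) • derR (Fin.castAdd v l) (g (Fin.natAdd r0 a)))
        (fun a _ => by rw [ha, zero_smul]), add_zero,
        Finset.sum_congr rfl (fun i _ => by
          rw [hgl, r9, ← r3] : ∀ i ∈ Finset.univ, t (Fin.castAdd v i) •
            derR (Fin.castAdd v l) (g (Fin.castAdd v i)) =
            upR v (t (Fin.castAdd v i) • derR l (g0 i)))] at h2
      have h4 : ∑ i : Fin r0, upR v (t (Fin.castAdd v i) • derR l (g0 i)) =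
          upR v (∑ i : Fin r0, t (Fin.castAdd v i) • derR l (g0 i)) := by
        rw [hU, map_sum]
        rfl
      rw [h4, r1] at h2
      exact (hmem _).2 h2
    funext i
    exact Fin.addCases (fun i => congrFun h3 i) (fun a => ha a) i

end KXR

open KXR in
/-- **FNC_KXR.** -/
theorem t_KXR (hEVP : KUM.S_EVP) (hEVA : KUM.S_EVA) (hRHO : S_RHO) : S_KXR := by
  intro n0 v r0 b R _ _ _ G ε m lam hFT hε hm I hI ν hreg M hM hMI hG
  obtain ⟨χ, c, hc, hχ, hev⟩ := hEVP hFT I M hM hMI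
  obtain ⟨e1, -, e3, -⟩ := hEVA χ c hc
  let E : LaurentR R (n0 + v) →+ ℂ := AddMonoidHom.mk' (KUM.evp χ c) e3
  have hE : ∀ h, KUM.evp χ c h = E h := fun _ => rfl
  have hχε : ∀ a, χ (ε a) ≠ 0 := fun a => ((hε a).map χ).ne_zero
  refine core hEVA hRHO (fun i => initFormR (G i) fun l => ν (Fin.castAdd v l)) _ ε m lam hm I M
    χ c hc hχ hev hG ?_ ?_ hreg
  · intro i
    rw [kum, Fin.append_left]
    exact (hRHO χ (fun _ => 1) (fun _ => 1) (fun _ => one_ne_zero)
      (fun _ => one_ne_zero)).2.2.2.2.2.2.2.2.2.2 ν (G i)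
  · intro a
    have hne : (Fin.append 0 (Pi.single a (m a : ℤ)) : Fin (n0 + v) → ℤ) ≠
        Fin.append (lam a) 0 := by
      intro h
      have h1 := congrFun h (Fin.natAdd n0 a)
      rw [Fin.append_right, Fin.append_right, Pi.single_eq_same] at h1
      have h2 := hm a
      simp only [Pi.zero_apply] at h1
      omega
    have hb := KUM.INI.bin (R := R) hne one_ne_zero (hε a).ne_zero ν
    have hGa : initFormR (kum G ε m lam (Fin.natAdd r0 a)) ν ∈ M := hG (Fin.natAdd r0 a)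
    change initFormR (kum G ε m lam (Fin.natAdd r0 a)) ν = _
    rw [kum, Fin.append_right] at hGa ⊢
    rw [hev] at hGa
    rcases lt_trichotomy (pair ν (Fin.append 0 (Pi.single a (m a : ℤ))))
      (pair ν (Fin.append (lam a) 0)) with h | h | h
    · rw [hb.1 h, e1, map_one, one_mul] at hGa
      exact absurd hGa (mon_ne hc _)
    · exact hb.2.2 h
    · rw [hb.2.1 h, hE, map_neg, ← hE, e1, neg_eq_zero] at hGa
      exact absurd hGa (mul_ne_zero (hχε a) (mon_ne hc _))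

end

end FNC
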