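import Pool.Agent.FNC.StB

/-!
# Families with normal crossings (MP_fa3f7f_ag), module LQB: local equations
-/

set_option autoImplicit false

namespace FNC

open MvPolynomial NCC MldX MMCI MMCX RMX

noncomputable section

namespace LQB_aux

open Classical in
theorem polyT_coeff {F : Type} [Field F] [Algebra ℂ F] {n : ℕ} (t : Fin n → F)
    (f : LaurentR F n) (b : Fin n → ℤ) : (polyT t f).coeff b = f.coeff b * mon t b := by
  unfold polyT Finsupp.sum
  rw [AddMonoidAlgebra.coeff_sum, Finsupp.finsetSum_apply]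
  simp only [AddMonoidAlgebra.coeff_single, Finsupp.single_apply]
  rw [Finset.sum_ite_eq']
  split_ifs with h
  · rfl
  · rw [Finsupp.notMem_support_iff.1 h, zero_mul]

/-- The coefficients of proportional polynomials. -/
theorem prop (hAFC : S_AFC) {F : Type} [Field F] [Algebra ℂ F] {k q : ℕ} {N : Fin k → ℕ}
    (R : Subalgebra ℂ F) (f : MvPolynomial (Coord N) F) (f' : MvPolynomial (Coord N) R)
    (d : Fin k → ℕ) (hd : IsMulti f' d) (c : F) (hc : c ≠ 0)
    (h : ∀ a, ((f'.coeff a : R) : F) = c * f.coeff a) (b : Fin (MM N q) → ℤ) :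
    (((affR q f').coeff b : R) : F) = c * (affR q f).coeff b := by
  have hsup : ∀ a, a ∈ f'.support ↔ a ∈ f.support := by
    intro a
    rw [MvPolynomial.mem_support_iff, MvPolynomial.mem_support_iff]
    refine not_congr ⟨fun h0 => ?_, fun h0 => ?_⟩
    · have h1 := h a
      rw [h0] at h1
      have h2 : c * f.coeff a = 0 := h1.symm
      exact (mul_eq_zero.1 h2).resolve_left hc
    · have h1 := h a
      rw [h0, mul_zero] at h1
      exact Subtype.ext h1
  have hd2 : IsMulti f d := fun a ha => hd a ((hsup a).2 ha)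
  obtain ⟨h1, h2, -, -⟩ := hAFC (q := q) f
  obtain ⟨h1', h2', -, -⟩ := hAFC (q := q) f'
  by_cases hb : ∃ a ∈ f.support, b = aexp q a
  · obtain ⟨a, ha, rfl⟩ := hb
    rw [h1 d hd2 a ha, h1' d hd a ((hsup a).2 ha)]
    exact h a
  · have e1 : (affR q f).coeff b = 0 := by
      by_contra hne
      exact hb (h2 b (Finsupp.mem_support_iff.2 hne))
    have e2 : (affR q f').coeff b = 0 := by
      by_contra hne
      obtain ⟨a, ha, hab⟩ := h2' b (Finsupp.mem_support_iff.2 hne)
      exact hb ⟨a, (hsup a).1 ha, hab⟩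
    rw [e1, e2, mul_zero]
    rfl

/-- The twist does not change the polynomials without `z`. -/
theorem mon_one (hAFC : S_AFC) {F : Type} [Field F] {k q : ℕ} {N : Fin k → ℕ}
    (f : MvPolynomial (Coord N) F) (σ : Fin q → F) (b : Fin (MM N q) → ℤ) :
    (affR q f).coeff b * mon (tb N σ) b = (affR q f).coeff b := by
  obtain ⟨-, h2, -, h4⟩ := hAFC (q := q) f
  by_cases hb : (affR q f).coeff b = 0
  · rw [hb, zero_mul]
  · obtain ⟨a, -, rfl⟩ := h2 b (Finsupp.mem_support_iff.2 hb)
    rw [(h4 σ).1 a, mul_one]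

/-- `z_j` does not occur in `affR q f`. -/
theorem coeff_z (hAFC : S_AFC) {R : Type} [CommRing R] {k q : ℕ} {N : Fin k → ℕ}
    (f : MvPolynomial (Coord N) R) (j : Fin q) :
    (affR q f).coeff (Pi.single (en N q (Sum.inr j)) 1) = 0 := by
  obtain ⟨-, h2, h3, -⟩ := hAFC (q := q) f
  by_contra hne
  obtain ⟨a, -, ha⟩ := h2 _ (Finsupp.mem_support_iff.2 hne)
  have h := h3 a j
  rw [← ha, Pi.single_eq_same] at h
  exact one_ne_zero h

end LQB_aux

open Classical in
theorem t_LQB : S_AFC → S_LQB := by
  intro hAFC F _ _ k q r N R g h σ G H e d hG hH hg hσ hh χ hχ i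
  refine Fin.addCases (fun i => ?_) (fun a => ?_) i
  · obtain ⟨u, hu, hug⟩ := hg i
    constructor
    · refine ⟨u⁻¹, inv_ne_zero hu, fun b => ?_⟩
      rw [LQB_aux.polyT_coeff]
      unfold sysR
      simp only [Fin.append_left]
      rw [LQB_aux.mon_one hAFC]
      have h1 := LQB_aux.prop hAFC (q := q) R (g i) (G i) (e i) (hG i) u hu hug b
      change (affR q (g i)).coeff b = u⁻¹ * (((affR q (G i)).coeff b : R) : F)
      rw [h1, inv_mul_cancel_left₀ hu]
    · obtain ⟨a, ha⟩ := MvPolynomial.ne_zero_iff.1 (hχ i)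
      have ha' : χ ((G i).coeff a) ≠ 0 := by
        unfold fib at ha
        rw [MvPolynomial.coeff_map] at ha
        exact ha
      have hmem : a ∈ (G i).support := by
        rw [MvPolynomial.mem_support_iff]
        intro h0
        rw [h0, map_zero] at ha'
        exact ha' rfl
      refine ⟨aexp q a, ?_⟩
      unfold sysR
      simp only [Fin.append_left]
      rw [(hAFC (q := q) (G i)).1 (e i) (hG i) a hmem]
      intro h0
      exact ha' h0
  · constructor
    · refine ⟨(σ a)⁻¹, inv_ne_zero (hσ a), fun b => ?_⟩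
      rw [LQB_aux.polyT_coeff]
      unfold sysR
      simp only [Fin.append_right]
      rw [AddMonoidAlgebra.coeff_sub, AddMonoidAlgebra.coeff_sub, Finsupp.sub_apply,
        Finsupp.sub_apply, sub_mul, LQB_aux.mon_one hAFC, map_sub, mul_sub]
      congr 1
      · simp only [AddMonoidAlgebra.coeff_single, Finsupp.single_apply]
        split_ifs with hb
        · subst hb
          rw [((hAFC (q := q) (h a)).2.2.2 σ).2.1 a, map_one, one_mul, mul_one]
        · rw [map_zero, mul_zero, zero_mul]
      · have h1 := LQB_aux.prop hAFC (q := q) R (h a) (H a) (d a) (hH a) (σ a) (hσ a) (hh a) b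
        change (affR q (h a)).coeff b = (σ a)⁻¹ * (((affR q (H a)).coeff b : R) : F)
        rw [h1, inv_mul_cancel_left₀ (hσ a)]
    · refine ⟨Pi.single (en N q (Sum.inr a)) 1, ?_⟩
      unfold sysR
      simp only [Fin.append_right]
      rw [AddMonoidAlgebra.coeff_sub, Finsupp.sub_apply, LQB_aux.coeff_z hAFC, sub_zero]
      simp only [AddMonoidAlgebra.coeff_single, Finsupp.single_apply, if_true]
      intro h0
      have h1 : χ (1 : R) = 0 := h0
      rw [map_one] at h1
      exact one_ne_zero h1

end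

end FNC
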