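import Pool.Agent.FNC.StB

/-!
# Families with normal crossings (MP_fa3f7f_ag), module NDB: the system is nondegenerate
-/

set_option autoImplicit false

namespace FNC

open MvPolynomial NCC MldX MMCI MMCX RMX

noncomputable section

namespace NDB_aux

variable {k q : ℕ} {N : Fin k → ℕ}

theorem isPoint_pp (ν : Fin (MM N q) → ℤ) (c : Fin (MM N q) → ℂ) (hc : ∀ z, c z ≠ 0) :
    IsPoint (pp ν c : Coord N → ℂ) := by
  intro l
  obtain ⟨i, -, hi⟩ := Finset.exists_mem_eq_inf' (s := (Finset.univ : Finset (Fin (N l + 1))))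
    Finset.univ_nonempty fun i => wt (fun i => ν (en N q i)) ⟨l, i⟩
  refine ⟨i, ?_⟩
  have hi' : wt (fun i => ν (en N q i)) ⟨l, i⟩ = wmin (fun i => ν (en N q i)) l := hi.symm
  unfold pp pt
  rw [if_pos hi']
  exact Fin.cases (motive := fun i => (Fin.cases (motive := fun _ => ℂ) 1
    (fun i => c (en N q (Sum.inl ⟨l, i⟩))) i : ℂ) ≠ 0) one_ne_zero (fun i => hc _) i

theorem affR_ne {R : Type} [CommRing R] [Algebra ℂ R] (hAFC : S_AFC)
    (f : MvPolynomial (Coord N) R) (d : Fin k → ℕ) (hf : IsMulti f d)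
    (hv : ∀ v : (l : Fin k) → Fin (N l + 1), val (vert v) f ≠ 0) : affR q f ≠ 0 := by
  intro h0
  have hf0 : f ≠ 0 := by
    rintro rfl
    exact hv (fun _ => 0) (map_zero _)
  obtain ⟨a, ha⟩ := support_nonempty.2 hf0
  have h1 := (hAFC (q := q) f).1 d hf a ha
  rw [h0] at h1
  exact (mem_support_iff.1 ha) h1.symm

end NDB_aux

open NDB_aux in
theorem t_NDB : KUM.S_EVP → KUM.S_EVA → NCC.S_HOM → S_FIB → S_AFC → S_INIR → S_INJR → S_NDB := by
  intro hEVP hEVA hHOM hFIB hAFC hINIR hINJR R _ _ k q r N G H e d hFT hG hH hv χ0 hT ν M hM hMc hin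
    T hTM
  classical
  obtain ⟨χ, c, hc, hχ, hev⟩ := hEVP hFT (idl χ0) M hM hMc
  have hχχ : χ = χ0 := by
    ext z
    have h1 : z - algebraMap ℂ R (χ0 z) ∈ idl χ0 := by
      show χ0 (z - algebraMap ℂ R (χ0 z)) = 0
      rw [map_sub, AlgHom.commutes]
      exact sub_self _
    have h2 := (hχ _).1 h1
    rw [map_sub, AlgHom.commutes, sub_eq_zero] at h2
    exact h2
  subst hχχ
  obtain ⟨e1, e2, e3, -, e5, -, -, e8, e9, e10, e11, -, e13⟩ := hEVA χ c hc
  -- additive maps
  let E : LaurentR R (MM N q) →+ ℂ := AddMonoidHom.mk' (KUM.evp χ c) e3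
  let Rt : LaurentR R (MM N q) →+ R := AddMonoidHom.mk' (KUM.ret c) e5
  let Dr : Fin (MM N q) → (LaurentR R (MM N q) →+ LaurentR R (MM N q)) :=
    fun k => AddMonoidHom.mk' (derR k) (e10 k)
  have hE : ∀ h, KUM.evp χ c h = E h := fun _ => rfl
  have hR : ∀ h, KUM.ret c h = Rt h := fun _ => rfl
  have hD : ∀ k h, derR k h = Dr k h := fun _ _ => rfl
  set P : Coord N → ℂ := pp ν c with hPdef
  have hP : IsPoint P := isPoint_pp ν c hc
  obtain hIG := fun i => (hINIR (q := q) (G i) (e i) (hG i) (fun v => (hv v).1 i) ν).2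
  obtain hIH := fun a => (hINIR (q := q) (H a) (d a) (hH a) (fun v => (hv v).2 a) ν).2
  have hsG : ∀ i, sysR G H (Fin.castAdd q i) = affR q (G i) := fun i => Fin.append_left _ _ _
  have hsH : ∀ a, sysR G H (Fin.natAdd r a) =
      AddMonoidAlgebra.single (Pi.single (en N q (Sum.inr a)) 1) 1 - affR q (H a) :=
    fun a => Fin.append_right _ _ _
  have hz0 : ∀ i, KUM.evp χ c (initFormR (sysR G H i) ν) = 0 := fun i => (hev _).1 (hin i)
  have hGP : ∀ i, eval P (fib χ (G i)) = 0 := by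
    intro i
    have h1 := hz0 (Fin.castAdd q i)
    rw [hsG, ((hIG i).2 χ c hc).1] at h1
    exact h1
  -- the derivatives of the initial forms
  set z : Fin q → Fin (MM N q) := fun a => en N q (Sum.inr a) with hzdef
  have hmz : ∀ a, mon c (Pi.single (z a) 1) = c (z a) := by
    intro a
    unfold mon
    rw [Finset.prod_eq_single (z a)]
    · simp
    · intro j _ hj
      simp [Pi.single_eq_of_ne hj]
    · intro hj
      exact absurd (Finset.mem_univ _) hj
  -- the three cases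
  have hcase : ∀ a,
      (eval P (fib χ (H a)) ≠ 0 ∧ initFormR (sysR G H (Fin.natAdd r a)) ν =
        AddMonoidAlgebra.single (Pi.single (z a) 1) 1 - initFormR (affR q (H a)) ν) ∨
      (eval P (fib χ (H a)) = 0 ∧ initFormR (sysR G H (Fin.natAdd r a)) ν =
        - initFormR (affR q (H a)) ν) := by
    intro a
    have hne : affR q (H a) ≠ 0 := affR_ne hAFC (H a) (d a) (hH a) fun v => (hv v).2 a
    have hzz : ∀ b ∈ (affR q (H a)).coeff.support, b (z a) = 0 := by
      intro b hb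
      obtain ⟨b', -, rfl⟩ := (hAFC (q := q) (H a)).2.1 b hb
      exact (hAFC (q := q) (H a)).2.2.1 b' a
    obtain ⟨c1, c2, c3⟩ := hINJR (affR q (H a)) hne (z a) hzz ν
    have h0 := hz0 (Fin.natAdd r a)
    rw [hsH] at h0 ⊢
    rcases lt_trichotomy (ν (z a)) (minOnR (affR q (H a)) ν) with hlt | heq | hgt
    · exfalso
      have h1 := c1 hlt
      rw [h1, e1, map_one, one_mul, hmz] at h0
      exact hc _ h0
    · left
      have h1 := c2 heq
      refine ⟨?_, h1⟩
      rw [h1, hE, map_sub, ← hE, ← hE, e1, map_one, one_mul, hmz, ((hIH a).2 χ c hc).1] at h0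
      intro h7
      rw [← hPdef, h7, sub_zero] at h0
      exact hc _ h0
    · right
      have h1 := c3 hgt
      refine ⟨?_, h1⟩
      rw [h1, hE, map_neg, ← hE, ((hIH a).2 χ c hc).1] at h0
      exact neg_eq_zero.1 h0
  -- the relation
  obtain ⟨k1, k2⟩ := e13 (idl χ) M hχ hev _ hTM
  have hsum : ∑ i, T i • initFormR (sysR G H i) ν =
      ∑ i : Fin r, T (Fin.castAdd q i) • initFormR (affR q (G i)) ν +
      ∑ a : Fin q, T (Fin.natAdd r a) • initFormR (sysR G H (Fin.natAdd r a)) ν := by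
    rw [Fin.sum_univ_add]
    congr 1
    exact Finset.sum_congr rfl fun i _ => by rw [hsG]
  have k1' : ∀ x, ∑ i : Fin r, T (Fin.castAdd q i) *
        KUM.evp χ c (derR x (initFormR (affR q (G i)) ν)) +
      ∑ a : Fin q, T (Fin.natAdd r a) *
        KUM.evp χ c (derR x (initFormR (sysR G H (Fin.natAdd r a)) ν)) = 0 := by
    intro x
    rw [← k1 x, hsum, hD, map_add, map_sum, map_sum, hE, map_add, map_sum, map_sum]
    congr 1
    · refine Finset.sum_congr rfl fun i _ => ?_
      rw [← hD, e11, ← hE, (e8 _ _).1]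
    · refine Finset.sum_congr rfl fun i _ => ?_
      rw [← hD, e11, ← hE, (e8 _ _).1]
  -- the case (2)
  have hA : ∀ a, eval P (fib χ (H a)) ≠ 0 → T (Fin.natAdd r a) = 0 := by
    intro a ha
    have h1 := k1' (z a)
    have h2 : ∑ i : Fin r, T (Fin.castAdd q i) *
        KUM.evp χ c (derR (z a) (initFormR (affR q (G i)) ν)) = 0 :=
      Finset.sum_eq_zero fun i _ => by rw [(hIG i).1 a, hE, map_zero, mul_zero]
    have h3 : ∑ a' : Fin q, T (Fin.natAdd r a') *
        KUM.evp χ c (derR (z a) (initFormR (sysR G H (Fin.natAdd r a')) ν)) =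
        T (Fin.natAdd r a) * c (z a) := by
      rw [Finset.sum_eq_single a]
      · rcases hcase a with ⟨_, h4⟩ | ⟨h4, _⟩
        · rw [h4, hD, map_sub, ← hD, ← hD, e9, (hIH a).1 a, sub_zero, e1, Pi.single_eq_same,
            Int.cast_one, one_mul, map_one, one_mul, hmz]
        · exact absurd h4 ha
      · intro a' _ hne
        rcases hcase a' with ⟨_, h4⟩ | ⟨_, h4⟩
        · have h5 : z a ≠ z a' := fun h5 => hne
            (Sum.inr_injective ((en N q).injective h5)).symm
          rw [h4, hD, map_sub, ← hD, ← hD, e9, (hIH a').1 a, sub_zero, e1,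
            Pi.single_eq_of_ne h5, Int.cast_zero, zero_mul, map_zero, zero_mul, mul_zero]
        · rw [h4, hD, map_neg, ← hD, (hIH a').1 a, neg_zero, hE, map_zero, mul_zero]
      · intro h5
        exact absurd (Finset.mem_univ a) h5
    rw [h2, h3, zero_add] at h1
    exact (mul_eq_zero.1 h1).resolve_right (hc _)
  -- the vector `V`
  set t : Fin r → ℂ := fun i => T (Fin.castAdd q i) with ht
  set t' : Fin q → ℂ := fun a => - T (Fin.natAdd r a) with ht'
  set V : Coord N → ℂ := fun s => ∑ i, t i * grd (fib χ (G i)) P s +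
    ∑ a, t' a * grd (fib χ (H a)) P s with hV
  have hV1 : ∀ (l : Fin k) (i : Fin (N l)), P ⟨l, i.succ⟩ * V ⟨l, i.succ⟩ = 0 := by
    intro l i
    have h1 := k1' (en N q (Sum.inl ⟨l, i⟩))
    have h2 : ∑ i' : Fin r, T (Fin.castAdd q i') *
        KUM.evp χ c (derR (en N q (Sum.inl ⟨l, i⟩)) (initFormR (affR q (G i')) ν)) =
        P ⟨l, i.succ⟩ * ∑ i', t i' * grd (fib χ (G i')) P ⟨l, i.succ⟩ := by
      rw [Finset.mul_sum]
      refine Finset.sum_congr rfl fun i' _ => ?_
      rw [((hIG i').2 χ c hc).2.2 ⟨l, i⟩, ← hPdef]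
      ring
    have h3 : ∑ a : Fin q, T (Fin.natAdd r a) *
        KUM.evp χ c (derR (en N q (Sum.inl ⟨l, i⟩)) (initFormR (sysR G H (Fin.natAdd r a)) ν)) =
        P ⟨l, i.succ⟩ * ∑ a, t' a * grd (fib χ (H a)) P ⟨l, i.succ⟩ := by
      rw [Finset.mul_sum]
      refine Finset.sum_congr rfl fun a _ => ?_
      simp only [ht']
      rcases hcase a with ⟨h4, _⟩ | ⟨_, h4⟩
      · rw [hA a h4]
        ring
      · rw [h4, hD, map_neg, ← hD, hE, map_neg, ← hE, ((hIH a).2 χ c hc).2.2 ⟨l, i⟩, ← hPdef]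
        ring
    rw [h2, h3] at h1
    rw [hV]
    simp only
    rw [mul_add]
    exact h1
  have hV0 : ∀ l : Fin k, P ⟨l, 0⟩ * V ⟨l, 0⟩ = 0 := by
    intro l
    have h1 : ∑ i : Fin (N l + 1), P ⟨l, i⟩ * V ⟨l, i⟩ = 0 := by
      have h2 : ∑ i : Fin (N l + 1), P ⟨l, i⟩ * V ⟨l, i⟩ =
          ∑ i', t i' * (∑ i : Fin (N l + 1), P ⟨l, i⟩ * grd (fib χ (G i')) P ⟨l, i⟩) +
          ∑ a, t' a * (∑ i : Fin (N l + 1), P ⟨l, i⟩ * grd (fib χ (H a)) P ⟨l, i⟩) := by
        simp only [hV, mul_add, Finset.mul_sum, Finset.sum_add_distrib]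
        congr 1
        · rw [Finset.sum_comm]
          refine Finset.sum_congr rfl fun _ _ => Finset.sum_congr rfl fun _ _ => by ring
        · rw [Finset.sum_comm]
          refine Finset.sum_congr rfl fun _ _ => Finset.sum_congr rfl fun _ _ => by ring
      rw [h2]
      have h3 : ∑ i', t i' *
          (∑ i : Fin (N l + 1), P ⟨l, i⟩ * grd (fib χ (G i')) P ⟨l, i⟩) = 0 := by
        refine Finset.sum_eq_zero fun i' _ => ?_
        rw [(hHOM (fib χ (G i')) (e i') ((hFIB χ (G i')).1 _ (hG i')) P).1 l, hGP i', mul_zero,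
          mul_zero]
      have h4 : ∑ a, t' a *
          (∑ i : Fin (N l + 1), P ⟨l, i⟩ * grd (fib χ (H a)) P ⟨l, i⟩) = 0 := by
        refine Finset.sum_eq_zero fun a _ => ?_
        rw [(hHOM (fib χ (H a)) (d a) ((hFIB χ (H a)).1 _ (hH a)) P).1 l]
        by_cases h5 : eval P (fib χ (H a)) = 0
        · rw [h5, mul_zero, mul_zero]
        · simp only [ht']
          rw [hA a h5, neg_zero, zero_mul]
      rw [h3, h4, add_zero]
    rw [Fin.sum_univ_succ] at h1
    rw [Finset.sum_eq_zero (fun i _ => hV1 l i), add_zero] at h1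
    exact h1
  have hVs : ∀ s : Coord N, P s ≠ 0 → V s = 0 := by
    rintro ⟨l, i⟩ hs
    have h1 : P ⟨l, i⟩ * V ⟨l, i⟩ = 0 :=
      Fin.cases (motive := fun i => P ⟨l, i⟩ * V ⟨l, i⟩ = 0) (hV0 l) (fun i => hV1 l i) i
    exact (mul_eq_zero.1 h1).resolve_left hs
  -- the restriction to the section
  have hret : KUM.ret c (∑ i, T i • initFormR (sysR G H i) ν) =
      ∑ i, t i • val P (G i) + ∑ a, t' a • val P (H a) := by
    rw [hsum, hR, map_add, map_sum, map_sum]
    congr 1
    · refine Finset.sum_congr rfl fun i _ => ?_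
      rw [← hR, (e8 _ _).2, ((hIG i).2 χ c hc).2.1]
    · refine Finset.sum_congr rfl fun a _ => ?_
      simp only [ht']
      rcases hcase a with ⟨h4, _⟩ | ⟨_, h4⟩
      · rw [hA a h4, zero_smul, map_zero, neg_zero, zero_smul]
      · rw [h4, ← hR, (e8 _ _).2, hR, map_neg, ← hR, ((hIH a).2 χ c hc).2.1, smul_neg, neg_smul]
  obtain ⟨r1, r2⟩ := hT P hP hGP t t' (fun a ha => by
      simp only [ht']
      rw [hA a ha, neg_zero]) (hret ▸ k2) hVs
  funext i
  refine Fin.addCases (fun i => congrFun r1 i) (fun a => ?_) i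
  have h1 := congrFun r2 a
  simp only [ht', Pi.zero_apply] at h1
  exact neg_eq_zero.1 h1

end

end FNC
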