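import Pool.Agent.FNC.StB

/-!
Module FNC_NEB (MP_fa3f7f_ag): the equations of the system are not zero.
-/

set_option autoImplicit false

namespace FNC

open MvPolynomial NCC MldX MMCI MMCX RMX

noncomputable section

theorem t_NEB : S_AFC → S_NEB := by
  intro hAFC R _ _ k q r N G H e d hG hH hv i
  classical
  refine Fin.addCases (fun i => ?_) (fun a => ?_) i
  · have h1 : val (vert fun _ => 0) (G i) ≠ 0 := (hv _).1 i
    have h2 : G i ≠ 0 := by
      intro h
      refine h1 ?_
      rw [h]
      exact map_zero _
    obtain ⟨a, ha⟩ := (support_nonempty.2 h2)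
    have h3 := (hAFC (q := q) (G i)).1 _ (hG i) a ha
    intro h4
    rw [sysR, Fin.append_left] at h4
    rw [h4] at h3
    exact (mem_support_iff.1 ha) h3.symm
  · have h1 : val (vert fun _ => 0) (H a) ≠ 0 := (hv _).2 a
    have : Nontrivial R := nontrivial_of_ne _ _ h1
    intro h4
    rw [sysR, Fin.append_right] at h4
    have h5 : (affR q (H a)).coeff (Pi.single (en N q (Sum.inr a)) 1) = 0 := by
      by_contra hne
      obtain ⟨b, -, hb⟩ := (hAFC (q := q) (H a)).2.1 _ (Finsupp.mem_support_iff.2 hne)
      have h6 := congrFun hb (en N q (Sum.inr a))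
      rw [Pi.single_eq_same, (hAFC (q := q) (H a)).2.2.1] at h6
      exact one_ne_zero h6
    have h6 := congrArg (fun f => f.coeff (Pi.single (en N q (Sum.inr a)) (1 : ℤ))) h4
    simp only [AddMonoidAlgebra.coeff_sub, AddMonoidAlgebra.coeff_single, Finsupp.sub_apply,
      Finsupp.single_eq_same, h5, sub_zero, AddMonoidAlgebra.coeff_zero, Finsupp.zero_apply] at h6
    exact one_ne_zero h6

end

end FNC
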