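import Pool.Agent.FNC.StA
import Pool.Agent.KUM.EVA

/-!
# RHO: `rho` and `upR`
-/

set_option autoImplicit false

namespace FNC

open MvPolynomial NCC MldX MMCI MMCX RMX

namespace RHO

noncomputable section

variable {R : Type} [CommRing R] {n0 v : ℕ}

theorem app_inj : Function.Injective
    (fun a : Fin n0 → ℤ => (Fin.append a 0 : Fin (n0 + v) → ℤ)) := by
  intro a b h
  funext l
  have := congrFun h (Fin.castAdd v l)
  simpa using this

theorem pair_app (ν : Fin (n0 + v) → ℤ) (a : Fin n0 → ℤ) :
    pair ν (Fin.append a 0) = pair (fun l => ν (Fin.castAdd v l)) a := by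
  unfold pair
  rw [Fin.sum_univ_add]
  simp

theorem mon_app (c0 : Fin n0 → ℂ) (cu : Fin v → ℂ) (a : Fin (n0 + v) → ℤ) :
    mon (Fin.append c0 cu) a =
      mon c0 (fun l => a (Fin.castAdd v l)) * mon cu (fun l => a (Fin.natAdd n0 l)) := by
  unfold mon
  rw [Fin.prod_univ_add]
  simp

theorem mon_zero (c0 : Fin n0 → ℂ) : mon c0 0 = 1 := by
  unfold mon
  simp

theorem up_single (a : Fin n0 → ℤ) (z : R) :
    upR v (AddMonoidAlgebra.single a z : LaurentR R n0) =
      AddMonoidAlgebra.single (Fin.append a 0) z := by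
  unfold upR
  rw [AddMonoidAlgebra.coeff_single, Finsupp.sum_single_index]
  rw [AddMonoidAlgebra.single_zero]

theorem up_zero : upR v (0 : LaurentR R n0) = 0 := by
  unfold upR
  rw [AddMonoidAlgebra.coeff_zero, Finsupp.sum_zero_index]

theorem up_add (h h' : LaurentR R n0) : upR v (h + h') = upR v h + upR v h' := by
  unfold upR
  rw [AddMonoidAlgebra.coeff_add, Finsupp.sum_add_index']
  · intro a; rw [AddMonoidAlgebra.single_zero]
  · intro a b b'; rw [AddMonoidAlgebra.single_add]

theorem up_coeff (h : LaurentR R n0) :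
    (upR v h).coeff = h.coeff.mapDomain (fun a => (Fin.append a 0 : Fin (n0 + v) → ℤ)) := by
  induction h using AddMonoidAlgebra.induction_linear with
  | zero => rw [up_zero, AddMonoidAlgebra.coeff_zero, AddMonoidAlgebra.coeff_zero,
      Finsupp.mapDomain_zero]
  | add x y hx hy => rw [up_add, AddMonoidAlgebra.coeff_add, AddMonoidAlgebra.coeff_add, hx, hy,
      Finsupp.mapDomain_add]
  | single a z => rw [up_single, AddMonoidAlgebra.coeff_single, AddMonoidAlgebra.coeff_single,
      Finsupp.mapDomain_single]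

theorem minOn_up (h : LaurentR R n0) (ν : Fin (n0 + v) → ℤ) :
    minOnR (upR v h) ν = minOnR h fun l => ν (Fin.castAdd v l) := by
  classical
  unfold minOnR
  rw [up_coeff, Finsupp.mapDomain_support_of_injective app_inj, Finset.coe_image,
    Set.image_image]
  congr 1
  refine Set.image_congr fun a _ => ?_
  exact pair_app ν a

theorem init_up (ν : Fin (n0 + v) → ℤ) (h : LaurentR R n0) :
    initFormR (upR v h) ν = upR v (initFormR h fun l => ν (Fin.castAdd v l)) := by
  classical
  apply AddMonoidAlgebra.coeff_injective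
  rw [up_coeff]
  unfold initFormR
  rw [minOn_up, up_coeff]
  ext b
  show (Finsupp.filter _ _) b = (Finsupp.mapDomain _ (Finsupp.filter _ _)) b
  by_cases hb : b ∈ Set.range (fun a : Fin n0 → ℤ => (Fin.append a 0 : Fin (n0 + v) → ℤ))
  · obtain ⟨a, rfl⟩ := hb
    rw [Finsupp.mapDomain_apply app_inj, Finsupp.filter_apply, Finsupp.filter_apply,
      Finsupp.mapDomain_apply app_inj]
    simp only [pair_app]
  · rw [Finsupp.mapDomain_of_notMem_range _ _ hb, Finsupp.filter_apply,
      Finsupp.mapDomain_of_notMem_range _ _ hb, ite_self]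

variable [Algebra ℂ R]

theorem up_smul (t : ℂ) (h : LaurentR R n0) : upR v (t • h) = t • upR v h := by
  induction h using AddMonoidAlgebra.induction_linear with
  | zero => rw [smul_zero, up_zero, smul_zero]
  | add x y hx hy => rw [smul_add, up_add, hx, hy, up_add, smul_add]
  | single a z => rw [AddMonoidAlgebra.smul_single, up_single, up_single,
      AddMonoidAlgebra.smul_single]

theorem rho_single (cu : Fin v → ℂ) (a : Fin (n0 + v) → ℤ) (z : R) :
    rho cu (AddMonoidAlgebra.single a z : LaurentR R (n0 + v)) =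
      AddMonoidAlgebra.single (fun l => a (Fin.castAdd v l))
        (mon cu (fun l => a (Fin.natAdd n0 l)) • z) := by
  unfold rho
  rw [AddMonoidAlgebra.coeff_single, Finsupp.sum_single_index]
  rw [smul_zero, AddMonoidAlgebra.single_zero]

theorem rho_zero (cu : Fin v → ℂ) : rho cu (0 : LaurentR R (n0 + v)) = 0 := by
  unfold rho
  rw [AddMonoidAlgebra.coeff_zero, Finsupp.sum_zero_index]

theorem rho_add (cu : Fin v → ℂ) (h h' : LaurentR R (n0 + v)) :
    rho cu (h + h') = rho cu h + rho cu h' := by
  unfold rho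
  rw [AddMonoidAlgebra.coeff_add, Finsupp.sum_add_index']
  · intro a; rw [smul_zero, AddMonoidAlgebra.single_zero]
  · intro a b b'; rw [smul_add, AddMonoidAlgebra.single_add]

theorem rho_smul (cu : Fin v → ℂ) (t : ℂ) (h : LaurentR R (n0 + v)) :
    rho cu (t • h) = t • rho cu h := by
  induction h using AddMonoidAlgebra.induction_linear with
  | zero => rw [smul_zero, rho_zero, smul_zero]
  | add x y hx hy => rw [smul_add, rho_add, hx, hy, rho_add, smul_add]
  | single a z => rw [AddMonoidAlgebra.smul_single, rho_single, rho_single,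
      AddMonoidAlgebra.smul_single, smul_comm]

theorem rho_mul (cu : Fin v → ℂ) (hcu : ∀ a, cu a ≠ 0) (h h' : LaurentR R (n0 + v)) :
    rho cu (h * h') = rho cu h * rho cu h' := by
  induction h using AddMonoidAlgebra.induction_linear with
  | zero => rw [zero_mul, rho_zero, zero_mul]
  | add x y hx hy => rw [add_mul, rho_add, hx, hy, rho_add, add_mul]
  | single a z =>
    induction h' using AddMonoidAlgebra.induction_linear with
    | zero => rw [mul_zero, rho_zero, mul_zero]
    | add x y hx hy => rw [mul_add, rho_add, hx, hy, rho_add, mul_add]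
    | single b y =>
      rw [AddMonoidAlgebra.single_mul_single, rho_single, rho_single, rho_single,
        AddMonoidAlgebra.single_mul_single]
      have h1 : (fun l => (a + b) (Fin.castAdd v l)) =
          (fun l => a (Fin.castAdd v l)) + fun l => b (Fin.castAdd v l) := rfl
      have h2 : (fun l => (a + b) (Fin.natAdd n0 l)) =
          (fun l => a (Fin.natAdd n0 l)) + fun l => b (Fin.natAdd n0 l) := rfl
      rw [h1, h2, KUM.EVA.mon_add cu hcu, smul_mul_smul_comm]

theorem evp_rho (χ : R →ₐ[ℂ] ℂ) (c0 : Fin n0 → ℂ) (cu : Fin v → ℂ) (h : LaurentR R (n0 + v)) :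
    KUM.evp χ c0 (rho cu h) = KUM.evp χ (Fin.append c0 cu) h := by
  induction h using AddMonoidAlgebra.induction_linear with
  | zero => rw [rho_zero, KUM.EVA.evp_zero, KUM.EVA.evp_zero]
  | add x y hx hy => rw [rho_add, KUM.EVA.evp_add, KUM.EVA.evp_add, hx, hy]
  | single a z =>
    rw [rho_single, KUM.EVA.evp_single, KUM.EVA.evp_single, mon_app, map_smul, smul_eq_mul]
    ring

theorem rho_up (cu : Fin v → ℂ) (h : LaurentR R n0) : rho cu (upR v h) = h := by
  induction h using AddMonoidAlgebra.induction_linear with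
  | zero => rw [up_zero, rho_zero]
  | add x y hx hy => rw [up_add, rho_add, hx, hy]
  | single a z =>
    rw [up_single, rho_single]
    have h1 : (fun l => (Fin.append a 0 : Fin (n0 + v) → ℤ) (Fin.castAdd v l)) = a := by
      funext l; simp
    have h2 : (fun l => (Fin.append a 0 : Fin (n0 + v) → ℤ) (Fin.natAdd n0 l)) = 0 := by
      funext l; simp
    rw [h1, h2, mon_zero, one_smul]

theorem evp_up (χ : R →ₐ[ℂ] ℂ) (c0 : Fin n0 → ℂ) (cu : Fin v → ℂ) (h : LaurentR R n0) :
    KUM.evp χ (Fin.append c0 cu) (upR v h) = KUM.evp χ c0 h := by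
  rw [← evp_rho, rho_up]

omit [Algebra ℂ R] in
theorem der_up (l : Fin n0) (h : LaurentR R n0) :
    derR (Fin.castAdd v l) (upR v h) = upR v (derR l h) := by
  induction h using AddMonoidAlgebra.induction_linear with
  | zero => rw [up_zero, KUM.EVA.der_zero, KUM.EVA.der_zero, up_zero]
  | add x y hx hy => rw [up_add, KUM.EVA.der_add, KUM.EVA.der_add, hx, hy, up_add]
  | single a z => rw [up_single, KUM.EVA.der_single, KUM.EVA.der_single, up_single,
      Fin.append_left]

omit [Algebra ℂ R] in
theorem der_up' (a : Fin v) (h : LaurentR R n0) :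
    derR (Fin.natAdd n0 a) (upR v h) = 0 := by
  induction h using AddMonoidAlgebra.induction_linear with
  | zero => rw [up_zero, KUM.EVA.der_zero]
  | add x y hx hy => rw [up_add, KUM.EVA.der_add, hx, hy, add_zero]
  | single a z => rw [up_single, KUM.EVA.der_single, Fin.append_right, Pi.zero_apply,
      Int.cast_zero, zero_mul, AddMonoidAlgebra.single_zero]

end

end RHO

open RHO in
theorem t_RHO : S_RHO := by
  intro R _ _ n0 v χ c0 cu _ hcu
  exact ⟨evp_up χ c0 cu, up_add, up_smul, rho_add cu, rho_mul cu hcu, rho_smul cu,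
    evp_rho χ c0 cu, rho_up cu, der_up, der_up', init_up⟩

end FNC
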