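import Pool.Agent.FNC.StA

/-!
# Project FNC, module SBR: substitution over a ring
-/

set_option autoImplicit false

namespace FNC

open MvPolynomial NCC MldX MMCI MMCX RMX

namespace SBR

section Base

variable {k : ℕ} {N : Fin k → ℕ} {R : Type} [CommRing R]

theorem multi_zero (d : Fin k → ℕ) : IsMulti (0 : MvPolynomial (Coord N) R) d := by
  intro a ha
  simp at ha

theorem multi_add {f g : MvPolynomial (Coord N) R} {d : Fin k → ℕ} (hf : IsMulti f d)
    (hg : IsMulti g d) : IsMulti (f + g) d := by
  classical
  intro a ha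
  rcases Finset.mem_union.1 (support_add ha) with h | h
  · exact hf a h
  · exact hg a h

theorem multi_sum {ι : Type} (s : Finset ι) (f : ι → MvPolynomial (Coord N) R) (d : Fin k → ℕ)
    (h : ∀ i ∈ s, IsMulti (f i) d) : IsMulti (∑ i ∈ s, f i) d := by
  classical
  induction s using Finset.induction_on with
  | empty => simpa using multi_zero d
  | insert i s hi ih =>
    rw [Finset.sum_insert hi]
    exact multi_add (h i (Finset.mem_insert_self i s))
      (ih fun j hj => h j (Finset.mem_insert_of_mem hj))

theorem multi_mul {f g : MvPolynomial (Coord N) R} {d d' : Fin k → ℕ} (hf : IsMulti f d)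
    (hg : IsMulti g d') : IsMulti (f * g) (d + d') := by
  classical
  intro a ha l
  obtain ⟨b, hb, c, hc, rfl⟩ := Finset.mem_add.1 (support_mul f g ha)
  have h1 := hf b hb l
  have h2 := hg c hc l
  simp only [Finsupp.add_apply, Pi.add_apply, Finset.sum_add_distrib, h1, h2]

theorem multi_C (c : R) : IsMulti (C c : MvPolynomial (Coord N) R) 0 := by
  classical
  intro a ha l
  have h1 : a = 0 := by
    by_contra hne
    have h2 : coeff a (C c : MvPolynomial (Coord N) R) = 0 := by
      rw [coeff_C, if_neg (fun h => hne h.symm)]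
    exact (mem_support_iff.1 ha) h2
  subst h1
  simp

theorem multi_pow {f : MvPolynomial (Coord N) R} {d : Fin k → ℕ} (hf : IsMulti f d) (n : ℕ) :
    IsMulti (f ^ n) (n • d) := by
  induction n with
  | zero =>
    rw [pow_zero, zero_smul]
    have h1 := multi_C (N := N) (1 : R)
    rwa [C_1] at h1
  | succ n ih =>
    rw [pow_succ, succ_nsmul]
    exact multi_mul ih hf

theorem multi_prod {ι : Type} (s : Finset ι) (f : ι → MvPolynomial (Coord N) R)
    (d : ι → Fin k → ℕ) (h : ∀ i ∈ s, IsMulti (f i) (d i)) :
    IsMulti (∏ i ∈ s, f i) (∑ i ∈ s, d i) := by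
  classical
  induction s using Finset.induction_on with
  | empty =>
    rw [Finset.prod_empty, Finset.sum_empty]
    have h1 := multi_C (N := N) (1 : R)
    rwa [C_1] at h1
  | insert i s hi ih =>
    rw [Finset.prod_insert hi, Finset.sum_insert hi]
    exact multi_mul (h i (Finset.mem_insert_self i s))
      (ih fun j hj => h j (Finset.mem_insert_of_mem hj))

/-- the multidegree of a variable -/
def dg (s : Coord N) : Fin k → ℕ := fun l => if s.1 = l then 1 else 0

theorem multi_X (s : Coord N) : IsMulti (X s : MvPolynomial (Coord N) R) (dg s) := by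
  classical
  intro a ha l
  have h1 : a = Finsupp.single s 1 := by
    by_contra hne
    have h2 : coeff a (X s : MvPolynomial (Coord N) R) = 0 := by
      rw [coeff_X, if_neg (fun h => hne h.symm)]
    exact (mem_support_iff.1 ha) h2
  subst h1
  unfold dg
  obtain ⟨m, i⟩ := s
  by_cases hm : m = l
  · subst hm
    rw [if_pos rfl, Finset.sum_eq_single i]
    · simp
    · intro j _ hj
      rw [Finsupp.single_apply, if_neg]
      intro h
      exact hj (by simpa using (Sigma.mk.inj_iff.1 h).2.symm)
    · intro h
      exact absurd (Finset.mem_univ i) h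
  · rw [if_neg hm]
    apply Finset.sum_eq_zero
    intro j _
    rw [Finsupp.single_apply, if_neg]
    intro h
    exact hm (Sigma.mk.inj_iff.1 h).1

end Base

variable {k : ℕ} {N : Fin k → ℕ} {R : Type} [CommRing R] [Algebra ℂ R]

theorem multi_lin {A : Matrix (Coord N) (Coord N) ℂ} (hA : IsBlock A) (s : Coord N) :
    IsMulti (∑ t, C (algebraMap ℂ R (A s t)) * X t : MvPolynomial (Coord N) R) (dg s) := by
  classical
  apply multi_sum
  intro t _
  by_cases hst : s.1 = t.1
  · have h1 := multi_mul (multi_C (N := N) (algebraMap ℂ R (A s t))) (multi_X t)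
    rw [zero_add] at h1
    have h2 : dg s = dg t := by
      funext l
      unfold dg
      rw [hst]
    rw [h2]
    exact h1
  · rw [hA s t hst, map_zero, C_0, zero_mul]
    exact multi_zero _

theorem subR_eq (A : Matrix (Coord N) (Coord N) ℂ) (f : MvPolynomial (Coord N) R) :
    subR A f = ∑ a ∈ f.support, C (f.coeff a) *
      ∏ s : Coord N, (∑ t, C (algebraMap ℂ R (A s t)) * X t : MvPolynomial (Coord N) R) ^ a s := by
  classical
  unfold subR
  rw [bind₁, aeval_def, eval₂_eq']
  rfl

theorem subR_multi {A : Matrix (Coord N) (Coord N) ℂ} (hA : IsBlock A)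
    (f : MvPolynomial (Coord N) R) (d : Fin k → ℕ) (hf : IsMulti f d) :
    IsMulti (subR A f) d := by
  classical
  rw [subR_eq]
  apply multi_sum
  intro a ha
  have h1 := multi_mul (multi_C (N := N) (f.coeff a)) (multi_prod Finset.univ
    (fun s : Coord N =>
      (∑ t, C (algebraMap ℂ R (A s t)) * X t : MvPolynomial (Coord N) R) ^ a s)
    (fun s => a s • dg s) (fun s _ => multi_pow (multi_lin hA s) (a s)))
  rw [zero_add] at h1
  have h2 : ∑ s : Coord N, a s • dg s = d := by
    funext l
    rw [← hf a ha l, Finset.sum_apply, Fintype.sum_sigma, Finset.sum_eq_single l]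
    · apply Finset.sum_congr rfl
      intro i _
      simp [dg]
    · intro m _ hm
      apply Finset.sum_eq_zero
      intro i _
      simp [dg, hm]
    · intro h
      exact absurd (Finset.mem_univ l) h
  rw [h2] at h1
  exact h1

theorem subR_aeval (A : Matrix (Coord N) (Coord N) ℂ) (f : MvPolynomial (Coord N) R) {S : Type}
    [CommRing S] [Algebra ℂ S] [Algebra R S] [IsScalarTower ℂ R S] (x : Coord N → S) :
    aeval x (subR A f) = aeval (act A x) f := by
  have h1 : (aeval x).comp
      (bind₁ (fun s : Coord N =>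
        (∑ t, C (algebraMap ℂ R (A s t)) * X t : MvPolynomial (Coord N) R))) =
      aeval (act A x) := by
    apply MvPolynomial.algHom_ext
    intro s
    rw [AlgHom.comp_apply, bind₁_X_right, aeval_X, map_sum]
    unfold act
    apply Finset.sum_congr rfl
    intro t _
    rw [map_mul, aeval_C, aeval_X, ← IsScalarTower.algebraMap_apply]
  have h2 := congrArg (fun φ => φ f) h1
  exact h2

theorem subR_val (A : Matrix (Coord N) (Coord N) ℂ) (f : MvPolynomial (Coord N) R)
    (p : Coord N → ℂ) : val p (subR A f) = val (act A p) f := by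
  have h1 := subR_aeval (S := R) A f (fun s => algebraMap ℂ R (p s))
  have h2 : ∀ (x : Coord N → R) (g : MvPolynomial (Coord N) R), aeval x g = eval x g := by
    intro x g
    rw [aeval_def, eval₂_eq', eval_eq']
    rfl
  rw [h2, h2] at h1
  unfold val
  rw [h1]
  congr 2
  funext s
  unfold act
  rw [map_sum]
  apply Finset.sum_congr rfl
  intro t _
  rw [map_mul]
  rfl

theorem subR_map (A : Matrix (Coord N) (Coord N) ℂ) (f : MvPolynomial (Coord N) R) {S : Type}
    [CommRing S] [Algebra ℂ S] (χ : R →+* S) (h : ∀ z, χ (algebraMap ℂ R z) = algebraMap ℂ S z) :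
    map χ (subR A f) = subR A (map χ f) := by
  unfold subR
  rw [map_bind₁]
  congr 2
  funext s
  rw [map_sum]
  apply Finset.sum_congr rfl
  intro t _
  rw [map_mul, map_C, map_X, h]

theorem subR_fib (A : Matrix (Coord N) (Coord N) ℂ) (f : MvPolynomial (Coord N) R)
    (χ : R →ₐ[ℂ] ℂ) : fib χ (subR A f) = sub A (fib χ f) := by
  unfold fib
  rw [subR_map A f (χ : R →+* ℂ) (fun z => by
    change χ (algebraMap ℂ R z) = algebraMap ℂ ℂ z
    exact χ.commutes z)]
  rfl

theorem eval_fib (χ : R →ₐ[ℂ] ℂ) (p : Coord N → ℂ) (f : MvPolynomial (Coord N) R) :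
    χ (val p f) = eval p (fib χ f) := by
  unfold val fib
  rw [eval_map]
  have h1 := eval₂_comp (χ : R →+* ℂ) (fun s => algebraMap ℂ R (p s)) f
  refine Eq.trans h1 ?_
  congr 1
  funext s
  exact χ.commutes (p s)

theorem fib_multi (χ : R →ₐ[ℂ] ℂ) (f : MvPolynomial (Coord N) R) (d : Fin k → ℕ)
    (h : IsMulti f d) : IsMultiHom (fib χ f) d := by
  intro a ha
  exact h a (support_map_subset _ _ ha)

theorem subR_C_mul (A : Matrix (Coord N) (Coord N) ℂ) (z : R) (f : MvPolynomial (Coord N) R) :
    subR A (C z * f) = C z * subR A f := by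
  unfold subR
  rw [map_mul, bind₁_C_right]

theorem subR_inv (A L : Matrix (Coord N) (Coord N) ℂ) (h : A * L = 1)
    (f : MvPolynomial (Coord N) R) : subR L (subR A f) = f := by
  classical
  unfold subR
  rw [bind₁_bind₁]
  have h1 : (fun s : Coord N => bind₁ (fun s : Coord N =>
      (∑ t, C (algebraMap ℂ R (L s t)) * X t : MvPolynomial (Coord N) R))
      (∑ t, C (algebraMap ℂ R (A s t)) * X t)) = X := by
    funext s
    rw [map_sum]
    have e1 : ∀ t, bind₁ (fun s : Coord N =>
        (∑ t, C (algebraMap ℂ R (L s t)) * X t : MvPolynomial (Coord N) R))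
        (C (algebraMap ℂ R (A s t)) * X t) =
        ∑ u, C (algebraMap ℂ R (A s t * L t u)) * X u := by
      intro t
      rw [map_mul, bind₁_C_right, bind₁_X_right, Finset.mul_sum]
      apply Finset.sum_congr rfl
      intro u _
      rw [map_mul, C_mul]
      ring
    rw [Finset.sum_congr rfl (fun t _ => e1 t), Finset.sum_comm]
    have e2 : ∀ u, ∑ t, C (algebraMap ℂ R (A s t * L t u)) * (X u : MvPolynomial (Coord N) R) =
        C (algebraMap ℂ R ((1 : Matrix (Coord N) (Coord N) ℂ) s u)) * X u := by
      intro u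
      rw [← Finset.sum_mul, ← map_sum, ← map_sum, ← h, Matrix.mul_apply]
    rw [Finset.sum_congr rfl (fun u _ => e2 u), Finset.sum_eq_single s]
    · rw [Matrix.one_apply_eq, map_one, C_1, one_mul]
    · intro u _ hu
      rw [Matrix.one_apply_ne (Ne.symm hu), map_zero, C_0, zero_mul]
    · intro hs
      exact absurd (Finset.mem_univ s) hs
  rw [h1]
  exact congrArg (fun φ => φ f) (bind₁_X_left (σ := Coord N) (R := R))

end SBR

theorem t_SBR : S_SBR := by
  intro k N R _ _ A f
  refine ⟨fun hA d hf => SBR.subR_multi hA f d hf, fun p => SBR.subR_val A f p,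
    fun χ => SBR.subR_fib A f χ, fun x => SBR.subR_aeval A f x, fun χ p => SBR.eval_fib χ p f,
    fun χ d h => SBR.fib_multi χ f d h, ?_, fun z => SBR.subR_C_mul A z f,
    fun L h => SBR.subR_inv A L h f⟩
  intro S _ _ _ _
  exact SBR.subR_map A f (algebraMap R S) (fun z => (IsScalarTower.algebraMap_apply ℂ R S z).symm)

end FNC
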