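import Pool.Agent.FNC.StA

/-!
Module FNC_SCB (MP_fa3f7f_ag): scaling of the coordinates.
-/

set_option autoImplicit false

namespace FNC

open MvPolynomial NCC MldX MMCI MMCX RMX

noncomputable section

namespace SCB

variable {k : ℕ} {N : Fin k → ℕ} {R : Type} [CommRing R] [Algebra ℂ R]

theorem prod_ne (τ : Fin k → ℂ) (hτ : ∀ l, τ l ≠ 0) (d : Fin k → ℕ) : (∏ l, τ l ^ d l) ≠ 0 :=
  Finset.prod_ne_zero_iff.2 fun l _ => pow_ne_zero _ (hτ l)

theorem row_sum (Λ : Matrix (Coord N) (Coord N) ℂ) (hΛ : IsBlock Λ) (τ : Fin k → ℂ)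
    (p : Coord N → ℂ) (s : Coord N) :
    ∑ t, Λ s t * (τ t.1 * p t) = τ s.1 * ∑ t, Λ s t * p t := by
  rw [Finset.mul_sum]
  refine Finset.sum_congr rfl fun t _ => ?_
  by_cases h : s.1 = t.1
  · rw [h]; ring
  · rw [hΛ s t h]; ring

/-- The factor of a monomial. -/
theorem mono_fac (τ : Fin k → ℂ) (a : Coord N →₀ ℕ) (d : Fin k → ℕ)
    (h : ∀ l, ∑ i, a ⟨l, i⟩ = d l) : ∏ s : Coord N, τ s.1 ^ a s = ∏ l, τ l ^ d l := by
  rw [Fintype.prod_sigma]
  refine Finset.prod_congr rfl fun l _ => ?_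
  rw [← h l, ← Finset.prod_pow_eq_pow_sum]

/-- Scaling of the values. -/
theorem val_scale (f : MvPolynomial (Coord N) R) (d : Fin k → ℕ) (hf : IsMulti f d)
    (p : Coord N → ℂ) (τ : Fin k → ℂ) :
    val (fun s => τ s.1 * p s) f = (∏ l, τ l ^ d l) • val p f := by
  unfold val
  rw [eval_eq', eval_eq', Finset.smul_sum]
  refine Finset.sum_congr rfl fun a ha => ?_
  have h1 : ∏ s : Coord N, (algebraMap ℂ R (τ s.1 * p s)) ^ a s =
      algebraMap ℂ R (∏ l, τ l ^ d l) * ∏ s : Coord N, (algebraMap ℂ R (p s)) ^ a s := by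
    rw [← mono_fac τ a d (hf a ha), map_prod, ← Finset.prod_mul_distrib]
    refine Finset.prod_congr rfl fun s _ => ?_
    rw [map_mul, mul_pow, map_pow]
  rw [h1, Algebra.smul_def]
  ring

/-- The fibre of a multihomogeneous polynomial is multihomogeneous. -/
theorem fib_multi (χ : R →ₐ[ℂ] ℂ) (f : MvPolynomial (Coord N) R) (d : Fin k → ℕ)
    (hf : IsMulti f d) : IsMultiHom (fib χ f) d := by
  intro a ha l
  refine hf a ?_ l
  rw [mem_support_iff] at ha ⊢
  intro h0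
  refine ha ?_
  unfold fib
  rw [coeff_map, h0, map_zero]

end SCB

open SCB in
/-- **SCB.** -/
theorem t_SCB (hHOM : NCC.S_HOM) : S_SCB := by
  intro k q r N R _ _ G H e d hG hH χ Λ hΛ hyp p hp hz t t' c h1 h2 h3 h4
  choose i₀ hi₀ using hp
  obtain ⟨τ, hτdef⟩ : ∃ τ : Fin k → ℂ, τ = fun l => (p ⟨l, i₀ l⟩)⁻¹ := ⟨_, rfl⟩
  have hτ : ∀ l, τ l ≠ 0 := fun l => by
    rw [hτdef]
    exact inv_ne_zero (hi₀ l)
  have hτp : ∀ l, τ l * p ⟨l, i₀ l⟩ = 1 := fun l => by
    rw [hτdef]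
    exact inv_mul_cancel₀ (hi₀ l)
  have hev : ∀ (f : MvPolynomial (Coord N) R) (b : Fin k → ℕ), IsMulti f b →
      eval (fun s => τ s.1 * p s) (fib χ f) = (∏ l, τ l ^ b l) * eval p (fib χ f) :=
    fun f b hf => ((hHOM (fib χ f) b (fib_multi χ f b hf) p).2 τ hτ).1
  have hgr : ∀ (f : MvPolynomial (Coord N) R) (b : Fin k → ℕ), IsMulti f b → ∀ s : Coord N,
      ∀ z : ℂ, z / (∏ l, τ l ^ b l) * grd (fib χ f) (fun s => τ s.1 * p s) s =
        (τ s.1)⁻¹ * (z * grd (fib χ f) p s) := by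
    intro f b hf s z
    have h5 := ((hHOM (fib χ f) b (fib_multi χ f b hf) p).2 τ hτ).2 s
    have h6 := prod_ne τ hτ b
    have h7 := hτ s.1
    rw [div_mul_eq_mul_div, inv_mul_eq_div, div_eq_div_iff h6 h7]
    calc z * grd (fib χ f) (fun s => τ s.1 * p s) s * τ s.1
        = z * (τ s.1 * grd (fib χ f) (fun s => τ s.1 * p s) s) := by ring
      _ = z * grd (fib χ f) p s * (∏ l, τ l ^ b l) := by rw [h5]; ring
  have hva : ∀ (f : MvPolynomial (Coord N) R) (b : Fin k → ℕ), IsMulti f b → ∀ z : ℂ,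
      (z / (∏ l, τ l ^ b l)) • val (fun s => τ s.1 * p s) f = z • val p f := by
    intro f b hf z
    rw [val_scale f b hf p τ, smul_smul, div_mul_cancel₀ _ (prod_ne τ hτ b)]
  have hmain := hyp (fun s => τ s.1 * p s) (fun l => ⟨i₀ l, hτp l⟩)
    (fun i => by rw [hev (G i) (e i) (hG i), hz i, mul_zero])
    (fun i => t i / ∏ l, τ l ^ e i l) (fun a => t' a / ∏ l, τ l ^ d a l)
    (fun s => c s / τ s.1) ?_ ?_ ?_ ?_
  · obtain ⟨m1, m2⟩ := hmain
    constructor
    · funext i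
      have h8 : t i / (∏ l, τ l ^ e i l) = 0 := congrFun m1 i
      rcases div_eq_zero_iff.1 h8 with h9 | h9
      · exact h9
      · exact absurd h9 (prod_ne τ hτ _)
    · funext a
      have h8 : t' a / (∏ l, τ l ^ d a l) = 0 := congrFun m2 a
      rcases div_eq_zero_iff.1 h8 with h9 | h9
      · exact h9
      · exact absurd h9 (prod_ne τ hτ _)
  · intro a ha
    rw [hev (H a) (d a) (hH a)] at ha
    show t' a / (∏ l, τ l ^ d a l) = 0
    rw [h1 a (right_ne_zero_of_mul ha), zero_div]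
  · have h10 : ∑ i, (t i / ∏ l, τ l ^ e i l) • val (fun s => τ s.1 * p s) (G i) +
        ∑ a, (t' a / ∏ l, τ l ^ d a l) • val (fun s => τ s.1 * p s) (H a) =
        ∑ i, t i • val p (G i) + ∑ a, t' a • val p (H a) := by
      rw [Finset.sum_congr rfl fun i _ => hva (G i) (e i) (hG i) (t i),
        Finset.sum_congr rfl fun a _ => hva (H a) (d a) (hH a) (t' a)]
    rw [h10]
    exact h2
  · intro s hs
    have hcs : c s ≠ 0 := by
      intro h0
      refine hs ?_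
      show c s / τ s.1 = 0
      rw [h0, zero_div]
    rw [row_sum Λ hΛ τ p s, h3 s hcs, mul_zero]
  · intro u
    have h11 : ∑ i, (t i / ∏ l, τ l ^ e i l) * grd (fib χ (G i)) (fun s => τ s.1 * p s) u +
        ∑ a, (t' a / ∏ l, τ l ^ d a l) * grd (fib χ (H a)) (fun s => τ s.1 * p s) u =
        (τ u.1)⁻¹ * (∑ i, t i * grd (fib χ (G i)) p u +
          ∑ a, t' a * grd (fib χ (H a)) p u) := by
      rw [Finset.sum_congr rfl fun i _ => hgr (G i) (e i) (hG i) u (t i),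
        Finset.sum_congr rfl fun a _ => hgr (H a) (d a) (hH a) u (t' a), mul_add,
        Finset.mul_sum, Finset.mul_sum]
    rw [h11, h4 u, Finset.mul_sum]
    refine Finset.sum_congr rfl fun s _ => ?_
    by_cases hsu : s.1 = u.1
    · rw [hsu, div_eq_mul_inv]
      ring
    · rw [hΛ s u hsu]
      ring

end

end FNC
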