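import Pool.Agent.FNC.StA

/-!
# TCB: generic hyperplanes are transversal to a family with normal crossings
-/

set_option autoImplicit false

namespace FNC

open MvPolynomial NCC MldX MMCI MMCX RMX

namespace TCB

theorem deriv_aeval {σ : Type} [Fintype σ] {F : Subfield ℂ} (D : Derivation F ℂ ℂ) (p : σ → ℂ)
    (f : MvPolynomial σ F) :
    D (aeval p f) = ∑ s, aeval p (pderiv s f) * D (p s) := by
  classical
  induction f using MvPolynomial.induction_on with
  | C a => simp
  | add f g hf hg =>
    simp only [map_add, hf, hg, add_mul, Finset.sum_add_distrib]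
  | mul_X f i hf =>
    have h1 : ∀ s, aeval p (pderiv s (f * X i)) * D (p s) =
        (if s = i then aeval p f * D (p i) else 0) + p i * (aeval p (pderiv s f) * D (p s)) := by
      intro s
      rw [Derivation.leibniz, map_add, smul_eq_mul, smul_eq_mul, map_mul, map_mul, aeval_X,
        pderiv_X]
      by_cases h : s = i
      · subst h
        rw [if_pos rfl, Pi.single_eq_same, map_one]
        ring
      · rw [if_neg h, Pi.single_eq_of_ne (Ne.symm h), map_zero]
        ring
    simp only [h1, Finset.sum_add_distrib, ← Finset.mul_sum]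
    rw [Finset.sum_ite_eq' Finset.univ i, if_pos (Finset.mem_univ i), ← hf, map_mul, aeval_X,
      Derivation.leibniz, smul_eq_mul, smul_eq_mul]

theorem deriv_monomial {σ : Type} [Fintype σ] {F : Subfield ℂ} (D : Derivation F ℂ ℂ) (p : σ → ℂ)
    (c : σ →₀ ℕ) (a : ℂ) :
    D (eval p (monomial c a)) = eval p (monomial c (1 : ℂ)) * D a +
      ∑ s, eval p (pderiv s (monomial c a)) * D (p s) := by
  have h1 : monomial c a = C a * MvPolynomial.map (algebraMap F ℂ) (monomial c (1 : F)) := by
    rw [map_monomial, map_one, C_mul_monomial, mul_one]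
  have h0 : monomial c (1 : ℂ) = MvPolynomial.map (algebraMap F ℂ) (monomial c (1 : F)) := by
    rw [map_monomial, RingHom.map_one]
  have h2 : ∀ u : MvPolynomial σ F, eval p (MvPolynomial.map (algebraMap F ℂ) u) = aeval p u := by
    intro u
    rw [eval_map, aeval_def]
  rw [h0, h1, h2, map_mul, eval_C, h2, Derivation.leibniz, smul_eq_mul, smul_eq_mul, deriv_aeval,
    add_comm, Finset.mul_sum]
  congr 1
  refine Finset.sum_congr rfl fun s _ => ?_
  rw [Derivation.leibniz, pderiv_C, smul_zero, add_zero, smul_eq_mul, map_mul, eval_C, pderiv_map,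
    h2, mul_assoc]

variable {k : ℕ} {N : Fin k → ℕ} {R : Type} [CommRing R] [Algebra ℂ R]

theorem chain {F : Subfield ℂ} (D : Derivation F ℂ ℂ) (χ : R →ₐ[ℂ] ℂ) (δ : R →ₗ[ℂ] ℂ)
    (p : Coord N → ℂ) (f : MvPolynomial (Coord N) R)
    (hf : ∀ c, δ (f.coeff c) = D (χ (f.coeff c))) :
    D (eval p (fib χ f)) = δ (val p f) + ∑ s, grd (fib χ f) p s * D (p s) := by
  classical
  have hs : f = ∑ c ∈ f.support, monomial c (f.coeff c) := f.as_sum
  have h1 : fib χ f = ∑ c ∈ f.support, monomial c (χ (f.coeff c)) := by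
    conv_lhs => rw [hs]
    unfold fib
    rw [map_sum]
    refine Finset.sum_congr rfl fun c _ => ?_
    rw [map_monomial]
    rfl
  have h2 : val p f = ∑ c ∈ f.support, (eval p (monomial c (1 : ℂ))) • f.coeff c := by
    conv_lhs => rw [hs]
    unfold val
    rw [map_sum]
    refine Finset.sum_congr rfl fun c _ => ?_
    rw [eval_monomial, eval_monomial, one_mul, Algebra.smul_def, mul_comm, Finsupp.prod,
      Finsupp.prod, map_prod]
    simp only [map_pow]
  have h3 : ∀ s, grd (fib χ f) p s =
      ∑ c ∈ f.support, eval p (pderiv s (monomial c (χ (f.coeff c)))) := by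
    intro s
    unfold grd
    rw [h1, map_sum, map_sum]
  rw [h2, map_sum]
  simp only [h3]
  rw [h1, map_sum, map_sum]
  simp only [Finset.sum_mul]
  rw [Finset.sum_comm, ← Finset.sum_add_distrib]
  refine Finset.sum_congr rfl fun c _ => ?_
  rw [deriv_monomial, map_smul, smul_eq_mul, hf c]

theorem zero_sq (χ : R →ₐ[ℂ] ℂ) (δ : R →ₗ[ℂ] ℂ)
    (hδ : ∀ a b, δ (a * b) = χ a * δ b + χ b * δ a) (x : R) (hx : x ∈ idl χ ^ 2) : δ x = 0 := by
  rw [pow_two] at hx
  refine Submodule.mul_induction_on hx (fun a ha b hb => ?_) (fun a b ha hb => ?_)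
  · have ha' : χ a = 0 := ha
    have hb' : χ b = 0 := hb
    rw [hδ, ha', hb', zero_mul, zero_mul, add_zero]
  · rw [map_add, ha, hb, add_zero]

end TCB

open TCB in
theorem t_TCB (hTRV : NCC.S_TRV) : S_TCB := by
  intro k q r N R _ _ F0 G H χ hD Λ hΛ hind p hp hG htr t t' c ht' hsq hc hV
  have hcz : c = 0 := by
    refine hTRV F0 Λ hΛ hind p (fun u => ∑ i, t i * grd (fib χ (G i)) p u +
      ∑ a, t' a * grd (fib χ (H a)) p u) c hp (fun D => ?_) hc (fun u => (hV u).symm)
    obtain ⟨δ, hδ, hδG, hδH⟩ := hD D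
    have h0 := zero_sq χ δ hδ _ hsq
    rw [map_add, map_sum, map_sum] at h0
    simp only [map_smul, smul_eq_mul] at h0
    have h1 : ∀ i, t i * δ (val p (G i)) = -∑ s, t i * grd (fib χ (G i)) p s * D (p s) := by
      intro i
      have h := chain D χ δ p (G i) (hδG i)
      rw [hG i, map_zero] at h
      simp only [mul_assoc]
      rw [← Finset.mul_sum]
      linear_combination -(t i) * h
    have h2 : ∀ a, t' a * δ (val p (H a)) = -∑ s, t' a * grd (fib χ (H a)) p s * D (p s) := by
      intro a
      by_cases hz : eval p (fib χ (H a)) = 0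
      · have h := chain D χ δ p (H a) (hδH a)
        rw [hz, map_zero] at h
        simp only [mul_assoc]
        rw [← Finset.mul_sum]
        linear_combination -(t' a) * h
      · rw [ht' a hz]
        simp
    simp only [h1, h2] at h0
    simp only [add_mul, Finset.sum_mul, Finset.sum_add_distrib]
    rw [Finset.sum_comm, Finset.sum_comm (s := Finset.univ) (t := (Finset.univ : Finset (Fin q)))]
    rw [Finset.sum_neg_distrib, Finset.sum_neg_distrib] at h0
    linear_combination -h0
  refine htr t t' ht' hsq fun s => ?_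
  rw [hV s, hcz]
  simp

end FNC
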