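import Pool.Agent.FNC.StA

/-!
# Module TRB: transport to the new coordinates
-/

set_option autoImplicit false

namespace FNC

open MvPolynomial NCC MldX MMCI MMCX RMX

namespace TRB

variable {k : ℕ} {N : Fin k → ℕ}

theorem act_inv (A Λ : Matrix (Coord N) (Coord N) ℂ) (h : Λ * A = 1) (p : Coord N → ℂ)
    (s : Coord N) : ∑ t, Λ s t * act A p t = p s := by
  have h1 : (∑ t, Λ s t * act A p t) = Matrix.mulVec Λ (Matrix.mulVec A p) s := by
    simp [Matrix.mulVec, dotProduct, act]
  rw [h1, Matrix.mulVec_mulVec, h, Matrix.one_mulVec]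

theorem back (A Λ : Matrix (Coord N) (Coord N) ℂ) (h : A * Λ = 1) (W : Coord N → ℂ)
    (u : Coord N) : W u = ∑ s, (∑ v, A v s * W v) * Λ s u := by
  have h1 : ∀ v, ∑ s, A v s * Λ s u = if v = u then 1 else 0 := by
    intro v
    have := congrFun (congrFun h v) u
    rw [Matrix.mul_apply, Matrix.one_apply] at this
    exact this
  calc W u = ∑ v, (if v = u then 1 else 0) * W v := by simp
    _ = ∑ v, (∑ s, A v s * Λ s u) * W v :=
        Finset.sum_congr rfl fun v _ => by rw [h1]
    _ = ∑ v, ∑ s, A v s * Λ s u * W v := by simp_rw [Finset.sum_mul]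
    _ = ∑ s, ∑ v, A v s * Λ s u * W v := Finset.sum_comm
    _ = ∑ s, (∑ v, A v s * W v) * Λ s u := by
        refine Finset.sum_congr rfl fun s _ => ?_
        rw [Finset.sum_mul]
        exact Finset.sum_congr rfl fun v _ => by ring

end TRB

open TRB in
theorem t_TRB (hSBR : S_SBR) (hSUB : NCC.S_SUB) : S_TRB := by
  intro k q r N R _ _ G H χ A Λ hAΛ hΛA p hL t t' h1 h2 h3
  have hfib : ∀ f : MvPolynomial (Coord N) R, fib χ (subR A f) = sub A (fib χ f) :=
    fun f => (hSBR A f).2.2.1 χ
  have hval : ∀ f : MvPolynomial (Coord N) R, val p (subR A f) = val (act A p) f :=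
    fun f => (hSBR A f).2.1 p
  have hev : ∀ f : Poly N, eval p (sub A f) = eval (act A p) f := by
    intro f
    have := (hSUB A f).2.1 p
    simpa [MvPolynomial.aeval_eq_eval] using this
  have hgrd : ∀ (f : MvPolynomial (Coord N) R) (s : Coord N),
      grd (fib χ (subR A f)) p s = ∑ u, A u s * grd (fib χ f) (act A p) u := by
    intro f s
    rw [hfib]
    exact (hSUB A (fib χ f)).2.2 p s
  obtain ⟨W, hW⟩ : ∃ W : Coord N → ℂ, ∀ u, W u = ∑ i, t i * grd (fib χ (G i)) (act A p) u +
      ∑ a, t' a * grd (fib χ (H a)) (act A p) u := ⟨_, fun _ => rfl⟩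
  have hc : ∀ s, ∑ i, t i * grd (fib χ (subR A (G i))) p s +
      ∑ a, t' a * grd (fib χ (subR A (H a))) p s = ∑ v, A v s * W v := by
    intro s
    simp_rw [hgrd, hW, Finset.mul_sum, mul_add, Finset.sum_add_distrib, Finset.mul_sum]
    congr 1
    · rw [Finset.sum_comm]
      exact Finset.sum_congr rfl fun v _ => Finset.sum_congr rfl fun i _ => by ring
    · rw [Finset.sum_comm]
      exact Finset.sum_congr rfl fun v _ => Finset.sum_congr rfl fun i _ => by ring
  refine hL t t' (fun s => ∑ v, A v s * W v) ?_ ?_ ?_ ?_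
  · intro a ha
    refine h1 a ?_
    rw [hfib, hev]
    exact ha
  · simp only [hval] at h2
    exact h2
  · intro s hs
    rw [act_inv A Λ hΛA]
    by_contra hps
    exact hs ((hc s).symm.trans (h3 s hps))
  · intro u
    rw [← hW]
    exact back A Λ hAΛ W u

end FNC
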