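import Pool.Agent.FNC.StA

/-!
# Module FNC_VXB (MP_fa3f7f_ag): vertices
-/

set_option autoImplicit false

namespace FNC

open MvPolynomial NCC MldX MMCI MMCX RMX

noncomputable section

namespace VXB

variable {k : ℕ} {N : Fin k → ℕ} {R : Type} [CommRing R] [Algebra ℂ R]

/-- The polynomial with the coefficients `θ (coeff_c f)`. -/
def red (θ : R →ₗ[ℂ] ℂ) (f : MvPolynomial (Coord N) R) : Poly N :=
  ∑ c ∈ f.support, monomial c (θ (coeff c f))

lemma coeff_red (θ : R →ₗ[ℂ] ℂ) (f : MvPolynomial (Coord N) R) (a : Coord N →₀ ℕ) :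
    coeff a (red θ f) = θ (coeff a f) := by
  classical
  unfold red
  rw [coeff_sum]
  simp only [coeff_monomial]
  rw [Finset.sum_ite_eq']
  split_ifs with h
  · rfl
  · rw [notMem_support_iff.1 h, map_zero]

lemma eval_red (θ : R →ₗ[ℂ] ℂ) (f : MvPolynomial (Coord N) R) (P : Coord N → ℂ) :
    eval P (red θ f) = θ (val P f) := by
  unfold red val
  rw [map_sum, eval_eq, map_sum]
  apply Finset.sum_congr rfl
  intro c _
  rw [eval_monomial]
  have h : coeff c f * ∏ i ∈ c.support, (algebraMap ℂ R (P i)) ^ c i =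
      (∏ i ∈ c.support, P i ^ c i) • coeff c f := by
    rw [Algebra.smul_def, map_prod]
    simp only [map_pow]
    ring
  rw [h, map_smul, smul_eq_mul, Finsupp.prod, mul_comm]

end VXB

open VXB in
theorem t_VXB (hSBR : S_SBR) (hSUB : NCC.S_SUB) : S_VXB := by
  intro k N R _ _ f hf
  obtain ⟨a, ha⟩ := exists_coeff_ne_zero hf
  obtain ⟨θ, hθ⟩ : ∃ θ : R →ₗ[ℂ] ℂ, θ (coeff a f) ≠ 0 := by
    by_contra h
    push Not at h
    exact ha ((Module.forall_dual_apply_eq_zero_iff ℂ (coeff a f)).1 h)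
  refine ⟨red θ f, ?_, ?_⟩
  · intro h
    apply hθ
    rw [← coeff_red, h, coeff_zero]
  · intro A v hv h0
    apply hv
    have h1 := (hSUB A (red θ f)).2.1 (R := ℂ) (vert v)
    have e : ∀ (x : Coord N → ℂ) (g : Poly N), aeval x g = eval x g := by
      intro x g
      rw [← coe_aeval_eq_eval]
      rfl
    rw [e, e] at h1
    have h2 := (hSBR (R := R) A f).2.1 (vert v)
    rw [h1, eval_red, ← h2, h0, map_zero]

end

end FNC
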