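import Pool.Agent.FNC.FAMC
import Pool.Agent.FNC.KMT
import Pool.Agent.FNC.COO
import Pool.Agent.FNC.SBR
import Pool.Agent.FNC.PTX
import Pool.Agent.FNC.DEF
import Pool.Agent.FNC.TCB
import Pool.Agent.FNC.SCB
import Pool.Agent.FNC.TRB
import Pool.Agent.FNC.VXB
import Pool.Agent.FNC.CRB
import Pool.Agent.FNC.RHO
import Pool.Agent.FNC.KXR
import Pool.Agent.FNC.KLQ
import Pool.Agent.FNC.KFM
import Pool.Agent.FNC.KNF
import Pool.Agent.FNC.SNF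
import Pool.Agent.FNC.CNB
import Pool.Agent.FNC.AFC
import Pool.Agent.FNC.NEB
import Pool.Agent.FNC.INIR
import Pool.Agent.FNC.INJR
import Pool.Agent.FNC.NDB
import Pool.Agent.FNC.NDC
import Pool.Agent.FNC.AFB
import Pool.Agent.FNC.GNB
import Pool.Agent.FNC.LQB
import Pool.Agent.FNC.FIB
import Pool.Agent.KUM.EVP
import Pool.Agent.KUM.EVA
import Pool.Agent.KUM.PRNA
import Pool.Agent.KUM.CNG
import Pool.Agent.NCC.AsmB
import Pool.Agent.RMT.AsmC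

/-!
# The theorem for crossing families, without hypotheses
-/

set_option autoImplicit false

namespace FNC

open MvPolynomial NCC MldX MMCI MMCX RMX

noncomputable section

theorem c_CRB : S_CRB :=
  t_CRB t_DEF (t_TCB NCC.c_TRV) (t_SCB NCC.t_HOM) (t_TRB t_SBR NCC.t_SUB)
    (t_VXB t_SBR NCC.t_SUB) t_SBR NCC.t_IND (NCC.t_INV NCC.t_CNT) (NCC.t_VTX NCC.t_SUB) NCC.t_HYP

theorem c_NDB : S_NDB :=
  t_NDB KUM.t_EVP KUM.t_EVA NCC.t_HOM t_FIB t_AFC (t_INIR t_AFC) t_INJR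

theorem c_NDC : S_NDC :=
  t_NDC KUM.t_EVP KUM.t_EVA NCC.t_HOM t_FIB t_AFC (t_INIR t_AFC) t_INJR

theorem c_KMT : S_KMT :=
  t_KMT (t_KFM (t_KXR KUM.t_EVP KUM.t_EVA t_RHO) t_KLQ) (t_KNF KUM.t_PRN KUM.t_CNG) finalU

/-- Abelian covers of crossing families. -/
theorem family : S_FAMC :=
  t_FAMC (t_COO c_CRB t_SBR t_PTX) t_SBR t_PTX c_NDB c_NDC (t_NEB t_AFC) (t_LQB t_AFC) t_AFB t_AFC
    t_GNB (t_CNB t_PTX t_SNF KUM.t_PRN KUM.t_CNG) c_KMT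

end

end FNC
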