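import Pool.Agent.KUM.Defs
import Pool.Agent.NCC.Defs

/-!
# Families with normal crossings (MP_fa3f7f_ag): definitions

`B` is a projective variety with the function field `F`, `g_1, …, g_r` and `h_1, …, h_q` are
multihomogeneous polynomials over `F` in the homogeneous coordinates of
`ℙ^(N 0) × … × ℙ^(N (k-1))`; over the chart `j` of `B` they are, up to factors from `F`, the polynomials
`G j i`, `H j a` with regular coefficients. `Z = {g_1 = … = g_r = 0}` is a smooth complete intersection in
`B × ℙ`, and the divisors `D_a = {h_a = 0}` on it have normal crossings (for the singular points of `B` see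
`IsCrossingFamily`). `K` is the function field of an
abelian cover of a component of `Z` which is branched only along the `D_a`.
-/

set_option autoImplicit false

namespace FNC

open MvPolynomial NCC MldX MMCI MMCX RMX

noncomputable section

variable {k q r v : ℕ} {N : Fin k → ℕ}

section Ring

variable {R : Type} [CommRing R] [Algebra ℂ R]

/-- `f` is multihomogeneous of the multidegree `d`. -/
def IsMulti (f : MvPolynomial (Coord N) R) (d : Fin k → ℕ) : Prop :=
  ∀ a ∈ f.support, ∀ l, ∑ i, a ⟨l, i⟩ = d l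

/-- The restriction of `f` to the points with the homogeneous coordinates `p`. -/
def val (p : Coord N → ℂ) (f : MvPolynomial (Coord N) R) : R :=
  eval (fun s => algebraMap ℂ R (p s)) f

/-- The restriction of `f` to the fibre over the point `χ` of `B`. -/
def fib (χ : R →ₐ[ℂ] ℂ) (f : MvPolynomial (Coord N) R) : Poly N := map (χ : R →+* ℂ) f

/-- The maximal ideal of the point `χ`. -/
def idl (χ : R →ₐ[ℂ] ℂ) : Ideal R := RingHom.ker (χ : R →+* ℂ)

/-- The differentials of the `G i`, and of those `H a` which are zero at the point `(χ, p)`, are linearly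
independent at `(χ, p)`. -/
def Transversal (χ : R →ₐ[ℂ] ℂ) (p : Coord N → ℂ) (G : Fin r → MvPolynomial (Coord N) R)
    (H : Fin q → MvPolynomial (Coord N) R) : Prop :=
  ∀ (t : Fin r → ℂ) (t' : Fin q → ℂ), (∀ a, eval p (fib χ (H a)) ≠ 0 → t' a = 0) →
    ∑ i, t i • val p (G i) + ∑ a, t' a • val p (H a) ∈ idl χ ^ 2 →
    (∀ s, ∑ i, t i * grd (fib χ (G i)) p s + ∑ a, t' a * grd (fib χ (H a)) p s = 0) →
    t = 0 ∧ t' = 0

end Ring

variable {F K : Type} [Field F] [Field K] [Algebra ℂ F] [Algebra ℂ K] [Algebra F K]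
  [IsScalarTower ℂ F K]

/-- The variety with the ring `R`, of dimension `b`, is smooth at the point `χ`: the cotangent space has
the dimension `b`. -/
def SmoothAt {R : Type} [CommRing R] [Algebra ℂ R] (b : ℕ) (χ : R →ₐ[ℂ] ℂ) : Prop :=
  ∃ y : Fin b → R, idl χ = Ideal.span (Set.range y) ⊔ idl χ ^ 2

/-- Over the chart `j` of `B`, `g_i` is a multiple (by a nonzero rational function) of the polynomial
`G j i` with regular coefficients without common zeros, and `h_a` is given by `H j a = σ_(j, a) h_a`, where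
the `σ_(j, a)` define a line bundle `M_a` on `B`. At the smooth points of `B`, `Z = {g_1 = … = g_r = 0}` is
smooth of codimension `r` and the divisors `D_a = Z ∩ {h_a = 0}` on it have normal crossings; the fibres
of `Z` and of the `D_a` over the other points of `B`, if there are any, are given by one system
`G0 i`, `H0 a` over `ℂ`, which is smooth of codimension `r` with normal crossings. -/
structure IsCrossingFamily (b : ℕ) (B : ProjModel F) (g : Fin r → MvPolynomial (Coord N) F)
    (h : Fin q → MvPolynomial (Coord N) F) (σ : Fin (B.N + 1) → Fin q → F)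
    (G : (j : Fin (B.N + 1)) → Fin r → MvPolynomial (Coord N) (B.ring j))
    (H : (j : Fin (B.N + 1)) → Fin q → MvPolynomial (Coord N) (B.ring j))
    (G0 : Fin r → Poly N) (H0 : Fin q → Poly N) : Prop where
  chart : ∀ j i, ∃ u : F, u ≠ 0 ∧ ∀ a, (((G j i).coeff a : B.ring j) : F) = u * (g i).coeff a
  coprime : ∀ (j : Fin (B.N + 1)) (i : Fin r) (χ : B.ring j →ₐ[ℂ] ℂ), fib χ (G j i) ≠ 0
  bundle : IsBundle B σ
  divisor : ∀ j a c, (((H j a).coeff c : B.ring j) : F) = σ j a * (h a).coeff c
  crossing : ∀ (j : Fin (B.N + 1)) (χ : B.ring j →ₐ[ℂ] ℂ),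
    (SmoothAt b χ ∧ ∀ p : Coord N → ℂ, IsPoint p → (∀ i, eval p (fib χ (G j i)) = 0) →
      Transversal χ p (G j) (H j)) ∨
    (NormalCrossings G0 H0 ∧ (∀ i, ∃ c : ℂ, c ≠ 0 ∧ fib χ (G j i) = C c * G0 i) ∧
      ∀ a, ∃ c : ℂ, c ≠ 0 ∧ fib χ (H j a) = C c * H0 a)

/-- `B` has terminal singularities, and `K` is the function field of a variety `X` of dimension
`b + n > 0`, `b = dim B`, with a finite morphism to an irreducible component of `Z` (of dimension
`b + n`, `n = ∑ N_l - r`) which dominates `B`; `x` are homogeneous coordinates of its generic point (one of the coordinates in each factor is one),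
which does not lie on the `D_a`. The extension is generated by the functions `w_c`,
`w_c ^ m_c = γ_c ∏_a h_a(x) ^ κ_(c, a)`, where `m_c` divides the multidegree of this product, `γ_c ∈ F`, and
`div(γ_c) = ∑_a κ_(c, a) div(σ_a) + m_c E_c` with Cartier divisors `E_c` on `B`: it is abelian, and `X`
(normal) is étale over the complement of the divisors `D_a`. -/
structure IsFamilyCover (b n : ℕ) (B : ProjModel F) (g : Fin r → MvPolynomial (Coord N) F)
    (h : Fin q → MvPolynomial (Coord N) F) (d : Fin q → Fin k → ℕ)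
    (σ : Fin (B.N + 1) → Fin q → F) (E : Fin (B.N + 1) → Fin v → F) (x : Coord N → K)
    (w : Fin v → K) (m : Fin v → ℕ) (κ : Fin v → Fin q → ℤ) (γ : Fin v → F) : Prop where
  dim_eq : ∑ l, N l = r + n
  pos : 0 < b + n
  dim_base : Algebra.trdeg ℂ F = (b : Cardinal)
  terminal : Terminal b B
  dim : Algebra.trdeg ℂ K = ((b + n : ℕ) : Cardinal)
  one : ∀ l, ∃ i, x ⟨l, i⟩ = 1
  zero : ∀ i, aeval x (g i) = 0
  ne : ∀ a, aeval x (h a) ≠ 0
  root : ∀ c, 0 < m c ∧ w c ^ m c = algebraMap F K (γ c) * ∏ a, aeval x (h a) ^ κ c a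
  unram : ∀ c l, (m c : ℤ) ∣ ∑ a, κ c a * d a l
  bundle : IsBundle B E
  div : ∀ (j : Fin (B.N + 1)) (c : Fin v), γ c ≠ 0 ∧ ∃ ε : B.ring j, IsUnit ε ∧
    (ε : F) * (∏ a, σ j a ^ κ c a) * E j c ^ m c = γ c
  gen : IntermediateField.adjoin F (Set.range x ∪ Set.range w) = ⊤

/-- The line bundle `M_a` is nef. -/
def BundleNef (b : ℕ) (B : ProjModel F) (σ : Fin (B.N + 1) → Fin q → F) (a : Fin q) : Prop :=
  NefT b B σ (fun i : Fin 0 => i.elim0) 0 (fun i => i.elim0) (Pi.single a 1)

/-- The line bundle `M_a` is semiample. -/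
def BundleSemiample (b : ℕ) (B : ProjModel F) (σ : Fin (B.N + 1) → Fin q → F) (a : Fin q) : Prop :=
  SemiampleT b B σ (fun i : Fin 0 => i.elim0) 0 (fun i => i.elim0) (Pi.single a 1)

end

end FNC
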