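import Pool.Agent.FNC.StC
import Pool.Agent.FNC.StD

/-!
# The theorem for crossing families, from the statements
-/

set_option autoImplicit false

namespace FNC

open MvPolynomial NCC MldX MMCI MMCX RMX

noncomputable section

namespace FAMC_aux

variable {k q : ℕ} {N : Fin k → ℕ}

/-- The values of `map f`. -/
theorem val_map {R S : Type} [CommRing R] [CommRing S] [Algebra ℂ R] [Algebra ℂ S] [Algebra R S]
    [IsScalarTower ℂ R S] (p : Coord N → ℂ) (f : MvPolynomial (Coord N) R) :
    val p (map (algebraMap R S) f) = algebraMap R S (val p f) := by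
  unfold val
  rw [eval_map]
  have h1 : (fun s => algebraMap ℂ S (p s)) = fun s => algebraMap R S (algebraMap ℂ R (p s)) := by
    funext s
    exact IsScalarTower.algebraMap_apply ℂ R S (p s)
  rw [h1]
  exact (eval₂_comp_left (algebraMap R S) (RingHom.id R) (fun s => algebraMap ℂ R (p s)) f).symm

theorem val_C_mul {R : Type} [CommRing R] [Algebra ℂ R] (p : Coord N → ℂ) (u : R)
    (f : MvPolynomial (Coord N) R) : val p (C u * f) = u * val p f := by
  unfold val
  rw [map_mul, eval_C]

theorem multi_of {R S : Type} [CommRing R] [CommRing S] (f : MvPolynomial (Coord N) R)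
    (f' : MvPolynomial (Coord N) S) (d : Fin k → ℕ) (h : IsMulti f d)
    (hs : ∀ a, f'.coeff a ≠ 0 → f.coeff a ≠ 0) : IsMulti f' d := by
  intro a ha l
  exact h a (mem_support_iff.2 (hs a (mem_support_iff.1 ha))) l

end FAMC_aux

open FAMC_aux in
theorem t_FAMC (hCOO : S_COO) (hSBR : S_SBR) (hPTX : S_PTX) (hNDB : S_NDB) (hNDC : S_NDC)
    (hNEB : S_NEB) (hLQB : S_LQB) (hAFB : S_AFB) (hAFC : S_AFC) (hGNB : S_GNB) (hCNB : S_CNB)
    (hKMT : S_KMT) : S_FAMC := by
  intro F K _ _ _ _ _ _ b n k q r v N B g h σ G H G0 H0 e d E x w m κ γ hg hh hZ hX hB hM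
  classical
  have hh0 : ∀ a, h a ≠ 0 := by
    intro a ha
    apply hX.ne a
    rw [ha, map_zero]
  have hx : IsPoint x := by
    intro l
    obtain ⟨i, hi⟩ := hX.one l
    exact ⟨i, by rw [hi]; exact one_ne_zero⟩
  have hσ0 : ∀ j a, σ j a ≠ 0 := fun j a => (hZ.bundle j j a).1
  obtain ⟨A, Λ, hA, hΛ, hAΛ, hΛA, hcr, hvG, hvH, hx'⟩ :=
    hCOO B g h σ G H G0 H0 e d hg hh hh0 hZ x hx
  set g' : Fin r → MvPolynomial (Coord N) F := fun i => subR A (g i) with hg'
  set h' : Fin q → MvPolynomial (Coord N) F := fun a => subR A (h a) with hh'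
  set G' : (j : Fin (B.N + 1)) → Fin r → MvPolynomial (Coord N) (B.ring j) :=
    fun j i => subR A (G j i) with hG'
  set H' : (j : Fin (B.N + 1)) → Fin q → MvPolynomial (Coord N) (B.ring j) :=
    fun j a => subR A (H j a) with hH'
  have hgm : ∀ i, IsMulti (g' i) (e i) := fun i => (hSBR A (g i)).1 hA _ (hg i)
  have hhm : ∀ a, IsMulti (h' a) (d a) := fun a => (hSBR A (h a)).1 hA _ (hh a)
  have hFT : ∀ j, Algebra.FiniteType ℂ (B.ring j) := by
    intro j
    rw [← Subalgebra.fg_iff_finiteType]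
    refine ⟨(Set.finite_range fun k => B.s k / B.s j).toFinset, ?_⟩
    rw [Set.Finite.coe_toFinset]
    rfl
  -- the charts
  have hch : ∀ j i, ∃ u : F, u ≠ 0 ∧ map (algebraMap (B.ring j) F) (G j i) = C u * g i := by
    intro j i
    obtain ⟨u, hu, h1⟩ := hZ.chart j i
    refine ⟨u, hu, ?_⟩
    ext a
    rw [coeff_map, coeff_C_mul]
    exact h1 a
  have hdv : ∀ j a, map (algebraMap (B.ring j) F) (H j a) = C (σ j a) * h a := by
    intro j a
    ext c
    rw [coeff_map, coeff_C_mul]
    exact hZ.divisor j a c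
  have hch' : ∀ j i, ∃ u : F, u ≠ 0 ∧ map (algebraMap (B.ring j) F) (G' j i) = C u * g' i := by
    intro j i
    obtain ⟨u, hu, h1⟩ := hch j i
    refine ⟨u, hu, ?_⟩
    simp only [hG', hg']
    rw [(hSBR A (G j i)).2.2.2.2.2.2.1 (S := F), h1, (hSBR A (g i)).2.2.2.2.2.2.2.1]
  have hdv' : ∀ j a, map (algebraMap (B.ring j) F) (H' j a) = C (σ j a) * h' a := by
    intro j a
    simp only [hH', hh']
    rw [(hSBR A (H j a)).2.2.2.2.2.2.1 (S := F), hdv, (hSBR A (h a)).2.2.2.2.2.2.2.1]
  have hGm : ∀ j i, IsMulti (G' j i) (e i) := by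
    intro j i
    obtain ⟨u, -, h1⟩ := hch' j i
    refine multi_of (g' i) (G' j i) (e i) (hgm i) fun a ha h0 => ha ?_
    have h2 : (((G' j i).coeff a : B.ring j) : F) = u * (g' i).coeff a := by
      have h3 := congrArg (fun f => coeff a f) h1
      simp only [coeff_map, coeff_C_mul] at h3
      exact h3
    rw [h0, mul_zero] at h2
    exact Subtype.ext h2
  have hHm : ∀ j a, IsMulti (H' j a) (d a) := by
    intro j a
    refine multi_of (h' a) (H' j a) (d a) (hhm a) fun c hc h0 => hc ?_
    have h2 : (((H' j a).coeff c : B.ring j) : F) = σ j a * (h' a).coeff c := by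
      have h3 := congrArg (fun f => coeff c f) (hdv' j a)
      simp only [coeff_map, coeff_C_mul] at h3
      exact h3
    rw [h0, mul_zero] at h2
    exact Subtype.ext h2
  have hfib : ∀ (j : Fin (B.N + 1)) (i : Fin r) (χ : B.ring j →ₐ[ℂ] ℂ), fib χ (G' j i) ≠ 0 := by
    intro j i χ h0
    apply hZ.coprime j i χ
    have h1 := (hSBR A (G j i)).2.2.2.2.2.2.2.2 Λ hAΛ
    rw [← h1, (hSBR Λ (subR A (G j i))).2.2.1 χ]
    have h2 : fib χ (subR A (G j i)) = 0 := h0
    rw [h2]
    exact map_zero _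
  have hvg : ∀ v : (l : Fin k) → Fin (N l + 1), (∀ i, val (vert v) (g' i) ≠ 0) ∧
      ∀ a, val (vert v) (h' a) ≠ 0 := by
    intro v
    constructor
    · intro i h0
      obtain ⟨u, hu, h1⟩ := hch' 0 i
      have h2 := congrArg (val (vert v)) h1
      rw [val_map, val_C_mul, h0, mul_zero] at h2
      exact hvG 0 i v (Subtype.ext h2)
    · intro a h0
      have h2 := congrArg (val (vert v)) (hdv' 0 a)
      rw [val_map, val_C_mul, h0, mul_zero] at h2
      exact hvH 0 a v (Subtype.ext h2)
  -- the point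
  set x' : Coord N → K := act Λ x with hx'd
  have hact : act A x' = x := by
    funext s
    simp only [hx'd, act, Finset.mul_sum]
    rw [Finset.sum_comm]
    have h1 : ∀ t, ∑ v, algebraMap ℂ K (A s v) * (algebraMap ℂ K (Λ v t) * x t) =
        algebraMap ℂ K ((A * Λ) s t) * x t := by
      intro t
      rw [Matrix.mul_apply, map_sum, Finset.sum_mul]
      exact Finset.sum_congr rfl fun v _ => by rw [map_mul, mul_assoc]
    rw [Finset.sum_congr rfl fun t _ => h1 t, hAΛ]
    simp [Matrix.one_apply]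
  have haev : ∀ f : MvPolynomial (Coord N) F, aeval x' (subR A f) = aeval x f := by
    intro f
    rw [(hSBR A f).2.2.2.1 x', hact]
  have hz0 : ∀ i, aeval x' (g' i) = 0 := fun i => by
    simp only [hg']
    rw [haev]
    exact hX.zero i
  have hzh : ∀ a, aeval x' (h' a) = aeval x (h a) := fun a => by
    simp only [hh']
    rw [haev]
  have haff := hAFB g' h' e d hgm hhm x' hx' hz0
  obtain ⟨w', hw', hgen⟩ := hGNB B g h d σ E x w m κ γ hX A Λ hA hΛ hAΛ hx'
  set z : Fin q → K := fun a => aeval x (h a) / ∏ l, x' ⟨l, 0⟩ ^ d a l with hzd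
  have hzz : (fun a => aeval x' (h' a) / ∏ l, x' ⟨l, 0⟩ ^ d a l) = z := by
    funext a
    rw [hzh]
  rw [hzz] at haff
  set X : Fin (MM N q) → K := xx x' z with hXd
  have hX0 : ∀ i, X i ≠ 0 := by
    intro i
    simp only [hXd, xx]
    rcases (en N q).symm i with s | a
    · simp only [Sum.elim_inl]
      exact div_ne_zero (hx' _) (hx' _)
    · simp only [Sum.elim_inr, hzd]
      exact div_ne_zero (hX.ne a) (Finset.prod_ne_zero_iff.2 fun l _ => pow_ne_zero _ (hx' _))
  have htb : ∀ j, tB N B σ j = tb N (σ j) := fun j => rfl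
  have hND : IsND b B (tB N B σ) (sysR g' h') X := by
    refine
      { bundle := ?_
        f_ne := hNEB g' h' e d hgm hhm hvg
        ne := hX0
        zero := haff
        nondeg := ?_ }
    · intro j j' i
      simp only [tB]
      rcases (en N q).symm i with s | a
      · simp only [Sum.elim_inl]
        exact ⟨one_ne_zero, by rw [div_one]; exact one_mem _, by rw [div_one]; exact one_mem _⟩
      · simp only [Sum.elim_inr]
        obtain ⟨h1, h2, h3⟩ := hZ.bundle j j' a
        obtain ⟨h4, -, -⟩ := hZ.bundle j' j a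
        refine ⟨inv_ne_zero h1, ?_, ?_⟩
        · rw [inv_div_inv]
          exact h3
        · rw [inv_div_inv]
          exact h2
    · intro ν j mm hmm
      obtain ⟨χ, rfl⟩ := hPTX (hFT j) mm hmm
      refine ⟨sysR (G' j) (H' j), ?_, ?_⟩
      · rw [htb]
        refine hLQB (B.ring j) g' h' (σ j) (G' j) (H' j) e d (hGm j) (hHm j) ?_ (hσ0 j) ?_ χ
          (hfib j · χ)
        · intro i
          obtain ⟨u, hu, h1⟩ := hch' j i
          refine ⟨u, hu, fun a => ?_⟩
          have h3 := congrArg (fun f => coeff a f) h1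
          simp only [coeff_map, coeff_C_mul] at h3
          exact h3
        · intro a c
          have h3 := congrArg (fun f => coeff c f) (hdv' j a)
          simp only [coeff_map, coeff_C_mul] at h3
          exact h3
      · intro M hM hMc hin
        rcases hcr j χ with ⟨⟨y, hy⟩, h1⟩ | h1
        · refine Or.inl ⟨⟨y, hy⟩, ?_⟩
          exact hNDB (G' j) (H' j) e d (hFT j) (hGm j) (hHm j)
            (fun v => ⟨fun i => hvG j i v, fun a => hvH j a v⟩) χ h1 ν M hM hMc hin
        · refine Or.inr ?_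
          exact hNDC (G' j) (H' j) e d (hFT j) (hGm j) (hHm j)
            (fun v => ⟨fun i => hvG j i v, fun a => hvH j a v⟩) χ h1 ν M hM hMc hin
  have hn : ∀ j (z : F), IsIntegral (B.ring j) z → z ∈ B.ring j :=
    fun j z hz => (hX.terminal j).1 z hz
  obtain ⟨c1, c2⟩ := hCNB B g' h' σ G' H' hX.dim_base hn (fun i => ⟨e i, hgm i⟩)
    (fun a => ⟨d a, hhm a⟩)
    (fun j i => by
      obtain ⟨u, hu, h1⟩ := hch' j i
      refine ⟨u, hu, fun a => ?_⟩
      have h3 := congrArg (fun f => coeff a f) h1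
      simp only [coeff_map, coeff_C_mul] at h3
      exact h3) hfib hσ0
    (fun j a c => by
      have h3 := congrArg (fun f => coeff c f) (hdv' j a)
      simp only [coeff_map, coeff_C_mul] at h3
      exact h3)
  obtain ⟨Y, hY, hY'⟩ := hKMT (e := n) B (tB N B σ) E (sysR g' h') X γ m (fun c => zexp N (κ c)) w'
    hND hX.terminal hX.dim_base hX.pos (by
      simp only [Fintype.card_sum, Fintype.card_sigma, Fintype.card_fin]
      have := hX.dim_eq
      omega) hX.dim hX.bundle (fun c => (hX.root c).1) (fun c => (hX.div 0 c).1)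
    (fun j c => by
      obtain ⟨-, ε, hε, h1⟩ := hX.div j c
      refine ⟨ε, hε, ?_⟩
      rw [htb, ((hAFC (q := q) (0 : MvPolynomial (Coord N) F)).2.2.2 (σ j)).2.2 (κ c), ← h1]
      have h2 : (∏ a, σ j a ^ κ c a) ≠ 0 :=
        Finset.prod_ne_zero_iff.2 fun a _ => zpow_ne_zero _ (hσ0 j a)
      field_simp) hw' hgen hB (c1 hM)
  refine ⟨Y, hY, ?_⟩
  rcases hY' with ⟨h1, h2⟩ | h1
  · exact Or.inl ⟨h1, fun h3 h4 => h2 h3 (c2 h4)⟩
  · exact Or.inr h1

end

end FNC
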