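import Pool.Agent.FNC.StA
import Pool.Agent.MMCI.CD
import Pool.Agent.MMCI.BridgeX

/-!
# Families with normal crossings (MP_fa3f7f_ag): semiample divisors are nef (module SNF)
-/

set_option autoImplicit false

namespace FNC

open MvPolynomial NCC MldX MMCI MMCX RMX

noncomputable section

namespace SNF

variable {F : Type} [Field F] [Algebra ℂ F] {b : ℕ} (B : ProjModel F)

/-- A function of order zero along the prime divisors through a point is a unit at the point. -/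
theorem unit_at (hd : Algebra.trdeg ℂ F = (b : Cardinal))
    (hn : ∀ j (z : F), IsIntegral (B.ring j) z → z ∈ B.ring j) (j : Fin (B.N + 1))
    (m : Ideal (B.ring j)) (hm : m.IsMaximal) (z : F) (hz : z ≠ 0)
    (hord : ∀ (v : MldGeo.DivVal b F) (P : Ideal (B.ring j)),
      MMCI.IsPrimeDivisor (B.ring j) v P → P ≤ m → v.ord z = 0) :
    ∃ p q : B.ring j, q ∉ m ∧ p ∉ m ∧ z * q = p := by
  obtain ⟨p, q, hq, hpq⟩ := LCM_holds B hd hn j m hm z
    fun v P hP hle => Or.inr (hord v P hP hle).ge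
  obtain ⟨p', q', hq', hpq'⟩ := LCM_holds B hd hn j m hm z⁻¹
    fun v P hP hle => Or.inr (by rw [MldGeo.DivVal.ord_inv, hord v P hP hle, neg_zero])
  refine ⟨p, q, hq, ?_, hpq⟩
  intro hp
  have h1 : q * q' = p * p' := by
    apply Subtype.ext
    change (q : F) * (q' : F) = (p : F) * (p' : F)
    rw [← hpq, ← hpq']
    field_simp
  have h2 : q * q' ∈ m := by
    rw [h1]
    exact m.mul_mem_right _ hp
  rcases hm.isPrime.mem_or_mem h2 with h3 | h3
  · exact hq h3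
  · exact hq' h3

end SNF

theorem t_SNF : S_SNF := by
  intro F _ _ b n r B t f l p hd hn hS ω hω γ k h0 g u hk H
  classical
  obtain ⟨hR1, -, hR3, hR4, hR5, -, -⟩ := t_RSU γ
  obtain ⟨hP1, -, hP3⟩ := PRF_holds (t_CUR γ)
  obtain ⟨K, N, h, hK, hh, hreg, hgen⟩ := hS ω hω
  choose j m hmt heq using H.eqn
  choose q hq using fun w : DivVal 1 γ.L => hgen (j w) (m w) (hmt w).1
  obtain ⟨w₁, -⟩ := hP3 ∅
  let w₀ : DivVal 1 γ.L := ofOld w₁
  have hh0 := H.h_ne
  have hg0 : ∀ w, g w ≠ 0 := by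
    intro w hw
    refine (hR4 _ _ (H.restr w) (H.u_ne w)).1 ?_
    rw [hw, zero_div]
  -- the divisor at the chart of `w`
  set D : (w : DivVal 1 γ.L) → DivVal b F → ℤ := fun w v => divOrdT ω (t (j w)) f 0 l p v with hDdef
  -- `ρ w = g w ^ K * h (q w) ^ k` is a unit
  have hζ : ∀ w : DivVal 1 γ.L, ∃ ζ : γ.L, γ.Restr (g w ^ K * h (q w) ^ k) ζ ∧ ζ ≠ 0 ∧
      w.old.ord ζ = 0 := by
    intro w
    have hz : g w ^ K * h (q w) ^ k ≠ 0 := mul_ne_zero (pow_ne_zero _ (hg0 w))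
      (pow_ne_zero _ (hh _))
    obtain ⟨p', q', hq', hp', hpq'⟩ := SNF.unit_at B hd hn (j w) (m w) (hmt w).1
      (g w ^ K * h (q w) ^ k) hz (by
        intro v P hP hle
        have h1 := heq w (ofOld v) P (isPrimeDivisor_iff.1 hP) hle
        have h2 := hq w (ofOld v) P (isPrimeDivisor_iff.1 hP) hle
        change v.ord (g w) = k * D w (ofOld v) at h1
        change v.ord (h (q w)) + K * D w (ofOld v) = 0 at h2
        rw [v.ord_mul _ _ (pow_ne_zero _ (hg0 w)) (pow_ne_zero _ (hh _)),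
          MldGeo.DivVal.ord_pow, MldGeo.DivVal.ord_pow, h1]
        linear_combination (k : ℤ) * h2)
    obtain ⟨ζ, h1, -, h2, -⟩ := RGW_holds γ w.old (j w) (m w) (hmt w) _ p' q' hq' hpq'
    exact ⟨ζ, h1, (h2 hp').1, (h2 hp').2⟩
  choose ζ hζ1 hζ0 hζ2 using hζ
  -- `ψ w`, the restriction of `1 / (h0 ^ K * h (q w) ^ k)`
  set ψ : DivVal 1 γ.L → γ.L := fun w => u w ^ K * (ζ w)⁻¹ with hψdef
  have hψ0 : ∀ w, ψ w ≠ 0 := fun w => mul_ne_zero (pow_ne_zero _ (H.u_ne _))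
    (inv_ne_zero (hζ0 _))
  have hψ1 : ∀ w, γ.Restr (h0 ^ K * h (q w) ^ k)⁻¹ (ψ w) := by
    intro w
    have h1 := (hR4 _ _ (hζ1 w) (hζ0 w)).2 (-1)
    have h2 := hR3 _ _ _ _ (hR5 _ _ K (H.restr w)) h1
    rw [zpow_neg_one, zpow_neg_one] at h2
    have h3 : (g w / h0) ^ K * (g w ^ K * h (q w) ^ k)⁻¹ = (h0 ^ K * h (q w) ^ k)⁻¹ := by
      have h4 := hg0 w
      have h5 := hh (q w)
      rw [div_pow]
      field_simp
    rwa [h3] at h2
  have hψ2 : ∀ w : DivVal 1 γ.L, w.old.ord (ψ w) = K * w.old.ord (u w) := by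
    intro w
    have h3 := w.old.ord_mul (u w ^ K) (ζ w)⁻¹ (pow_ne_zero _ (H.u_ne w)) (inv_ne_zero (hζ0 w))
    rw [MldGeo.DivVal.ord_pow, MldGeo.DivVal.ord_inv, hζ2 w, neg_zero, add_zero] at h3
    exact h3
  -- the restriction `U w` of `h (q w₀) / h (q w)`
  have hU : ∀ w : DivVal 1 γ.L, ∃ U : γ.L, γ.Restr (h (q w₀) / h (q w)) U ∧ U ≠ 0 ∧
      0 ≤ w.old.ord U ∧ (k : ℤ) * w.old.ord U = w.old.ord (ψ w) - w.old.ord (ψ w₀) := by
    intro w
    obtain ⟨p', q', hq', hpq'⟩ := LCM_holds B hd hn (j w) (m w) (hmt w).1 (h (q w₀) / h (q w)) (by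
      intro v P hP hle
      refine Or.inr ?_
      have h1 := hreg (q w₀) (j w) (ofOld v) P (isPrimeDivisor_iff.1 hP)
      have h2 := hq w (ofOld v) P (isPrimeDivisor_iff.1 hP) hle
      change 0 ≤ v.ord (h (q w₀)) + K * D w (ofOld v) at h1
      change v.ord (h (q w)) + K * D w (ofOld v) = 0 at h2
      rw [MldGeo.DivVal.ord_div v (hh _) (hh _)]
      linarith)
    obtain ⟨U, h1, h2, -, -⟩ := RGW_holds γ w.old (j w) (m w) (hmt w) _ p' q' hq' hpq'
    have h3 := (hR4 _ _ (hψ1 w₀) (hψ0 w₀)).2 (-1)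
    have h4 := hR3 _ _ _ _ (hψ1 w) h3
    have h5 : (h0 ^ K * h (q w) ^ k)⁻¹ * (h0 ^ K * h (q w₀) ^ k)⁻¹ ^ (-1 : ℤ) =
        (h (q w₀) / h (q w)) ^ k := by
      have e1 := hh (q w)
      have e2 := hh (q w₀)
      rw [zpow_neg_one, div_pow]
      field_simp
    rw [h5] at h4
    have h6 : U ^ k = ψ w * ψ w₀ ^ (-1 : ℤ) := hR1 _ _ _ (hR5 _ _ k h1) h4
    have h7 : U ≠ 0 := by
      intro h7
      rw [h7, zero_pow hk.ne'] at h6
      exact mul_ne_zero (hψ0 w) (zpow_ne_zero _ (hψ0 w₀)) h6.symm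
    refine ⟨U, h1, h7, ?_, ?_⟩
    · rcases h2 with h8 | h8
      · exact absurd h8 h7
      · exact h8
    · have h8 := congrArg w.old.ord h6
      rw [MldGeo.DivVal.ord_pow, w.old.ord_mul _ _ (hψ0 w) (zpow_ne_zero _ (hψ0 w₀)),
        MldGeo.DivVal.ord_zpow] at h8
      rw [h8]
      ring
  choose U hU1 hU0 hU2 hU3 using hU
  -- finiteness
  have hfin : ∀ x : γ.L, x ≠ 0 → {w : MldGeo.DivVal 1 γ.L | w.ord x ≠ 0}.Finite := by
    intro x hx
    obtain ⟨E, hE, -⟩ := hP1 x hx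
    refine (E.support.finite_toSet).subset ?_
    intro w hw
    rw [Finset.mem_coe, Finsupp.mem_support_iff, hE]
    exact hw
  have hrange : (Set.range U).Finite := by
    have h1 : Set.range U ⊆ Set.range (fun s : Fin N => if h : ∃ w, q w = s then U h.choose
        else 0) := by
      rintro _ ⟨w, rfl⟩
      refine ⟨q w, ?_⟩
      have h2 : ∃ w', q w' = q w := ⟨w, rfl⟩
      change (if h : ∃ w', q w' = q w then U h.choose else 0) = U w
      rw [dif_pos h2]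
      have h3 := hU1 h2.choose
      rw [h2.choose_spec] at h3
      exact hR1 _ _ _ h3 (hU1 w)
    exact (Set.finite_range _).subset h1
  have hUfin : {w : MldGeo.DivVal 1 γ.L | w.ord (U (ofOld w)) ≠ 0}.Finite := by
    refine (hrange.biUnion (t := fun x => {w : MldGeo.DivVal 1 γ.L | w.ord x ≠ 0}) ?_).subset ?_
    · rintro _ ⟨w, rfl⟩
      exact hfin _ (hU0 w)
    · intro w hw
      exact Set.mem_biUnion (Set.mem_range_self (ofOld w)) hw
  have hCfin := hfin (ψ w₀) (hψ0 w₀)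
  have hkey : ∀ w : MldGeo.DivVal 1 γ.L, (K : ℤ) * w.ord (u (ofOld w)) =
      (k : ℤ) * w.ord (U (ofOld w)) + w.ord (ψ w₀) := by
    intro w
    have h1 : (k : ℤ) * w.ord (U (ofOld w)) = w.ord (ψ (ofOld w)) - w.ord (ψ w₀) :=
      hU3 (ofOld w)
    have h2 : w.ord (ψ (ofOld w)) = K * w.ord (u (ofOld w)) := hψ2 (ofOld w)
    rw [h1, h2]
    ring
  have hKz : (K : ℤ) ≠ 0 := by exact_mod_cast hK.ne'
  have hufin : {w : MldGeo.DivVal 1 γ.L | w.ord (u (ofOld w)) ≠ 0}.Finite := by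
    refine (hUfin.union hCfin).subset ?_
    intro w hw
    by_contra hcon
    rw [Set.mem_union, not_or] at hcon
    have h1 : w.ord (U (ofOld w)) = 0 := not_not.1 hcon.1
    have h2 : w.ord (ψ w₀) = 0 := not_not.1 hcon.2
    have h3 := hkey w
    rw [h1, h2, mul_zero, add_zero] at h3
    exact hw ((mul_eq_zero.1 h3).resolve_left hKz)
  refine ⟨finite_of hufin, ?_⟩
  rw [finsum_eq]
  have hsum : ∑ᶠ w : MldGeo.DivVal 1 γ.L, w.ord (ψ w₀) = 0 := by
    obtain ⟨E, hE, hE0⟩ := hP1 (ψ w₀) (hψ0 w₀)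
    rw [finsum_eq_sum_of_support_subset (s := E.support) _ ?_]
    · rw [← hE0]
      unfold MldGeo.deg Finsupp.sum
      exact Finset.sum_congr rfl fun w _ => (hE w).symm
    · intro w hw
      rw [Finset.mem_coe, Finsupp.mem_support_iff, hE]
      exact hw
  have hkU : (Function.support fun w : MldGeo.DivVal 1 γ.L =>
      (k : ℤ) * w.ord (U (ofOld w))).Finite := by
    refine hUfin.subset ?_
    intro w hw hcon
    apply hw
    change (k : ℤ) * w.ord (U (ofOld w)) = 0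
    rw [hcon, mul_zero]
  have htot : (K : ℤ) * ∑ᶠ w : MldGeo.DivVal 1 γ.L, w.ord (u (ofOld w)) =
      ∑ᶠ w : MldGeo.DivVal 1 γ.L, (k : ℤ) * w.ord (U (ofOld w)) := by
    rw [mul_finsum, finsum_congr hkey, finsum_add_distrib hkU hCfin, hsum, add_zero]
  have hnn : 0 ≤ ∑ᶠ w : MldGeo.DivVal 1 γ.L, (k : ℤ) * w.ord (U (ofOld w)) :=
    finsum_nonneg fun w => mul_nonneg (Int.natCast_nonneg k) (hU2 (ofOld w))
  rw [← htot] at hnn
  exact nonneg_of_mul_nonneg_right hnn (by exact_mod_cast hK)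

end

end FNC
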