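import Pool.Agent.FNC.StDefs
import Pool.Agent.RMT.StU

/-!
# Families with normal crossings (MP_fa3f7f_ag): statements A

Coordinates, roots, nef line bundles.
-/

set_option autoImplicit false

namespace FNC

open MvPolynomial NCC MldX MMCI MMCX RMX

noncomputable section

/-! ### coordinates -/

/-- (DEF) Field of definition. Proof. `R` is the quotient of `ℂ[Y_1, …, Y_M]` by an ideal `I` which is
generated by finitely many polynomials `P_k` (Hilbert); `y_l` the image of `Y_l`, `C` the set of the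
coefficients of the `P_k` and of polynomials `c~`, `c ∈ S`, which represent the elements of `S`. Let
`δ'(f) = ∑_l (∂f/∂Y_l)(χ y) D(χ y_l)` for `f ∈ ℂ[Y]`: it is `ℂ`-linear, `δ'(f f') = f(χ y) δ'(f') + f'(χ y) δ'(f)`, and
`δ'(f) = D(f(χ y))` if the coefficients of `f` are in `F0` (`D` is `F0`-linear). So `δ'(P_k) = D(0) = 0` and
`δ'(I) = 0`, so `δ'` gives `δ` on `R`. -/
def S_DEF : Prop :=
  ∀ {R : Type} [CommRing R] [Algebra ℂ R], Algebra.FiniteType ℂ R → ∀ S : Finset R,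
    ∃ C : Set ℂ, C.Countable ∧ ∀ F0 : Subfield ℂ, C ⊆ F0 → ∀ (χ : R →ₐ[ℂ] ℂ)
      (D : Derivation F0 ℂ ℂ), ∃ δ : R →ₗ[ℂ] ℂ, (∀ a b, δ (a * b) = χ a * δ b + χ b * δ a) ∧
        ∀ c ∈ S, δ c = D (χ c)

/-- (PTX) The closed points are the `χ` (Nullstellensatz; `R / m` is a finite extension of `ℂ`). -/
def S_PTX : Prop :=
  ∀ {R : Type} [CommRing R] [Algebra ℂ R], Algebra.FiniteType ℂ R → ∀ m : Ideal R, m.IsMaximal →
    ∃ χ : R →ₐ[ℂ] ℂ, m = idl χ

/-- (SBR) Substitution. As `NCC.S_SUB` (`NCC/SUB.lean`). -/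
def S_SBR : Prop :=
  ∀ {k : ℕ} {N : Fin k → ℕ} {R : Type} [CommRing R] [Algebra ℂ R]
    (A : Matrix (Coord N) (Coord N) ℂ) (f : MvPolynomial (Coord N) R),
    (IsBlock A → ∀ d, IsMulti f d → IsMulti (subR A f) d) ∧
    (∀ p : Coord N → ℂ, val p (subR A f) = val (act A p) f) ∧
    (∀ χ : R →ₐ[ℂ] ℂ, fib χ (subR A f) = sub A (fib χ f)) ∧
    (∀ {S : Type} [CommRing S] [Algebra ℂ S] [Algebra R S] [IsScalarTower ℂ R S]
      (x : Coord N → S), aeval x (subR A f) = aeval (act A x) f) ∧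
    (∀ (χ : R →ₐ[ℂ] ℂ) (p : Coord N → ℂ), χ (val p f) = eval p (fib χ f)) ∧
    (∀ (χ : R →ₐ[ℂ] ℂ) (d : Fin k → ℕ), IsMulti f d → IsMultiHom (fib χ f) d) ∧
    (∀ {S : Type} [CommRing S] [Algebra ℂ S] [Algebra R S] [IsScalarTower ℂ R S],
      map (algebraMap R S) (subR A f) = subR A (map (algebraMap R S) f)) ∧
    (∀ z : R, subR A (C z * f) = C z * subR A f) ∧
    ∀ Λ : Matrix (Coord N) (Coord N) ℂ, A * Λ = 1 → subR Λ (subR A f) = f

/-- (TCB) from `NCC.S_TRV`. Proof. Let `t`, `t'`, `c` be as in `TransL`, and let `V u` be the sum of the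
gradients. Let `D` be a derivation of `ℂ` over `F0` and `δ` as in the hypothesis; `δ` is zero on `idl χ ^ 2`.
So `0 = δ(∑ t_i val p (G i) + ∑ t'_a val p (H a)) = ∑ t_i ∑_c p^c D(χ(coeff_c G_i)) + …` (`δ` is `ℂ`-linear). For
`f = G i`, and for `f = H a` with `t'_a ≠ 0`, `0 = D(eval p (fib χ f)) = ∑_c p^c D(χ(coeff_c f)) +
∑_s grd (fib χ f) p s * D (p s)`. So `∑_s V s * D (p s) = 0`, and `S_TRV` gives `c = 0`. Then `V = 0`, and
`Transversal` gives `t = 0`, `t' = 0`. -/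
def S_TCB : Prop :=
  ∀ {k q r : ℕ} {N : Fin k → ℕ} {R : Type} [CommRing R] [Algebra ℂ R] (F0 : Subfield ℂ)
    (G : Fin r → MvPolynomial (Coord N) R) (H : Fin q → MvPolynomial (Coord N) R)
    (χ : R →ₐ[ℂ] ℂ),
    (∀ D : Derivation F0 ℂ ℂ, ∃ δ : R →ₗ[ℂ] ℂ, (∀ a b, δ (a * b) = χ a * δ b + χ b * δ a) ∧
      (∀ i c, δ ((G i).coeff c) = D (χ ((G i).coeff c))) ∧
      ∀ a c, δ ((H a).coeff c) = D (χ ((H a).coeff c))) →
    ∀ Λ : Matrix (Coord N) (Coord N) ℂ, IsBlock Λ → AlgebraicIndependent F0 (ent Λ) →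
    ∀ p : Coord N → ℂ, (∀ l, ∃ i, p ⟨l, i⟩ = 1) → (∀ i, eval p (fib χ (G i)) = 0) →
    Transversal χ p G H → TransL χ Λ p G H

/-- (SCB) from `NCC.S_HOM`. `TransL` for the normalized points implies `TransL` for all points. Proof. Let
`τ_l p_(l, i_l) = 1`, `p' = (τ_(s.1) p_s)`. `val p' f = (∏ τ^d) • val p f`,
`τ_(s.1) grd (fib χ f) p' s = (∏ τ^d) grd (fib χ f) p s`. For `t`, `t'`, `c` at `p` take `t_i / ∏ τ^(e_i)`,
`t'_a / ∏ τ^(d_a)`, `c_s / τ_(s.1)` at `p'` (`Λ` is a block matrix). -/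
def S_SCB : Prop :=
  ∀ {k q r : ℕ} {N : Fin k → ℕ} {R : Type} [CommRing R] [Algebra ℂ R]
    (G : Fin r → MvPolynomial (Coord N) R) (H : Fin q → MvPolynomial (Coord N) R)
    (e : Fin r → Fin k → ℕ) (d : Fin q → Fin k → ℕ), (∀ i, IsMulti (G i) (e i)) →
    (∀ a, IsMulti (H a) (d a)) → ∀ (χ : R →ₐ[ℂ] ℂ) (Λ : Matrix (Coord N) (Coord N) ℂ), IsBlock Λ →
    (∀ p : Coord N → ℂ, (∀ l, ∃ i, p ⟨l, i⟩ = 1) → (∀ i, eval p (fib χ (G i)) = 0) →
      TransL χ Λ p G H) →
    ∀ p : Coord N → ℂ, IsPoint p → (∀ i, eval p (fib χ (G i)) = 0) → TransL χ Λ p G H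

/-- (TRB) from `S_SBR`, `NCC.S_SUB`. Transport to the new coordinates. Proof. `P = act A p`.
`val p (subR A f) = val P f`, `grd (fib χ (subR A f)) p t = ∑_s A s t grd (fib χ f) P s`. Let `W` be the sum of
the gradients at `P`; then `c = Aᵀ W` is zero at the `t` with `p t ≠ 0`, and `W u = ∑_s c s Λ s u` as
`A * Λ = 1`; if `c s ≠ 0` then `∑_u Λ s u P u = p s = 0` as `Λ * A = 1`. -/
def S_TRB : Prop :=
  ∀ {k q r : ℕ} {N : Fin k → ℕ} {R : Type} [CommRing R] [Algebra ℂ R]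
    (G : Fin r → MvPolynomial (Coord N) R) (H : Fin q → MvPolynomial (Coord N) R)
    (χ : R →ₐ[ℂ] ℂ) (A Λ : Matrix (Coord N) (Coord N) ℂ), A * Λ = 1 → Λ * A = 1 →
    ∀ p : Coord N → ℂ, TransL χ Λ (act A p) G H →
      TransX χ p (fun i => subR A (G i)) fun a => subR A (H a)

/-- (VXB) from `S_SBR`, `NCC.S_SUB`. Vertices. Proof. `θ : R →ₗ[ℂ] ℂ` with `θ (coeff_a f) ≠ 0` for some `a`;
`f0` has the coefficients `θ (coeff_c f)`; `θ (val P f) = eval P f0`. -/
def S_VXB : Prop :=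
  ∀ {k : ℕ} {N : Fin k → ℕ} {R : Type} [CommRing R] [Algebra ℂ R]
    (f : MvPolynomial (Coord N) R), f ≠ 0 → ∃ f0 : Poly N, f0 ≠ 0 ∧
      ∀ (A : Matrix (Coord N) (Coord N) ℂ) (v : (l : Fin k) → Fin (N l + 1)),
        eval (vert v) (sub A f0) ≠ 0 → val (vert v) (subR A f) ≠ 0

/-- (CRB) from `S_DEF`, `S_TCB`, `S_SCB`, `S_TRB`, `S_VXB`, `S_SBR`, `NCC.S_IND`, `NCC.S_INV`, `NCC.S_VTX`,
`NCC.S_HYP`. Proof. As `NCC.S_CRD` (`NCC/CRD.lean`). `S` is the union of the sets `C` of `S_DEF` for the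
`R j` and the sets of all coefficients of the `G j i`, `H j a`, of the coefficients of the polynomials `f0` of
`S_VXB` for the `G j i`, `H j a`, and of the `μ_(l, i)` of `S_HYP` for the vectors `x_l`; it is countable. `A` has
the entries given by `S_IND`, and `Λ` is given by `S_INV`. If `p` is a point then so is `act A p`. -/
def S_CRB : Prop :=
  ∀ {k q r J : ℕ} {N : Fin k → ℕ} (R : Fin J → Type) [∀ j, CommRing (R j)]
    [∀ j, Algebra ℂ (R j)], (∀ j, Algebra.FiniteType ℂ (R j)) →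
    ∀ (G : (j : Fin J) → Fin r → MvPolynomial (Coord N) (R j))
    (H : (j : Fin J) → Fin q → MvPolynomial (Coord N) (R j)) (e : Fin r → Fin k → ℕ)
    (d : Fin q → Fin k → ℕ), (∀ j i, IsMulti (G j i) (e i)) → (∀ j a, IsMulti (H j a) (d a)) →
    (∀ j i, G j i ≠ 0) → (∀ j a, H j a ≠ 0) →
    (∀ (j : Fin J) (χ : R j →ₐ[ℂ] ℂ) (p : Coord N → ℂ), IsPoint p →
      (∀ i, eval p (fib χ (G j i)) = 0) → Transversal χ p (G j) (H j)) →
    ∀ {K : Type} [Field K] [Algebra ℂ K] (x : Coord N → K), IsPoint x →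
    ∃ A Λ : Matrix (Coord N) (Coord N) ℂ, IsBlock A ∧ IsBlock Λ ∧ A * Λ = 1 ∧ Λ * A = 1 ∧
      (∀ (j : Fin J) (χ : R j →ₐ[ℂ] ℂ) (p : Coord N → ℂ), IsPoint p →
        (∀ i, eval p (fib χ (subR A (G j i))) = 0) →
        TransX χ p (fun i => subR A (G j i)) fun a => subR A (H j a)) ∧
      (∀ j i (v : (l : Fin k) → Fin (N l + 1)), val (vert v) (subR A (G j i)) ≠ 0) ∧
      (∀ j a (v : (l : Fin k) → Fin (N l + 1)), val (vert v) (subR A (H j a)) ≠ 0) ∧
      ∀ s, act Λ x s ≠ 0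

/-! ### roots -/

section

variable {R : Type} [CommRing R] [Algebra ℂ R]

/-- The restriction to the points with the coordinates `u = cu`. -/
def rho {n0 v : ℕ} (cu : Fin v → ℂ) (h : LaurentR R (n0 + v)) : LaurentR R n0 :=
  h.coeff.sum fun a z => AddMonoidAlgebra.single (fun l => a (Fin.castAdd v l))
    (mon cu (fun l => a (Fin.natAdd n0 l)) • z)

end

/-- (RHO) `rho` and `upR`. Proof. Everything is additive; check it for `single a z`. (Compare `KUM/EVA.lean`,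
`KUM/UPE.lean`.) For the initial forms: `pair ν (append a 0) = pair ν0 a`. -/
def S_RHO : Prop :=
  ∀ {R : Type} [CommRing R] [Algebra ℂ R] {n0 v : ℕ} (χ : R →ₐ[ℂ] ℂ) (c0 : Fin n0 → ℂ)
    (cu : Fin v → ℂ), (∀ l, c0 l ≠ 0) → (∀ a, cu a ≠ 0) →
    (∀ h : LaurentR R n0, KUM.evp χ (Fin.append c0 cu) (upR v h) = KUM.evp χ c0 h) ∧
    (∀ h h' : LaurentR R n0, upR v (h + h') = upR v h + upR v h') ∧
    (∀ (t : ℂ) (h : LaurentR R n0), upR v (t • h) = t • upR v h) ∧
    (∀ h h' : LaurentR R (n0 + v), rho cu (h + h') = rho cu h + rho cu h') ∧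
    (∀ h h' : LaurentR R (n0 + v), rho cu (h * h') = rho cu h * rho cu h') ∧
    (∀ (t : ℂ) (h : LaurentR R (n0 + v)), rho cu (t • h) = t • rho cu h) ∧
    (∀ h : LaurentR R (n0 + v), KUM.evp χ c0 (rho cu h) = KUM.evp χ (Fin.append c0 cu) h) ∧
    (∀ h : LaurentR R n0, rho cu (upR v h) = h) ∧
    (∀ (l : Fin n0) (h : LaurentR R n0), derR (Fin.castAdd v l) (upR v h) = upR v (derR l h)) ∧
    (∀ (a : Fin v) (h : LaurentR R n0), derR (Fin.natAdd n0 a) (upR v h) = 0) ∧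
    ∀ (ν : Fin (n0 + v) → ℤ) (h : LaurentR R n0),
      initFormR (upR v h) ν = upR v (initFormR h fun l => ν (Fin.castAdd v l))

/-- (KXR) from `KUM.S_EVP`, `KUM.S_EVA`, `S_RHO`. Adjoining roots preserves nondegeneracy. Proof. Let `M` be a
maximal ideal over `I` which contains the initial forms; `χ`, `c` from `EVP`, `M` is the kernel of `evp χ c`;
`c0`, `cu` the two parts of `c`. For the equation `u_a ^ m_a - ε_a x ^ λ_a` the two exponents are different as
`m_a > 0`; if their weights are different then the initial form is a monomial with a unit as the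
coefficient, which is not in `M`. So the initial form is the binomial. Let `M0` be the kernel of
`evp χ c0`: it is maximal (`evp χ c0` is a surjective ring homomorphism), lies over `I`, and contains
the initial forms of the `G i`; so the hypothesis applies to `M0`. First alternative: if
`∑ t_i in(G_i) + ∑ t'_a (binomial) ∈ M ^ 2` then apply `evp χ c ∘ derR (natAdd n0 a)` (`EVA`):
`t'_a m_a c^(m_a) = 0`, so `t'_a = 0`; then apply `rho cu`, which maps `M` to `M0` and `M ^ 2` to `M0 ^ 2`: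
`∑ t_i in(G_i) ∈ M0 ^ 2`, so `t = 0`. Second alternative: the same with `derR`:
`∑ t_i derR k in(G_i) + ∑ t'_a … ∈ M` for all `k`; `k = natAdd n0 a` gives `t'_a = 0`, `k = castAdd v l` gives
`∑ t_i derR l in(G_i) ∈ M0`. -/
def S_KXR : Prop :=
  ∀ {n0 v r0 b : ℕ} {R : Type} [CommRing R] [IsDomain R] [Algebra ℂ R]
    (G : Fin r0 → LaurentR R n0) (ε : Fin v → R) (m : Fin v → ℕ) (lam : Fin v → Fin n0 → ℤ),
    Algebra.FiniteType ℂ R → (∀ a, IsUnit (ε a)) → (∀ a, 0 < m a) → ∀ I : Ideal R, I.IsMaximal →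
    ∀ ν : Fin (n0 + v) → ℤ,
      RegularOver b (fun i => initFormR (G i) fun l => ν (Fin.castAdd v l)) I →
      RegularOver b (fun i => initFormR (kum G ε m lam i) ν) I

/-- (KLQ) Local equations for the extended system. Proof. As `KUM/LEQ.lean`. `u = E_c ^ m_c` for the last `v`
equations: `polyT` of `u_c ^ m_c - γ_c x ^ λ_c` has the coefficients `E_c ^ m_c` and
`- γ_c mon t0 λ_c = - ε_c E_c ^ m_c`. -/
def S_KLQ : Prop :=
  ∀ {F : Type} [Field F] [Algebra ℂ F] {n0 v r0 : ℕ} (B : ProjModel F) (j : Fin (B.N + 1))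
    (t0 : Fin n0 → F) (E : Fin v → F) (f0 : Fin r0 → LaurentR F n0) (γ : Fin v → F)
    (m : Fin v → ℕ) (lam : Fin v → Fin n0 → ℤ) (g0 : Fin r0 → LaurentR (B.ring j) n0)
    (ε : Fin v → B.ring j) (I : Ideal (B.ring j)), I.IsMaximal → (∀ l, t0 l ≠ 0) →
    (∀ c, E c ≠ 0) → (∀ c, 0 < m c) →
    (∀ c, (ε c : F) * E c ^ m c = γ c * mon t0 (lam c)) →
    IsLocEq (fun i => polyT t0 (f0 i)) I g0 →
    IsLocEq (fun i => polyT (Fin.append t0 E) (kum f0 γ m lam i)) I (kum g0 ε m lam)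

section

variable {F K : Type} [Field F] [Field K] [Algebra ℂ F] [Algebra ℂ K] [Algebra F K]
  [IsScalarTower ℂ F K]

/-- A family which is nondegenerate for all weights. -/
structure IsND {n0 r0 : ℕ} (b : ℕ) (B : ProjModel F) (t0 : Fin (B.N + 1) → Fin n0 → F)
    (f0 : Fin r0 → LaurentR F n0) (x0 : Fin n0 → K) : Prop where
  bundle : IsBundle B t0
  f_ne : ∀ i, f0 i ≠ 0
  ne : ∀ l, x0 l ≠ 0
  zero : ∀ i, evR x0 (f0 i) = 0
  nondeg : ∀ (ν : Fin n0 → ℤ) (j : Fin (B.N + 1)) (m : Ideal (B.ring j)), m.IsMaximal →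
    NondegenerateR b B (fun i => polyT (t0 j) (f0 i)) ν j m

end

/-- (KFM) from `S_KXR`, `S_KLQ`. The extended family. Proof. Field by field, as `KUM/FAM.lean`: `loc` from
`nondeg` for the weight `0` and `KLQ`; `nondeg`, and the first alternative of `inner`: for `ν` take the local
equations `g0` given by `IsND.nondeg` for the first part of `ν`; `KLQ`, `KXR` (`B.ring j` is a domain of
finite type). -/
def S_KFM : Prop :=
  ∀ {F K : Type} [Field F] [Field K] [Algebra ℂ F] [Algebra ℂ K] [Algebra F K]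
    [IsScalarTower ℂ F K] {n0 v r0 b e : ℕ} (B : ProjModel F) (t0 : Fin (B.N + 1) → Fin n0 → F)
    (E : Fin (B.N + 1) → Fin v → F) (f0 : Fin r0 → LaurentR F n0) (x0 : Fin n0 → K)
    (γ : Fin v → F) (m : Fin v → ℕ) (lam : Fin v → Fin n0 → ℤ) (w : Fin v → K),
    IsND b B t0 f0 x0 → Terminal b B → Algebra.trdeg ℂ F = (b : Cardinal) → 0 < b + e →
    n0 = r0 + e → Algebra.trdeg ℂ K = ((b + e : ℕ) : Cardinal) → IsBundle B E →
    (∀ c, 0 < m c) → (∀ c, γ c ≠ 0) →
    (∀ (j : Fin (B.N + 1)) (c : Fin v), ∃ ε : B.ring j, IsUnit ε ∧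
      (ε : F) * E j c ^ m c = γ c * mon (t0 j) (lam c)) →
    (∀ c, w c ^ m c = algebraMap F K (γ c) * mon x0 (lam c)) →
    IntermediateField.adjoin F (Set.range x0 ∪ Set.range w) = ⊤ →
    IsFamilyT b e B (fun j => Fin.append (t0 j) (E j)) (kum f0 γ m lam) (Fin.append x0 w)

/-! ### nef line bundles -/

/-- (KNF) from `KUM.S_PRN`, `KUM.S_CNG`. Proof. As `KUM/CFN.lean`. For the equation `i` of `f0` and an exponent
`append a 0`: the divisor is the one of `f0` (`CNG`). For the equation `u_c ^ m_c - γ_c x ^ λ_c` both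
coefficients of `polyT` have the order `m_c v.ord (E_c)`; for the exponent of `u_c ^ m_c` the divisor is `0`, for
`append (λ_c) 0` it is `v.ord (mon t0 λ_c) - m_c v.ord (E_c) = v.ord (γ_c⁻¹)`. -/
def S_KNF : Prop :=
  ∀ {F : Type} [Field F] [Algebra ℂ F] {n0 v r0 b : ℕ} (B : ProjModel F)
    (t0 : Fin (B.N + 1) → Fin n0 → F) (E : Fin (B.N + 1) → Fin v → F)
    (f0 : Fin r0 → LaurentR F n0) (γ : Fin v → F) (m : Fin v → ℕ) (lam : Fin v → Fin n0 → ℤ),
    Algebra.trdeg ℂ F = (b : Cardinal) → (∀ j (z : F), IsIntegral (B.ring j) z → z ∈ B.ring j) →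
    (∀ j l, t0 j l ≠ 0) → (∀ j c, E j c ≠ 0) → (∀ c, 0 < m c) → (∀ c, γ c ≠ 0) →
    (∀ (j : Fin (B.N + 1)) (c : Fin v), ∃ ε : B.ring j, IsUnit ε ∧
      (ε : F) * E j c ^ m c = γ c * mon (t0 j) (lam c)) →
    (CoefNef b B t0 f0 → CoefNef b B (fun j => Fin.append (t0 j) (E j)) (kum f0 γ m lam)) ∧
    (CoefSemiample b B t0 f0 →
      CoefSemiample b B (fun j => Fin.append (t0 j) (E j)) (kum f0 γ m lam))

/-- (SNF) Semiample divisors are nef (for `c = 0`). Proof. As `MMCI/CMP.lean` (`Semiample → Nef`) and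
`KUM/PRNA.lean`. Let `h_q` be the sections, `D` the divisor, `H : EquationsT γ ω t f 0 l p k h0 g u`, and `K` the
number `k` of the sections. At `w` let `(j, m)` be the chart and the point. For some `q` the function
`h_q` generates `K D` at `m`: `v.ord (h_q) + K v(D) = 0` at the prime divisors through `m`. Fix one `w_0` and
its `q_0`. At every `w`, `h_(q_0) / h_(q_w)` is regular at `m` (normality), and `ρ = (g w)^K h_(q_w)^k` is a unit
at `m`. So `(u w)^K = restr((g w)^K / h0^K) = restr(ρ) restr(1 / (h_(q_w)^k h0^K))`, and with the rational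
function `ψ = restr(1 / (h_(q_0)^k h0^K))`, `K w.ord (u w) = w.ord ψ + k w.ord (restr(h_(q_0) / h_(q_w)))`, where
the last number is nonnegative, and zero for all but finitely many `w` (there are finitely many
`q`, and `h_(q_0) / h_q` has finitely many zeros and poles on the curve where it is defined); the
sum of the `w.ord ψ` is zero. -/
def S_SNF : Prop :=
  ∀ {F : Type} [Field F] [Algebra ℂ F] {b n r : ℕ} (B : ProjModel F)
    (t : Fin (B.N + 1) → Fin n → F) (f : Fin r → LaurentR F n) (l : Fin r → ℕ) (p : Fin n → ℤ),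
    Algebra.trdeg ℂ F = (b : Cardinal) → (∀ j (z : F), IsIntegral (B.ring j) z → z ∈ B.ring j) →
    SemiampleT b B t f 0 l p → NefT b B t f 0 l p

/-- The trivializations for the system `g`, `z_a - h_a`. -/
def tB {F : Type} [Field F] [Algebra ℂ F] {k q : ℕ} (N : Fin k → ℕ) (B : ProjModel F)
    (σ : Fin (B.N + 1) → Fin q → F) (j : Fin (B.N + 1)) : Fin (MM N q) → F :=
  fun z => Sum.elim (fun _ => 1) (fun a => (σ j a)⁻¹) ((en N q).symm z)

/-- (CNB) from `S_PTX`, `S_SNF`, `KUM.S_PRN`, `KUM.S_CNG`. Proof. Let `v` be a prime divisor of the chart `j`. The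
equation `g_i`: the exponents have `z`-part `0`, so `mon (tB N B σ j)` of them is `1`, `polyT` does not change
the coefficients, and the divisor is `L = - min_c v.ord (coeff_c g_i)`, for all exponents. It is
semiample: `k = 1`, the sections are the nonzero coefficients of `g_i`; at `m = idl χ` some coefficient of
`G j i = u g_i` is not in `m`, it has the order `0`, and the others have orders `≥ 0` (they are in
`B.ring j`). So it is nef by `SNF`. The equation `z_a - h_a`: `polyT` has the coefficients `(σ j a)⁻¹` at `z_a`,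
and those of `- h_a`, of orders `≥ - v.ord (σ j a)` as `σ_(j, a) coeff_c h_a ∈ B.ring j`; so `L = v.ord (σ j a)`,
and the divisor is `0` for the exponent of `z_a` (`PRN`, `h0 = 1`), and `v.ord (σ j a)` for the others
(`CNG` with `BundleNef`). -/
def S_CNB : Prop :=
  ∀ {F : Type} [Field F] [Algebra ℂ F] {b k q r : ℕ} {N : Fin k → ℕ} (B : ProjModel F)
    (g : Fin r → MvPolynomial (Coord N) F) (h : Fin q → MvPolynomial (Coord N) F)
    (σ : Fin (B.N + 1) → Fin q → F)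
    (G : (j : Fin (B.N + 1)) → Fin r → MvPolynomial (Coord N) (B.ring j))
    (H : (j : Fin (B.N + 1)) → Fin q → MvPolynomial (Coord N) (B.ring j)),
    Algebra.trdeg ℂ F = (b : Cardinal) → (∀ j (z : F), IsIntegral (B.ring j) z → z ∈ B.ring j) →
    (∀ i, ∃ d, IsMulti (g i) d) → (∀ a, ∃ d, IsMulti (h a) d) →
    (∀ j i, ∃ u : F, u ≠ 0 ∧ ∀ a, (((G j i).coeff a : B.ring j) : F) = u * (g i).coeff a) →
    (∀ (j : Fin (B.N + 1)) (i : Fin r) (χ : B.ring j →ₐ[ℂ] ℂ), fib χ (G j i) ≠ 0) →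
    (∀ j a, σ j a ≠ 0) →
    (∀ j a c, (((H j a).coeff c : B.ring j) : F) = σ j a * (h a).coeff c) →
    ((∀ a, BundleNef b B σ a) → CoefNef b B (tB N B σ) (sysR g h)) ∧
    ((∀ a, BundleSemiample b B σ a) → CoefSemiample b B (tB N B σ) (sysR g h))

end

end FNC
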