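import Pool.Agent.FNC.StDefs
import Pool.Agent.KUM.CoverStmts

/-!
# Families with normal crossings (MP_fa3f7f_ag): statements of the affine half

Relative versions of the statements in `NCC/Stmts.lean`, for polynomials with the coefficients in a
`ℂ`-algebra `R` (the ring of a chart of `B`), or in the function field `F` of `B`.
-/

set_option autoImplicit false

namespace FNC

open MvPolynomial NCC MldX MMCI MMCX RMX

noncomputable section

variable {k q r : ℕ} {N : Fin k → ℕ}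

/-- The exponent of the dehomogenized monomial. -/
def aexp (q : ℕ) (a : Coord N →₀ ℕ) : Fin (MM N q) → ℤ := fun z => affExp q a ((en N q).symm z)

/-- The exponent of `∏_a z_a^(κ_a)`. -/
def zexp (N : Fin k → ℕ) (κ : Fin q → ℤ) : Fin (MM N q) → ℤ :=
  fun z => Sum.elim 0 κ ((en N q).symm z)

/-- The trivialization of the torus bundle. -/
def tb {F : Type} [Field F] (N : Fin k → ℕ) (σ : Fin q → F) : Fin (MM N q) → F :=
  fun z => Sum.elim (fun _ => 1) (fun a => (σ a)⁻¹) ((en N q).symm z)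

/-- The minimum of the weights in the block `l`. -/
def wm (ν : Fin (MM N q) → ℤ) (l : Fin k) : ℤ := wmin (fun i => ν (en N q i)) l

/-- The point of the coordinate stratum. -/
def pp (ν : Fin (MM N q) → ℤ) (c : Fin (MM N q) → ℂ) : Coord N → ℂ :=
  pt (fun i => ν (en N q i)) fun i => c (en N q i)

/-- The point with the coordinates `x_(l, i) / x_(l, 0)`, `z_a`. -/
def xx {K : Type} [Field K] (x : Coord N → K) (z : Fin q → K) : Fin (MM N q) → K :=
  fun i => Sum.elim (fun s : (l : Fin k) × Fin (N l) => x ⟨s.1, s.2.succ⟩ / x ⟨s.1, 0⟩) z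
    ((en N q).symm i)

/-- The first alternative of `RegularOver` (without the smoothness of the base). -/
def IndepOver {R : Type} [CommRing R] [Algebra ℂ R] {n r : ℕ} (g : Fin r → LaurentR R n)
    (m : Ideal R) : Prop :=
  ∀ M : Ideal (LaurentR R n), M.IsMaximal → M.comap (algebraMap R (LaurentR R n)) = m →
    (∀ i, g i ∈ M) → ∀ t : Fin r → ℂ, ∑ i, t i • g i ∈ M ^ 2 → t = 0

/-- FIB: restriction to the fibres. Proof. `coeff_map`, `support_map_subset`, `eval_map`, `eval₂_comp`. -/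
def S_FIB : Prop :=
  ∀ {R : Type} [CommRing R] [Algebra ℂ R] {k : ℕ} {N : Fin k → ℕ} (χ : R →ₐ[ℂ] ℂ)
    (f : MvPolynomial (Coord N) R),
    (∀ d, IsMulti f d → IsMultiHom (fib χ f) d) ∧
    ∀ p : Coord N → ℂ, eval p (fib χ f) = χ (val p f)

/-- AFC: the coefficients of `affR q f`. Proof. As `INI.affExp_inj`, `INI.aff_coeff_apply`, `INI.aff_supp` in
`NCC/INI.lean`; `mon (tb N σ) b = ∏_z …`, reindex by `en`. -/
def S_AFC : Prop :=
  ∀ {R : Type} [CommRing R] {k q : ℕ} {N : Fin k → ℕ} (f : MvPolynomial (Coord N) R),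
    (∀ d, IsMulti f d → ∀ a ∈ f.support, (affR q f).coeff (aexp q a) = f.coeff a) ∧
    (∀ b ∈ (affR q f).coeff.support, ∃ a ∈ f.support, b = aexp q a) ∧
    (∀ (a : Coord N →₀ ℕ) (j : Fin q), aexp q a (en N q (Sum.inr j)) = 0) ∧
    ∀ {F : Type} [Field F] (σ : Fin q → F),
      (∀ a : Coord N →₀ ℕ, mon (tb N σ) (aexp q a) = 1) ∧
      (∀ j : Fin q, mon (tb N σ) (Pi.single (en N q (Sum.inr j)) 1) = (σ j)⁻¹) ∧
      ∀ κ : Fin q → ℤ, mon (tb N σ) (zexp N κ) = (∏ j, σ j ^ κ j)⁻¹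

/-- NEB, from AFC: the system is not zero. Proof. `val (vert v) f ≠ 0` implies that the support of `f` is not
empty (and `R` is nontrivial); the coefficient of `z_a - affR q (H a)` at the exponent of `z_a` is `1`. -/
def S_NEB : Prop :=
  ∀ {R : Type} [CommRing R] [Algebra ℂ R] {k q r : ℕ} {N : Fin k → ℕ}
    (G : Fin r → MvPolynomial (Coord N) R) (H : Fin q → MvPolynomial (Coord N) R)
    (e : Fin r → Fin k → ℕ) (d : Fin q → Fin k → ℕ), (∀ i, IsMulti (G i) (e i)) →
    (∀ a, IsMulti (H a) (d a)) →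
    (∀ v : (l : Fin k) → Fin (N l + 1), (∀ i, val (vert v) (G i) ≠ 0) ∧
      ∀ a, val (vert v) (H a) ≠ 0) →
    ∀ i, sysR G H i ≠ 0

/-- INIR, from AFC: the initial forms of `affR q f`, relative version of `NCC.S_INI`. Proof. Copy of
`NCC/INI.lean`, with the exponents `aexp q a = affExp q a ∘ (en N q).symm` (`pair ν (aexp q a) =
pairI (ν ∘ en) (affExp q a)`, `mon c (aexp q a) = monI (c ∘ en) (affExp q a)`: reindex the sum, the
product) and the coefficients in `R`. The exponent `a` of a vertex occurs because `val (vert v) f ≠ 0`.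
`evp χ c`, `ret c`, `derR` of a sum of `single`s are sums over the support of `f` (lemma `init_sum` there;
or use `KUM.t_EVA` in `KUM/EVA.lean`, hypothesis `hEVA` if preferred). -/
def S_INIR : Prop :=
  ∀ {R : Type} [CommRing R] [Algebra ℂ R] {k q : ℕ} {N : Fin k → ℕ}
    (f : MvPolynomial (Coord N) R) (d : Fin k → ℕ), IsMulti f d →
    (∀ v : (l : Fin k) → Fin (N l + 1), val (vert v) f ≠ 0) → ∀ ν : Fin (MM N q) → ℤ,
    minOnR (affR q f) ν = ∑ l, d l * wm ν l ∧
    (∀ j, derR (en N q (Sum.inr j)) (initFormR (affR q f) ν) = 0) ∧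
    ∀ (χ : R →ₐ[ℂ] ℂ) (c : Fin (MM N q) → ℂ), (∀ z, c z ≠ 0) →
      KUM.evp χ c (initFormR (affR q f) ν) = eval (pp ν c) (fib χ f) ∧
      KUM.ret c (initFormR (affR q f) ν) = val (pp ν c) f ∧
      ∀ s : (l : Fin k) × Fin (N l),
        KUM.evp χ c (derR (en N q (Sum.inl s)) (initFormR (affR q f) ν)) =
          pp ν c ⟨s.1, s.2.succ⟩ * grd (fib χ f) (pp ν c) ⟨s.1, s.2.succ⟩

/-- INJR: the initial forms of `x_z - f`, if `x_z` does not occur in `f ≠ 0`: three cases. Proof. As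
`INJ_aux.min_g`, `INJ_aux.three` in `NCC/INJ.lean`, for the forms themselves. -/
def S_INJR : Prop :=
  ∀ {R : Type} [CommRing R] {n : ℕ} (f : LaurentR R n), f ≠ 0 → ∀ z : Fin n,
    (∀ a ∈ f.coeff.support, a z = 0) → ∀ ν : Fin n → ℤ,
    (ν z < minOnR f ν → initFormR (AddMonoidAlgebra.single (Pi.single z 1) 1 - f) ν =
      AddMonoidAlgebra.single (Pi.single z 1) 1) ∧
    (ν z = minOnR f ν → initFormR (AddMonoidAlgebra.single (Pi.single z 1) 1 - f) ν =
      AddMonoidAlgebra.single (Pi.single z 1) 1 - initFormR f ν) ∧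
    (minOnR f ν < ν z → initFormR (AddMonoidAlgebra.single (Pi.single z 1) 1 - f) ν =
      - initFormR f ν)

/-- NDB: the system is nondegenerate. Proof. Let `M` be a maximal ideal over `idl χ` which contains the
initial forms. `EVP` gives `χ'`, `c`; `χ' = χ`, because `z - χ z` is in `idl χ`. Let `p = pp ν c`; `IsPoint p`
(in each block some weight is minimal). By `INIR`, `eval p (fib χ (G i)) = 0`. By `INJR` (`affR q (H a) ≠ 0`,
`AFC`) for each `a`: the initial form of `z_a - H a` is `z_a`, not in `M`; or (2) `z_a - in(H a)`, and then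
`eval p (fib χ (H a)) = c_a ≠ 0`; or (3) `- in(H a)`, and then `eval p (fib χ (H a)) = 0`. Let
`∑ t_i • (initial form i) ∈ M ^ 2`, `t = (α, β)`. By `EVA` (the last statement) the `evp χ c` of `derR k` of
the sum is zero for all `k`, and `ret c` of it is in `idl χ ^ 2`. `k = en (inr a)`: in the case (2)
`β_a c_a = 0`, so `β_a = 0`. So with `t' = - β`: `t'_a = 0` if `eval p (fib χ (H a)) ≠ 0`,
`∑ α_i val p (G i) + ∑ t'_a val p (H a) ∈ idl χ ^ 2`, and `p_s V_s = 0` for `s = (l, i)`, `i ≥ 1`,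
`V_s = ∑ α_i grd (fib χ (G i)) p s + ∑ t'_a grd (fib χ (H a)) p s` (`INIR`). For `s = (l, 0)` as well, by
Euler's relation (`HOM` for `fib χ (G i)`, `fib χ (H a)`, `FIB`). So `TransX` gives `α = 0`, `t' = 0`. See
`NCC/NDG.lean` and `KUM/NDG.lean`. -/
def S_NDB : Prop :=
  ∀ {R : Type} [CommRing R] [Algebra ℂ R] {k q r : ℕ} {N : Fin k → ℕ}
    (G : Fin r → MvPolynomial (Coord N) R) (H : Fin q → MvPolynomial (Coord N) R)
    (e : Fin r → Fin k → ℕ) (d : Fin q → Fin k → ℕ), Algebra.FiniteType ℂ R →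
    (∀ i, IsMulti (G i) (e i)) → (∀ a, IsMulti (H a) (d a)) →
    (∀ v : (l : Fin k) → Fin (N l + 1), (∀ i, val (vert v) (G i) ≠ 0) ∧
      ∀ a, val (vert v) (H a) ≠ 0) →
    ∀ χ : R →ₐ[ℂ] ℂ, (∀ p : Coord N → ℂ, IsPoint p → (∀ i, eval p (fib χ (G i)) = 0) →
      TransX χ p G H) →
    ∀ ν : Fin (MM N q) → ℤ, IndepOver (fun i => initFormR (sysR G H i) ν) (idl χ)

def M_NDB : Prop := KUM.S_EVP → KUM.S_EVA → NCC.S_HOM → S_FIB → S_AFC → S_INIR → S_INJR → S_NDB

/-- AFB: the solution of the affine system. Proof. Copy of `NCC/AFF.lean` (`ℂ` is replaced by `F`; the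
exponents `aexp q a`, reindex the product by `en`). -/
def S_AFB : Prop :=
  ∀ {F K : Type} [Field F] [Field K] [Algebra F K] {k q r : ℕ} {N : Fin k → ℕ}
    (g : Fin r → MvPolynomial (Coord N) F) (h : Fin q → MvPolynomial (Coord N) F)
    (e : Fin r → Fin k → ℕ) (d : Fin q → Fin k → ℕ), (∀ i, IsMulti (g i) (e i)) →
    (∀ a, IsMulti (h a) (d a)) → ∀ x : Coord N → K, (∀ s, x s ≠ 0) →
    (∀ i, aeval x (g i) = 0) → ∀ i,
    evR (xx x fun a => aeval x (h a) / ∏ l, x ⟨l, 0⟩ ^ d a l) (sysR g h i) = 0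

/-- GNB: generators. Proof. `KUM/GENR.lean`, the same proof; then reindex by `en` (`mon (xx x z) (zexp N κ) =
∏_a z_a ^ κ_a`; the range of `xx x z` contains the quotients and the `z_a`, as in `KUM/COVA.lean`). -/
def S_GNB : Prop :=
  ∀ {F K : Type} [Field F] [Field K] [Algebra ℂ F] [Algebra ℂ K] [Algebra F K]
    [IsScalarTower ℂ F K] {b k q r v n : ℕ} {N : Fin k → ℕ} (B : ProjModel F)
    (g : Fin r → MvPolynomial (Coord N) F) (h : Fin q → MvPolynomial (Coord N) F)
    (d : Fin q → Fin k → ℕ) (σ : Fin (B.N + 1) → Fin q → F) (E : Fin (B.N + 1) → Fin v → F)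
    (x : Coord N → K) (w : Fin v → K) (m : Fin v → ℕ) (κ : Fin v → Fin q → ℤ) (γ : Fin v → F),
    IsFamilyCover b n B g h d σ E x w m κ γ →
    ∀ A Λ : Matrix (Coord N) (Coord N) ℂ, IsBlock A → IsBlock Λ → A * Λ = 1 →
    (∀ s, act Λ x s ≠ 0) →
    ∃ w' : Fin v → K,
      (∀ c, w' c ^ m c = algebraMap F K (γ c) *
        mon (xx (act Λ x) fun a => aeval x (h a) / ∏ l, act Λ x ⟨l, 0⟩ ^ d a l) (zexp N (κ c))) ∧
      IntermediateField.adjoin F (Set.range (xx (act Λ x) fun a =>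
        aeval x (h a) / ∏ l, act Λ x ⟨l, 0⟩ ^ d a l) ∪ Set.range w') = ⊤

/-- LQB, from AFC: local equations. Proof. `(polyT t f).coeff b = f.coeff b * mon t b` (`LEQ.polyT_coeff` in
`KUM/LEQ.lean`). For the `g i`: the exponents `aexp q a` have `mon (tb N σ) = 1`; a coefficient of `fib χ (G i)`
is not zero. For `z_a - h_a` the factor is `(σ a)⁻¹`; the coefficient of `z_a` is `1`. -/
def S_LQB : Prop :=
  ∀ {F : Type} [Field F] [Algebra ℂ F] {k q r : ℕ} {N : Fin k → ℕ} (R : Subalgebra ℂ F)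
    (g : Fin r → MvPolynomial (Coord N) F) (h : Fin q → MvPolynomial (Coord N) F)
    (σ : Fin q → F) (G : Fin r → MvPolynomial (Coord N) R) (H : Fin q → MvPolynomial (Coord N) R)
    (e : Fin r → Fin k → ℕ) (d : Fin q → Fin k → ℕ), (∀ i, IsMulti (G i) (e i)) →
    (∀ a, IsMulti (H a) (d a)) →
    (∀ i, ∃ u : F, u ≠ 0 ∧ ∀ a, (((G i).coeff a : R) : F) = u * (g i).coeff a) →
    (∀ a, σ a ≠ 0) → (∀ a c, (((H a).coeff c : R) : F) = σ a * (h a).coeff c) →
    ∀ χ : R →ₐ[ℂ] ℂ, (∀ i, fib χ (G i) ≠ 0) →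
    IsLocEq (fun i => polyT (tb N σ) (sysR g h i)) (idl χ) (sysR G H)

end

end FNC
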