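import Pool.Agent.FNC.StB

/-!
# Families with normal crossings (MP_fa3f7f_ag): statements of the affine half, the singular points of `B`
-/

set_option autoImplicit false

namespace FNC

open MvPolynomial NCC MldX MMCI MMCX RMX

noncomputable section

/-- The second alternative of `RegularOver`. -/
def IndepDer {R : Type} [CommRing R] [Algebra ℂ R] {n r : ℕ} (g : Fin r → LaurentR R n)
    (m : Ideal R) : Prop :=
  ∀ M : Ideal (LaurentR R n), M.IsMaximal → M.comap (algebraMap R (LaurentR R n)) = m →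
    (∀ i, g i ∈ M) → ∀ t : Fin r → ℂ, (∀ k, ∑ i, t i • derR k (g i) ∈ M) → t = 0

/-- NDF: the same for the fibres, with the gradients in the directions of the torus. Proof. As `NDB`,
without the restriction to the section. -/
def S_NDF : Prop :=
  ∀ {R : Type} [CommRing R] [Algebra ℂ R] {k q r : ℕ} {N : Fin k → ℕ}
    (G : Fin r → MvPolynomial (Coord N) R) (H : Fin q → MvPolynomial (Coord N) R)
    (e : Fin r → Fin k → ℕ) (d : Fin q → Fin k → ℕ), Algebra.FiniteType ℂ R →
    (∀ i, IsMulti (G i) (e i)) → (∀ a, IsMulti (H a) (d a)) →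
    (∀ v : (l : Fin k) → Fin (N l + 1), (∀ i, val (vert v) (G i) ≠ 0) ∧
      ∀ a, val (vert v) (H a) ≠ 0) →
    ∀ χ : R →ₐ[ℂ] ℂ, (∀ p : Coord N → ℂ, IsPoint p → (∀ i, eval p (fib χ (G i)) = 0) →
      TransF χ p G H) →
    ∀ ν : Fin (MM N q) → ℤ, IndepDer (fun i => initFormR (sysR G H i) ν) (idl χ)

end

end FNC
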