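import Pool.Agent.FNC.StA

/-!
# Families with normal crossings (MP_fa3f7f_ag): statements C

The theorems.
-/

set_option autoImplicit false

namespace FNC

open MvPolynomial NCC MldX MMCI MMCX RMX

noncomputable section

/-- (COO) from `S_CRB`, `S_SBR`, `S_PTX`. Coordinates for a crossing family. Proof. If all points of `B` are of
the first kind in `crossing` then apply `S_CRB` to the `R j = B.ring j`. Otherwise `NormalCrossings G0 H0`, and
apply `S_CRB` to `Fin.cons ℂ (fun j => B.ring j)`, with `Fin.cases G0 G`, `Fin.cases H0 H` (instances by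
`Fin.cases`; `Fin.cases_succ` is `rfl`): the ring `ℂ` has the only point `χ = id`, `idl χ = 0`, `val p = eval p`, so
`NormalCrossings G0 H0` gives `Transversal`. (For the points of the first kind, `TransX`.) At a point `χ` of the
second kind `fib χ (subR A (G j i)) = C c * subR A (G0 i)` and the same for `H`; so `TransF` at `(χ, p)` for `t`,
`t'` follows from `TransX` at `(id, p)` for `c_i t_i`, `c'_a t'_a`: the sum of the `val p` is zero as all
its terms are zero. `G j i ≠ 0` by `coprime` (there is a `χ` by `S_PTX`), `H j a ≠ 0` as `σ ≠ 0` (`bundle`), `h a ≠ 0`;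
`IsMulti (G j i) (e i)` by `chart`, `IsMulti (H j a) (d a)` by `divisor`, and for `G0`, `H0` by the equalities
`fib χ (G j i) = C c * G0 i`. (`B.ring j` is of finite type, see `KUM/FAM.lean`.) -/
def S_COO : Prop :=
  ∀ {F K : Type} [Field F] [Field K] [Algebra ℂ F] [Algebra ℂ K] [Algebra F K]
    [IsScalarTower ℂ F K] {b k q r : ℕ} {N : Fin k → ℕ} (B : ProjModel F)
    (g : Fin r → MvPolynomial (Coord N) F) (h : Fin q → MvPolynomial (Coord N) F)
    (σ : Fin (B.N + 1) → Fin q → F)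
    (G : (j : Fin (B.N + 1)) → Fin r → MvPolynomial (Coord N) (B.ring j))
    (H : (j : Fin (B.N + 1)) → Fin q → MvPolynomial (Coord N) (B.ring j))
    (G0 : Fin r → Poly N) (H0 : Fin q → Poly N) (e : Fin r → Fin k → ℕ) (d : Fin q → Fin k → ℕ),
    (∀ i, IsMulti (g i) (e i)) → (∀ a, IsMulti (h a) (d a)) → (∀ a, h a ≠ 0) →
    IsCrossingFamily b B g h σ G H G0 H0 → ∀ x : Coord N → K, IsPoint x →
    ∃ A Λ : Matrix (Coord N) (Coord N) ℂ, IsBlock A ∧ IsBlock Λ ∧ A * Λ = 1 ∧ Λ * A = 1 ∧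
      (∀ (j : Fin (B.N + 1)) (χ : B.ring j →ₐ[ℂ] ℂ),
        (SmoothAt b χ ∧ ∀ p : Coord N → ℂ, IsPoint p →
          (∀ i, eval p (fib χ (subR A (G j i))) = 0) →
          TransX χ p (fun i => subR A (G j i)) fun a => subR A (H j a)) ∨
        ∀ p : Coord N → ℂ, IsPoint p → (∀ i, eval p (fib χ (subR A (G j i))) = 0) →
          TransF χ p (fun i => subR A (G j i)) fun a => subR A (H j a)) ∧
      (∀ j i (v : (l : Fin k) → Fin (N l + 1)), val (vert v) (subR A (G j i)) ≠ 0) ∧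
      (∀ j a (v : (l : Fin k) → Fin (N l + 1)), val (vert v) (subR A (H j a)) ≠ 0) ∧
      ∀ s, act Λ x s ≠ 0

/-- (KMT) The theorem for roots over a nondegenerate family. From `KFM`, `KNF` and `finalU`. -/
def S_KMT : Prop :=
  ∀ {F K : Type} [Field F] [Field K] [Algebra ℂ F] [Algebra ℂ K] [Algebra F K]
    [IsScalarTower ℂ F K] {n0 v r0 b e : ℕ} (B : ProjModel F) (t0 : Fin (B.N + 1) → Fin n0 → F)
    (E : Fin (B.N + 1) → Fin v → F) (f0 : Fin r0 → LaurentR F n0) (x0 : Fin n0 → K)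
    (γ : Fin v → F) (m : Fin v → ℕ) (lam : Fin v → Fin n0 → ℤ) (w : Fin v → K),
    IsND b B t0 f0 x0 → Terminal b B → Algebra.trdeg ℂ F = (b : Cardinal) → 0 < b + e →
    n0 = r0 + e → Algebra.trdeg ℂ K = ((b + e : ℕ) : Cardinal) → IsBundle B E →
    (∀ c, 0 < m c) → (∀ c, γ c ≠ 0) →
    (∀ (j : Fin (B.N + 1)) (c : Fin v), ∃ ε : B.ring j, IsUnit ε ∧
      (ε : F) * E j c ^ m c = γ c * mon (t0 j) (lam c)) →
    (∀ c, w c ^ m c = algebraMap F K (γ c) * mon x0 (lam c)) →
    IntermediateField.adjoin F (Set.range x0 ∪ Set.range w) = ⊤ →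
    Nef b B → CoefNef b B t0 f0 →
    ∃ Y : ProjModel K, Terminal (b + e) Y ∧
      ((Nef (b + e) Y ∧ (Semiample b B → CoefSemiample b B t0 f0 → Semiample (b + e) Y)) ∨
        MoriFibre (b + e) Y)

/-- THE THEOREM. -/
def S_FAMC : Prop :=
  ∀ {F K : Type} [Field F] [Field K] [Algebra ℂ F] [Algebra ℂ K] [Algebra F K]
    [IsScalarTower ℂ F K] {b n k q r v : ℕ} {N : Fin k → ℕ} (B : ProjModel F)
    (g : Fin r → MvPolynomial (Coord N) F) (h : Fin q → MvPolynomial (Coord N) F)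
    (σ : Fin (B.N + 1) → Fin q → F)
    (G : (j : Fin (B.N + 1)) → Fin r → MvPolynomial (Coord N) (B.ring j))
    (H : (j : Fin (B.N + 1)) → Fin q → MvPolynomial (Coord N) (B.ring j))
    (G0 : Fin r → Poly N) (H0 : Fin q → Poly N) (e : Fin r → Fin k → ℕ) (d : Fin q → Fin k → ℕ)
    (E : Fin (B.N + 1) → Fin v → F) (x : Coord N → K) (w : Fin v → K) (m : Fin v → ℕ)
    (κ : Fin v → Fin q → ℤ) (γ : Fin v → F),
    (∀ i, IsMulti (g i) (e i)) → (∀ a, IsMulti (h a) (d a)) →
    IsCrossingFamily b B g h σ G H G0 H0 → IsFamilyCover b n B g h d σ E x w m κ γ →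
    Nef b B → (∀ a, BundleNef b B σ a) →
    ∃ Y : ProjModel K, Terminal (b + n) Y ∧
      ((Nef (b + n) Y ∧ (Semiample b B → (∀ a, BundleSemiample b B σ a) →
          Semiample (b + n) Y)) ∨ MoriFibre (b + n) Y)

end

end FNC
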