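import Pool.Agent.FNC.Defs
import Pool.Agent.KUM.Stmts
import Pool.Agent.NCC.Stmts

/-!
# Families with normal crossings (MP_fa3f7f_ag): auxiliary definitions
-/

set_option autoImplicit false

namespace FNC

open MvPolynomial NCC MldX MMCI MMCX RMX

noncomputable section

variable {k q r v : ℕ} {N : Fin k → ℕ} {R : Type} [CommRing R] [Algebra ℂ R]

/-- `f(A X)`. -/
def subR (A : Matrix (Coord N) (Coord N) ℂ) (f : MvPolynomial (Coord N) R) :
    MvPolynomial (Coord N) R :=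
  bind₁ (fun s : Coord N => ∑ t, C (algebraMap ℂ R (A s t)) * X t) f

/-- `Transversal` together with the coordinate hyperplanes through `p`. -/
def TransX (χ : R →ₐ[ℂ] ℂ) (p : Coord N → ℂ) (G : Fin r → MvPolynomial (Coord N) R)
    (H : Fin q → MvPolynomial (Coord N) R) : Prop :=
  ∀ (t : Fin r → ℂ) (t' : Fin q → ℂ), (∀ a, eval p (fib χ (H a)) ≠ 0 → t' a = 0) →
    ∑ i, t i • val p (G i) + ∑ a, t' a • val p (H a) ∈ idl χ ^ 2 →
    (∀ s, p s ≠ 0 → ∑ i, t i * grd (fib χ (G i)) p s + ∑ a, t' a * grd (fib χ (H a)) p s = 0) →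
    t = 0 ∧ t' = 0

/-- The same for the restrictions to the fibre over `χ`. -/
def TransF (χ : R →ₐ[ℂ] ℂ) (p : Coord N → ℂ) (G : Fin r → MvPolynomial (Coord N) R)
    (H : Fin q → MvPolynomial (Coord N) R) : Prop :=
  ∀ (t : Fin r → ℂ) (t' : Fin q → ℂ), (∀ a, eval p (fib χ (H a)) ≠ 0 → t' a = 0) →
    (∀ s, p s ≠ 0 → ∑ i, t i * grd (fib χ (G i)) p s + ∑ a, t' a * grd (fib χ (H a)) p s = 0) →
    t = 0 ∧ t' = 0

/-- `Transversal` together with the rows of `Λ` which are zero at `p`. -/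
def TransL (χ : R →ₐ[ℂ] ℂ) (Λ : Matrix (Coord N) (Coord N) ℂ) (p : Coord N → ℂ)
    (G : Fin r → MvPolynomial (Coord N) R) (H : Fin q → MvPolynomial (Coord N) R) : Prop :=
  ∀ (t : Fin r → ℂ) (t' : Fin q → ℂ) (c : Coord N → ℂ),
    (∀ a, eval p (fib χ (H a)) ≠ 0 → t' a = 0) →
    ∑ i, t i • val p (G i) + ∑ a, t' a • val p (H a) ∈ idl χ ^ 2 →
    (∀ s, c s ≠ 0 → ∑ u, Λ s u * p u = 0) →
    (∀ u, ∑ i, t i * grd (fib χ (G i)) p u + ∑ a, t' a * grd (fib χ (H a)) p u =
      ∑ s, c s * Λ s u) →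
    t = 0 ∧ t' = 0

/-- The number of the affine coordinates. -/
abbrev MM (N : Fin k → ℕ) (q : ℕ) : ℕ := Fintype.card (Aff N q)

/-- The enumeration of the affine coordinates. -/
def en (N : Fin k → ℕ) (q : ℕ) : Aff N q ≃ Fin (MM N q) := Fintype.equivFin (Aff N q)

/-- The dehomogenized polynomial. -/
def affR (q : ℕ) (f : MvPolynomial (Coord N) R) : LaurentR R (MM N q) :=
  ∑ a ∈ f.support, AddMonoidAlgebra.single (fun z => affExp q a ((en N q).symm z)) (f.coeff a)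

/-- The system `G i`, `z_a - H a`. -/
def sysR (G : Fin r → MvPolynomial (Coord N) R) (H : Fin q → MvPolynomial (Coord N) R) :
    Fin (r + q) → LaurentR R (MM N q) :=
  Fin.append (fun i => affR q (G i)) fun a =>
    AddMonoidAlgebra.single (Pi.single (en N q (Sum.inr a)) 1) 1 - affR q (H a)

/-- The Laurent polynomial in more variables. -/
def upR {n0 : ℕ} (v : ℕ) (f : LaurentR R n0) : LaurentR R (n0 + v) :=
  f.coeff.sum fun a c => AddMonoidAlgebra.single (Fin.append a 0) c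

/-- The system `G`, extended by `u_c ^ m_c = ε_c x ^ λ_c`. -/
def kum {n0 r0 : ℕ} (G : Fin r0 → LaurentR R n0) (ε : Fin v → R) (m : Fin v → ℕ)
    (lam : Fin v → Fin n0 → ℤ) : Fin (r0 + v) → LaurentR R (n0 + v) :=
  Fin.append (fun i => upR v (G i)) fun c =>
    AddMonoidAlgebra.single (Fin.append 0 (Pi.single c (m c : ℤ))) 1 -
      AddMonoidAlgebra.single (Fin.append (lam c) 0) (ε c)

end

end FNC
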