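import Pool.Agent.FNC.Defs
import Pool.Agent.KUM.PTM

/-!
# Families with normal crossings (MP_fa3f7f_ag): the definitions are satisfiable

`B` is a point, `Z = (ℙ^1)^n`, the divisors are `t_l = a_j` (`l < n`, `j < s`), and `K` is generated over
`ℂ` by `t_1, …, t_n` and `w`, `w ^ m = ∏_(l, j) (t_l - a_j) ^ κ_j`, where `m` divides `∑ κ_j`.
-/

set_option autoImplicit false

namespace FNC

open MvPolynomial NCC MldX MMCI MMCX RMX

noncomputable section

namespace VAC

/-! ### the field -/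

/-- the field of rational functions -/
abbrev Lf (n : ℕ) : Type := FractionRing (MvPolynomial (Fin n) ℂ)

/-- its algebraic closure -/
abbrev Om (n : ℕ) : Type := AlgebraicClosure (Lf n)

/-- the variables -/
def T (n : ℕ) (l : Fin n) : Om n :=
  algebraMap (Lf n) (Om n) (algebraMap (MvPolynomial (Fin n) ℂ) (Lf n) (X l))

theorem trdeg_Om (n : ℕ) : Algebra.trdeg ℂ (Om n) = (n : Cardinal) := by
  have h1 : Algebra.trdeg ℂ (Lf n) + Algebra.trdeg (Lf n) (Om n) = Algebra.trdeg ℂ (Om n) :=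
    trdeg_add_eq ℂ (Lf n)
  have h2 : Algebra.trdeg ℂ (MvPolynomial (Fin n) ℂ) + Algebra.trdeg (MvPolynomial (Fin n) ℂ) (Lf n)
      = Algebra.trdeg ℂ (Lf n) := trdeg_add_eq ℂ (MvPolynomial (Fin n) ℂ)
  have h3 : Algebra.trdeg (Lf n) (Om n) = 0 := trdeg_eq_zero
  have h4 : Algebra.trdeg (MvPolynomial (Fin n) ℂ) (Lf n) = 0 := by
    have : Algebra.IsAlgebraic (MvPolynomial (Fin n) ℂ) (Lf n) :=
      IsLocalization.isAlgebraic _ (nonZeroDivisors (MvPolynomial (Fin n) ℂ))
    exact trdeg_eq_zero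
  have h5 : Algebra.trdeg ℂ (MvPolynomial (Fin n) ℂ) = (n : Cardinal) := by
    rw [MvPolynomial.trdeg_of_isDomain]
    simp
  rw [← h1, ← h2, h3, h4, h5, add_zero, add_zero]

theorem indep_T (n : ℕ) : AlgebraicIndependent ℂ (T n) := by
  have h := MvPolynomial.algebraicIndependent_X (Fin n) ℂ
  have h2 := h.map' (f := (IsScalarTower.toAlgHom ℂ (Lf n) (Om n)).comp
    (IsScalarTower.toAlgHom ℂ (MvPolynomial (Fin n) ℂ) (Lf n))) (by
      intro x y hxy
      have h3 := (algebraMap (Lf n) (Om n)).injective hxy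
      exact IsFractionRing.injective (MvPolynomial (Fin n) ℂ) (Lf n) h3)
  exact h2

theorem field_exists (n : ℕ) (w0 : Om n) :
    ∃ (K : IntermediateField ℂ (Om n)) (t : Fin n → K) (w : K),
      (∀ l, (t l : Om n) = T n l) ∧ (w : Om n) = w0 ∧
      Algebra.trdeg ℂ K = (n : Cardinal) ∧
      IntermediateField.adjoin ℂ (Set.range t ∪ {w}) = ⊤ := by
  set S : Set (Om n) := Set.range (T n) ∪ {w0} with hS
  have hT : ∀ l, T n l ∈ IntermediateField.adjoin ℂ S := fun l =>
    IntermediateField.subset_adjoin ℂ S (Or.inl ⟨l, rfl⟩)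
  have hw : w0 ∈ IntermediateField.adjoin ℂ S :=
    IntermediateField.subset_adjoin ℂ S (Or.inr rfl)
  refine ⟨IntermediateField.adjoin ℂ S, fun l => ⟨T n l, hT l⟩, ⟨w0, hw⟩, fun _ => rfl, rfl, ?_, ?_⟩
  · apply le_antisymm
    · calc Algebra.trdeg ℂ (IntermediateField.adjoin ℂ S) ≤ Algebra.trdeg ℂ (Om n) :=
          trdeg_le_of_injective (IntermediateField.val _)
            Subtype.val_injective
        _ = n := trdeg_Om n
    · have h1 : AlgebraicIndependent ℂ (fun l => (⟨T n l, hT l⟩ : IntermediateField.adjoin ℂ S)) :=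
        AlgebraicIndependent.of_comp (IntermediateField.val _) (indep_T n)
      have h2 := h1.cardinalMk_le_trdeg
      simpa using h2
  · apply IntermediateField.lift_injective
    rw [IntermediateField.lift_adjoin, IntermediateField.lift_top]
    congr 1
    rw [Set.image_union, Set.image_singleton, ← Set.range_comp]
    rfl

/-! ### the divisors -/

/-- The dimensions of the factors. -/
abbrev N1 (n : ℕ) : Fin n → ℕ := fun _ => 1

/-- The divisor `t_l = c`. -/
def hp (R : Type) [CommRing R] [Algebra ℂ R] {n : ℕ} (l : Fin n) (c : ℂ) :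
    MvPolynomial (Coord (N1 n)) R :=
  X ⟨l, 1⟩ - C (algebraMap ℂ R c) * X ⟨l, 0⟩

theorem hp_multi (R : Type) [CommRing R] [Algebra ℂ R] {n : ℕ} (l : Fin n) (c : ℂ) :
    IsMulti (hp R l c) (Pi.single l 1) := by
  intro a ha l'
  have h1 : a ∈ (X ⟨l, 1⟩ : MvPolynomial (Coord (N1 n)) R).support ∪
      (C (algebraMap ℂ R c) * X ⟨l, 0⟩ : MvPolynomial (Coord (N1 n)) R).support :=
    support_sub _ _ _ ha
  have h2 : a = Finsupp.single (⟨l, 1⟩ : Coord (N1 n)) 1 ∨
      a = Finsupp.single (⟨l, 0⟩ : Coord (N1 n)) 1 := by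
    rcases Finset.mem_union.1 h1 with h | h
    · left
      have h' : a ∈ (monomial (Finsupp.single (⟨l, 1⟩ : Coord (N1 n)) 1) (1 : R)).support := h
      exact Finset.mem_singleton.1 (support_monomial_subset h')
    · right
      rw [C_mul_X_eq_monomial] at h
      exact Finset.mem_singleton.1 (support_monomial_subset h)
  rcases h2 with rfl | rfl
  · rw [Fin.sum_univ_two]
    by_cases hl : l = l'
    · subst hl
      simp
    · rw [Finsupp.single_eq_of_ne (by intro h; exact hl (congrArg Sigma.fst h).symm),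
        Finsupp.single_eq_of_ne (by intro h; exact hl (congrArg Sigma.fst h).symm),
        Pi.single_eq_of_ne (fun h => hl h.symm), add_zero]
  · rw [Fin.sum_univ_two]
    by_cases hl : l = l'
    · subst hl
      simp
    · rw [Finsupp.single_eq_of_ne (by intro h; exact hl (congrArg Sigma.fst h).symm),
        Finsupp.single_eq_of_ne (by intro h; exact hl (congrArg Sigma.fst h).symm),
        Pi.single_eq_of_ne (fun h => hl h.symm), add_zero]

theorem hp_map {R S : Type} [CommRing R] [Algebra ℂ R] [CommRing S] [Algebra ℂ S] (φ : R →ₐ[ℂ] S)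
    {n : ℕ} (l : Fin n) (c : ℂ) : map (φ : R →+* S) (hp R l c) = hp S l c := by
  unfold hp
  rw [map_sub, map_mul, map_X, map_X, map_C]
  congr 3
  exact φ.commutes c

theorem hp_aeval {R S : Type} [CommRing R] [Algebra ℂ R] [CommRing S] [Algebra ℂ S]
    [Algebra R S] [IsScalarTower ℂ R S] {n : ℕ} (l : Fin n) (c : ℂ) (x : Coord (N1 n) → S) :
    aeval x (hp R l c) = x ⟨l, 1⟩ - algebraMap ℂ S c * x ⟨l, 0⟩ := by
  unfold hp
  rw [map_sub, map_mul, aeval_X, aeval_X, aeval_C, ← IsScalarTower.algebraMap_apply]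

theorem hp_grd {n : ℕ} (l : Fin n) (c : ℂ) (p : Coord (N1 n) → ℂ) (l' : Fin n) :
    grd (hp ℂ l c) p ⟨l', 1⟩ = if l = l' then 1 else 0 := by
  unfold grd hp
  rw [map_sub, Derivation.leibniz, pderiv_X, pderiv_X, pderiv_C]
  by_cases h : l = l'
  · subst h
    have h0 : (⟨l, 0⟩ : Coord (N1 n)) ≠ ⟨l, 1⟩ := by
      intro h
      have := eq_of_heq (Sigma.mk.inj h).2
      exact absurd (show (0 : Fin 2) = 1 from this) (by decide)
    rw [Pi.single_eq_same, Pi.single_eq_of_ne h0, if_pos rfl]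
    simp
  · have h0 : (⟨l, 0⟩ : Coord (N1 n)) ≠ ⟨l', 1⟩ := fun hh => h (congrArg Sigma.fst hh)
    have h1 : (⟨l, 1⟩ : Coord (N1 n)) ≠ ⟨l', 1⟩ := fun hh => h (congrArg Sigma.fst hh)
    rw [Pi.single_eq_of_ne h1, Pi.single_eq_of_ne h0, if_neg h]
    simp

/-- The numbering of the divisors. -/
def en1 (n s : ℕ) : Fin (n * s) ≃ Fin n × Fin s := finProdFinEquiv.symm

open KUM.PTM (pt0)

/-- Independence of the differentials. -/
theorem key {n s : ℕ} (a : Fin s → ℂ) (ha : Function.Injective a) (p : Coord (N1 n) → ℂ)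
    (hp0 : IsPoint p) (t' : Fin (n * s) → ℂ)
    (h1 : ∀ b, eval p (hp ℂ (en1 n s b).1 (a (en1 n s b).2)) ≠ 0 → t' b = 0)
    (h3 : ∀ z, ∑ b, t' b * grd (hp ℂ (en1 n s b).1 (a (en1 n s b).2)) p z = 0) : t' = 0 := by
  have hev : ∀ b, t' b ≠ 0 → p ⟨(en1 n s b).1, 1⟩ = a (en1 n s b).2 * p ⟨(en1 n s b).1, 0⟩ := by
    intro b hb
    by_contra hne
    apply hb
    apply h1
    intro h0
    apply hne
    have h2 : eval p (hp ℂ (en1 n s b).1 (a (en1 n s b).2)) =
        p ⟨(en1 n s b).1, 1⟩ - a (en1 n s b).2 * p ⟨(en1 n s b).1, 0⟩ := by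
      unfold hp
      simp
    rw [h2] at h0
    exact sub_eq_zero.1 h0
  funext b
  by_contra hb
  have hb' : t' b ≠ 0 := hb
  have h4 := h3 ⟨(en1 n s b).1, 1⟩
  rw [Finset.sum_eq_single b] at h4
  · rw [hp_grd, if_pos rfl, mul_one] at h4
    exact hb' h4
  · intro b' _ hbb
    rw [hp_grd]
    by_cases hl : (en1 n s b').1 = (en1 n s b).1
    · rw [if_pos hl, mul_one]
      by_contra ht
      have e1 := hev b hb'
      have e2 := hev b' ht
      rw [hl] at e2
      rw [e1] at e2
      by_cases h0 : p ⟨(en1 n s b).1, 0⟩ = 0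
      · rw [h0, mul_zero] at e1
        obtain ⟨i, hi⟩ := hp0 (en1 n s b).1
        apply hi
        have hz : ∀ i : Fin (N1 n (en1 n s b).1 + 1), p ⟨(en1 n s b).1, i⟩ = 0 := by
          intro i
          refine Fin.cases h0 (fun j => ?_) i
          have hj : j = (0 : Fin 1) := Subsingleton.elim (α := Fin 1) j 0
          rw [hj]
          exact e1
        exact hz i
      · have e3 := mul_right_cancel₀ h0 e2
        have e4 := ha e3
        apply hbb
        apply (en1 n s).injective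
        exact Prod.ext hl e4.symm
    · rw [if_neg hl, mul_zero]
  · intro h
    exact absurd (Finset.mem_univ b) h

/-- The family over the point, first alternative. -/
theorem crossing {n s : ℕ} (a : Fin s → ℂ) (ha : Function.Injective a) (G0 : Fin 0 → Poly (N1 n))
    (H0 : Fin (n * s) → Poly (N1 n)) :
    IsCrossingFamily 0 pt0 (N := N1 n) (r := 0) (fun i => i.elim0)
      (fun b : Fin (n * s) => hp ℂ (en1 n s b).1 (a (en1 n s b).2)) (fun _ _ => 1)
      (fun _ i => i.elim0)
      (fun j b => hp (pt0.ring j) (en1 n s b).1 (a (en1 n s b).2)) G0 H0 where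
  chart := fun _ i => i.elim0
  coprime := fun _ i => i.elim0
  bundle := by
    intro j j' k
    refine ⟨one_ne_zero, ?_, ?_⟩
    · rw [div_one]; exact one_mem _
    · rw [div_one]; exact one_mem _
  divisor := by
    intro j b c
    rw [one_mul]
    have h := hp_map (Algebra.ofId ℂ (pt0.ring j)) (en1 n s b).1 (a (en1 n s b).2)
    rw [← h, coeff_map]
    rfl
  crossing := by
    intro j χ
    left
    refine ⟨⟨fun i => i.elim0, ?_⟩, ?_⟩
    · have h1 : idl χ = ⊥ := by
        rw [eq_bot_iff]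
        intro x hx
        have h2 : χ x = 0 := hx
        have h3 : x = algebraMap ℂ (pt0.ring j) (x : ℂ) := rfl
        rw [h3, AlgHom.commutes] at h2
        have h4 : (x : ℂ) = 0 := h2
        exact (Submodule.mem_bot _).2 (Subtype.ext h4)
      rw [h1]
      simp
    · intro p hp0 _ t t' h1 _ h3
      have hf : ∀ b : Fin (n * s), fib χ (hp (pt0.ring j) (en1 n s b).1 (a (en1 n s b).2)) =
          hp ℂ (en1 n s b).1 (a (en1 n s b).2) := fun b => hp_map χ _ _
      refine ⟨Subsingleton.elim _ _, key a ha p hp0 t' ?_ ?_⟩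
      · intro b hb
        apply h1
        rw [hf]
        exact hb
      · intro z
        have h4 := h3 z
        rw [Finset.univ_eq_empty, Finset.sum_empty, zero_add] at h4
        rw [← h4]
        exact Finset.sum_congr rfl fun b _ => by rw [hf]

/-- The homogeneous coordinates of the generic point. -/
def xx {K : Type} [Field K] {n : ℕ} (t : Fin n → K) : Coord (N1 n) → K :=
  fun z => Fin.cases 1 (fun _ => t z.1) z.2

theorem xx_zero {K : Type} [Field K] {n : ℕ} (t : Fin n → K) (l : Fin n) : xx t ⟨l, 0⟩ = 1 := rfl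

theorem xx_one {K : Type} [Field K] {n : ℕ} (t : Fin n → K) (l : Fin n) : xx t ⟨l, 1⟩ = t l := rfl

theorem bundle_one (v : ℕ) : IsBundle pt0 (fun _ (_ : Fin v) => (1 : ℂ)) := by
  intro j j' k
  refine ⟨one_ne_zero, ?_, ?_⟩
  · rw [div_one]; exact one_mem _
  · rw [div_one]; exact one_mem _

theorem bundleNef (q : ℕ) (a : Fin q) : BundleNef 0 pt0 (fun _ (_ : Fin q) => (1 : ℂ)) a := by
  intro ω _ γ
  exact (KUM.PTM.no_curve γ).elim

theorem bundleSemi (q : ℕ) (a : Fin q) :
    BundleSemiample 0 pt0 (fun _ (_ : Fin q) => (1 : ℂ)) a := by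
  intro ω _
  refine ⟨1, 1, fun _ => 1, one_pos, fun _ => one_ne_zero, ?_, ?_⟩
  · intro l i v P _
    exact (KUM.PTM.no_val v).elim
  · intro i m _
    refine ⟨0, ?_⟩
    intro v P _ _
    exact (KUM.PTM.no_val v).elim

theorem cover {n s : ℕ} (hn : 0 < n) (a : Fin s → ℂ) (m : ℕ) (hm : 0 < m) (κ : Fin s → ℤ)
    (hκ : (m : ℤ) ∣ ∑ j, κ j) {K : Type} [Field K] [Algebra ℂ K] (t : Fin n → K) (w : K)
    (hd : Algebra.trdeg ℂ K = (n : Cardinal)) (ht : ∀ l c, t l ≠ algebraMap ℂ K c)
    (hw : w ^ m = ∏ b : Fin (n * s), (t (en1 n s b).1 - algebraMap ℂ K (a (en1 n s b).2)) ^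
      κ (en1 n s b).2)
    (hg : IntermediateField.adjoin ℂ (Set.range t ∪ {w}) = ⊤) :
    IsFamilyCover 0 n pt0 (N := N1 n) (r := 0) (v := 1) (fun i => i.elim0)
      (fun b : Fin (n * s) => hp ℂ (en1 n s b).1 (a (en1 n s b).2))
      (fun b => Pi.single (en1 n s b).1 1) (fun _ _ => 1) (fun _ _ => 1) (xx t) (fun _ => w)
      (fun _ => m) (fun _ b => κ (en1 n s b).2) (fun _ => 1) where
  dim_eq := by simp
  pos := by omega
  dim_base := by
    rw [trdeg_eq_zero (R := ℂ) (A := ℂ)]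
    simp
  terminal := KUM.PTM.term
  dim := by rw [hd, zero_add]
  one := fun l => ⟨0, rfl⟩
  zero := fun i => i.elim0
  ne := by
    intro b
    rw [hp_aeval, xx_one, xx_zero, mul_one]
    exact sub_ne_zero.2 (ht _ _)
  root := by
    intro _
    refine ⟨hm, ?_⟩
    rw [map_one, one_mul, hw]
    refine Finset.prod_congr rfl fun b _ => ?_
    rw [hp_aeval, xx_one, xx_zero, mul_one]
  unram := by
    intro _ l
    have h1 : ∑ b : Fin (n * s), κ (en1 n s b).2 *
        ((Pi.single (en1 n s b).1 1 : Fin n → ℕ) l : ℤ) = ∑ j, κ j := by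
      rw [Equiv.sum_comp (en1 n s) (fun z : Fin n × Fin s => κ z.2 *
        ((Pi.single z.1 1 : Fin n → ℕ) l : ℤ)), Fintype.sum_prod_type, Finset.sum_comm]
      refine Finset.sum_congr rfl fun j _ => ?_
      rw [Finset.sum_eq_single l]
      · rw [Pi.single_eq_same]; simp
      · intro l' _ hl
        rw [Pi.single_eq_of_ne (Ne.symm hl)]; simp
      · intro h; exact absurd (Finset.mem_univ l) h
    rw [h1]
    exact hκ
  bundle := bundle_one 1
  div := by
    intro j c
    refine ⟨one_ne_zero, 1, isUnit_one, ?_⟩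
    simp
  gen := by
    rw [eq_top_iff, ← hg]
    apply IntermediateField.adjoin.mono
    rintro z (⟨l, rfl⟩ | hz)
    · exact Or.inl ⟨⟨l, 1⟩, rfl⟩
    · exact Or.inr ⟨0, hz.symm⟩

theorem T_ne (n : ℕ) (l : Fin n) (c : ℂ) : T n l ≠ algebraMap ℂ (Om n) c := by
  intro h
  have h1 := (indep_T n).transcendental l
  rw [h] at h1
  exact h1 (isAlgebraic_algebraMap c)

/-- THE EXAMPLE. For all `n > 0`, `m > 0`, distinct numbers `a_1, …, a_s` and integers `κ_1, …, κ_s` with
`m ∣ ∑ κ_j` there is a field `K`, generated over `ℂ` by independent `t_1, …, t_n` and a `w` with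
`w ^ m = ∏ (t_l - a_j) ^ κ_j`, and these data satisfy all hypotheses of the theorem on families, over the
point. -/
theorem example_exists {n s : ℕ} (hn : 0 < n) (a : Fin s → ℂ) (ha : Function.Injective a) (m : ℕ)
    (hm : 0 < m) (κ : Fin s → ℤ) (hκ : (m : ℤ) ∣ ∑ j, κ j) :
    ∃ (K : IntermediateField ℂ (Om n)) (t : Fin n → K) (w : K),
      AlgebraicIndependent ℂ t ∧
      w ^ m = ∏ b : Fin (n * s), (t (en1 n s b).1 - algebraMap ℂ K (a (en1 n s b).2)) ^
        κ (en1 n s b).2 ∧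
      IsCrossingFamily 0 pt0 (N := N1 n) (r := 0) (fun i => i.elim0)
        (fun b : Fin (n * s) => hp ℂ (en1 n s b).1 (a (en1 n s b).2)) (fun _ _ => 1)
        (fun _ i => i.elim0)
        (fun j b => hp (pt0.ring j) (en1 n s b).1 (a (en1 n s b).2)) (fun i => i.elim0)
        (fun _ => 0) ∧
      IsFamilyCover 0 n pt0 (N := N1 n) (r := 0) (v := 1) (fun i => i.elim0)
        (fun b : Fin (n * s) => hp ℂ (en1 n s b).1 (a (en1 n s b).2))
        (fun b => Pi.single (en1 n s b).1 1) (fun _ _ => 1) (fun _ _ => 1) (xx t) (fun _ => w)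
        (fun _ => m) (fun _ b => κ (en1 n s b).2) (fun _ => 1) ∧
      Nef 0 pt0 ∧ Semiample 0 pt0 ∧
      (∀ b : Fin (n * s), BundleNef 0 pt0 (fun _ _ => (1 : ℂ)) b) ∧
      ∀ b : Fin (n * s), BundleSemiample 0 pt0 (fun _ _ => (1 : ℂ)) b := by
  obtain ⟨w0, hw0⟩ := IsAlgClosed.exists_pow_nat_eq
    (∏ b : Fin (n * s), (T n (en1 n s b).1 - algebraMap ℂ (Om n) (a (en1 n s b).2)) ^
      κ (en1 n s b).2) hm
  obtain ⟨K, t, w, ht, hw, hd, hg⟩ := field_exists n w0
  have hc : ∀ c : ℂ, ((algebraMap ℂ K c : K) : Om n) = algebraMap ℂ (Om n) c := fun _ => rfl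
  have hroot : w ^ m = ∏ b : Fin (n * s), (t (en1 n s b).1 - algebraMap ℂ K (a (en1 n s b).2)) ^
        κ (en1 n s b).2 := by
    apply Subtype.ext
    have h1 : ((w ^ m : K) : Om n) = w0 ^ m := by rw [← hw]; rfl
    have h2 : ((∏ b : Fin (n * s), (t (en1 n s b).1 - algebraMap ℂ K (a (en1 n s b).2)) ^
        κ (en1 n s b).2 : K) : Om n) =
        ∏ b : Fin (n * s), (T n (en1 n s b).1 - algebraMap ℂ (Om n) (a (en1 n s b).2)) ^
      κ (en1 n s b).2 := by
      have h3 : ∀ y : K, K.val y = (y : Om n) := fun _ => rfl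
      rw [← h3, map_prod]
      refine Finset.prod_congr rfl fun b _ => ?_
      rw [map_zpow₀, map_sub, h3, h3, ht, hc]
    rw [h1, h2, hw0]
  refine ⟨K, t, w, ?_, hroot, crossing a ha _ _, cover hn a m hm κ hκ t w hd ?_ hroot hg,
    KUM.PTM.nef, KUM.PTM.semi, bundleNef _, bundleSemi _⟩
  · have h1 : (fun l => K.val (t l)) = T n := funext ht
    apply AlgebraicIndependent.of_comp K.val
    change AlgebraicIndependent ℂ (fun l => K.val (t l))
    rw [h1]
    exact indep_T n
  · intro l c h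
    apply T_ne n l c
    rw [← ht l, h]
    rfl

end VAC

end

end FNC
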